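import Pool.Agent.H121.SH.LocV

/-! Project SH: localization radii from bounds of the averaged second moments. -/

set_option autoImplicit false
set_option linter.unusedSectionVars false

open scoped BigOperators InnerProductSpace Topology ENNReal
open Filter MeasureTheory

namespace Pool.Agent.H121.SH

open Pool.Agent.Y662.TR hiding wt
open Pool.Agent.TH369.MU (SpM ep zk spm_exists)
open Pool.Agent.TH369.MU.PO2 (ep_pos ep_tendsto)
open Pool.Agent.H987.Z
open Pool.Agent.H121.Z987 (wt enorm_rpow zk_im ep_le lint_resample)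
open Pool.Agent.H121.ME (Qw Qw_fin Qw_isFinite Qw_ae)
open Pool.Agent.H121.GA
open Pool.Agent.H139.GA (GW SU SU_meas TU TU_eq TU_meas GW_meas closR)

variable {ι : Type} [Countable ι]

/-- a cutoff in the energy -/
noncomputable def wM (M E : ℝ) : ℝ := 1 / (1 + 4 * M ^ 2) * max 0 (min 1 (2 - |E| / M))

theorem wM_cont (M : ℝ) : Continuous (wM M) := by
  unfold wM
  fun_prop

theorem wM_nonneg (M E : ℝ) : 0 ≤ wM M E := by
  unfold wM
  positivity

theorem wM_out (M : ℝ) (hM : 0 < M) (E : ℝ) (hE : 2 * M < |E|) : wM M E = 0 := by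
  unfold wM
  have h1 : 2 - |E| / M ≤ 0 := by
    rw [sub_nonpos, le_div_iff₀ hM]
    exact hE.le
  rw [max_eq_left ((min_le_right _ _).trans h1), mul_zero]

theorem wM_le (M : ℝ) (E : ℝ) : wM M E ≤ 1 / (1 + 4 * M ^ 2) := by
  unfold wM
  have h1 : max 0 (min 1 (2 - |E| / M)) ≤ 1 := max_le zero_le_one (min_le_left _ _)
  have h2 : (0 : ℝ) ≤ 1 / (1 + 4 * M ^ 2) := by positivity
  nlinarith

theorem wM_in (M : ℝ) (hM : 0 < M) (E : ℝ) (hE : |E| ≤ M) : wM M E = 1 / (1 + 4 * M ^ 2) := by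
  unfold wM
  have h1 : 1 ≤ 2 - |E| / M := by
    have : |E| / M ≤ 1 := by rw [div_le_iff₀ hM]; linarith
    linarith
  rw [min_eq_left h1, max_eq_right zero_le_one, mul_one]

theorem wM_wt (M : ℝ) (hM : 0 < M) (E : ℝ) : wM M E ≤ wt E := by
  by_cases hE : 2 * M < |E|
  · rw [wM_out M hM E hE]
    exact (wt_pos E).le
  · push Not at hE
    refine (wM_le M E).trans ?_
    unfold Pool.Agent.H121.Z987.wt
    apply one_div_le_one_div_of_le (by positivity)
    have h1 : E ^ 2 = |E| ^ 2 := (sq_abs E).symm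
    have h2 : |E| ^ 2 ≤ (2 * M) ^ 2 := by
      have := abs_nonneg E
      gcongr
    nlinarith

theorem Qw_wM (M : ℝ) (hM : 0 < M) :
    Qw (wM M) Set.univ ≤ ENNReal.ofReal (1 / (1 + 4 * M ^ 2) * (4 * M)) := by
  unfold Pool.Agent.H121.ME.Qw
  rw [withDensity_apply _ MeasurableSet.univ, Measure.restrict_univ]
  have h1 : ∀ E : ℝ, ENNReal.ofReal (wM M E) ≤
      (Set.Icc (-(2 * M)) (2 * M)).indicator
        (fun _ => ENNReal.ofReal (1 / (1 + 4 * M ^ 2))) E := by
    intro E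
    by_cases hE : E ∈ Set.Icc (-(2 * M)) (2 * M)
    · rw [Set.indicator_of_mem hE]
      exact ENNReal.ofReal_le_ofReal (wM_le M E)
    · rw [Set.indicator_of_notMem hE, wM_out M hM E, ENNReal.ofReal_zero]
      by_contra h
      push Not at h
      exact hE (abs_le.1 h)
  refine (lintegral_mono h1).trans ?_
  rw [lintegral_indicator measurableSet_Icc, setLIntegral_const, Real.volume_Icc,
    ← ENNReal.ofReal_mul (by positivity)]
  apply le_of_eq
  congr 2
  ring

/-- **localization radii** -/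
theorem radV (hmU : S_mU) (hWi : S_wiM) (hSi : S_simU) (T : LL ι →L[ℂ] LL ι)
    (hT : Rs T) (lam : ℝ) (hlam : 0 < lam) (μ : Measure ℝ) [IsProbabilityMeasure μ]
    (hat : ∀ v : ℝ, μ {v} = 0) (b : ι → ι → ℝ≥0∞)
    (hb : Bnd T lam μ b) (a : ι) (M : ℝ) (hM : 0 < M) (B : Set ι) (ha : a ∈ B) (η : ℝ) (hη : 0 < η)
    (hB : ENNReal.ofReal (4 * M / Real.pi) * ∑' x : {x : ι // x ∉ B}, b a x ≤
      ENNReal.ofReal (η ^ 2)) :
    ∃ G : Set (ι → ℝ), MeasurableSet G ∧
      1 - η ≤ (Measure.infinitePi fun _ : ι => μ).real G ∧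
      ∀ ω ∈ G, ∀ (n : ℕ) (u : Fin n → LL ι) (e : Fin n → ℝ), Orthonormal ℂ u →
        (∀ j p, T (u j) p + ((lam * ω p : ℝ) : ℂ) * u j p = ((e j : ℝ) : ℂ) * u j p) →
        (∀ j, |e j| ≤ M) → ∀ S : Finset ι, (∀ x ∈ S, x ∉ B) →
          ∑ j, ∑ x ∈ S, ‖u j a‖ ^ 2 * ‖u j x‖ ^ 2 ≤ η := by
  classical
  obtain ⟨κ, hκ⟩ : ∃ κ : ℝ, κ = 1 / (1 + 4 * M ^ 2) := ⟨_, rfl⟩
  have hκ0 : 0 < κ := by rw [hκ]; positivity
  have hπ := Real.pi_pos
  obtain ⟨Y, hY⟩ : ∃ Y : (ι → ℝ) → ℝ≥0∞, Y = fun ω => ∑' x : {x : ι // x ∉ B},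
      liminf (fun k => SU (wM M) T lam ω x a k) atTop := ⟨_, rfl⟩
  have hYm : Measurable Y := by
    rw [hY]
    exact Measurable.tsum fun x => Measurable.liminf fun k =>
        SU_meas hmU (wM M) (wM_wt M hM) T hT lam x a k
  have hYi : ∫⁻ ω, Y ω ∂(Measure.infinitePi fun _ : ι => μ) ≤
      ENNReal.ofReal (Real.pi * κ * η ^ 2) := by
    have h1 : ∀ x : {x : ι // x ∉ B}, ∫⁻ ω, liminf (fun k => SU (wM M) T lam ω x a k) atTop
        ∂(Measure.infinitePi fun _ : ι => μ) ≤ Qw (wM M) Set.univ * b a x := by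
      intro x
      refine (lintegral_liminf_le (μ := Measure.infinitePi fun _ : ι => μ) (u := atTop)
        (f := fun k ω => SU (wM M) T lam ω x a k)
        fun k => SU_meas hmU (wM M) (wM_wt M hM) T hT lam x a k).trans ?_
      refine liminf_le_of_frequently_le' (Filter.Eventually.frequently ?_)
      filter_upwards with k
      refine SV_int hmU (wM M) (wM_wt M hM) T hT lam μ b hb x a ?_ k
      intro h
      exact x.2 (h ▸ ha)
    calc ∫⁻ ω, Y ω ∂(Measure.infinitePi fun _ : ι => μ) =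
        ∑' x : {x : ι // x ∉ B}, ∫⁻ ω, liminf (fun k => SU (wM M) T lam ω x a k) atTop
          ∂(Measure.infinitePi fun _ : ι => μ) := by
          rw [hY]
          exact lintegral_tsum fun x : {x : ι // x ∉ B} => (Measurable.liminf fun k =>
            SU_meas hmU (wM M) (wM_wt M hM) T hT lam x a k).aemeasurable
      _ ≤ ∑' x : {x : ι // x ∉ B}, Qw (wM M) Set.univ * b a x := ENNReal.tsum_le_tsum h1
      _ = Qw (wM M) Set.univ * ∑' x : {x : ι // x ∉ B}, b a x := ENNReal.tsum_mul_left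
      _ ≤ ENNReal.ofReal (κ * (4 * M)) * ∑' x : {x : ι // x ∉ B}, b a x := by
          refine mul_le_mul_left ?_ _
          rw [hκ]
          exact Qw_wM M hM
      _ = ENNReal.ofReal (Real.pi * κ) * (ENNReal.ofReal (4 * M / Real.pi) *
            ∑' x : {x : ι // x ∉ B}, b a x) := by
          rw [← mul_assoc (ENNReal.ofReal (Real.pi * κ)), ← ENNReal.ofReal_mul (by positivity)]
          congr 2
          field_simp
      _ ≤ ENNReal.ofReal (Real.pi * κ) * ENNReal.ofReal (η ^ 2) := by gcongr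
      _ = _ := by rw [← ENNReal.ofReal_mul (by positivity)]
  obtain ⟨G0, hG0⟩ : ∃ G0 : Set (ι → ℝ), G0 = {ω | Y ω ≤ ENNReal.ofReal (Real.pi * κ * η)} :=
    ⟨_, rfl⟩
  have hG0m : MeasurableSet G0 := by
    rw [hG0]
    exact measurableSet_le hYm measurable_const
  have hmark : (Measure.infinitePi fun _ : ι => μ) G0ᶜ ≤ ENNReal.ofReal η := by
    have h1 : G0ᶜ ⊆ {ω | ENNReal.ofReal (Real.pi * κ * η) ≤ Y ω} := by
      intro ω hω
      rw [hG0] at hω
      simp only [Set.mem_compl_iff, Set.mem_setOf_eq, not_le] at hω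
      exact hω.le
    have h2 := meas_ge_le_lintegral_div (μ := Measure.infinitePi fun _ : ι => μ)
      hYm.aemeasurable (ε := ENNReal.ofReal (Real.pi * κ * η))
      (by simpa using (by positivity : 0 < Real.pi * κ * η)) ENNReal.ofReal_ne_top
    refine (measure_mono h1).trans (h2.trans ?_)
    rw [ENNReal.div_le_iff (by simpa using (by positivity : 0 < Real.pi * κ * η))
      ENNReal.ofReal_ne_top, ← ENNReal.ofReal_mul hη.le]
    refine hYi.trans (le_of_eq ?_)
    congr 1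
    ring
  have hsim := hSi ι T hT lam hlam μ hat
  obtain ⟨Z, hZs, hZm, hZ0⟩ := exists_measurable_superset_of_null hsim
  refine ⟨G0 \ Z, hG0m.diff hZm, ?_, ?_⟩
  · have h1 : (Measure.infinitePi fun _ : ι => μ) (G0 \ Z)ᶜ ≤ ENNReal.ofReal η := by
      have h2 : (G0 \ Z)ᶜ ⊆ G0ᶜ ∪ Z := by
        intro ω hω
        by_cases h : ω ∈ G0
        · right
          by_contra h3
          exact hω ⟨h, h3⟩
        · exact Or.inl h
      refine (measure_mono h2).trans ((measure_union_le _ _).trans ?_)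
      rw [hZ0, add_zero]
      exact hmark
    have h3 : (Measure.infinitePi fun _ : ι => μ).real (G0 \ Z)ᶜ ≤ η := by
      rw [Measure.real]
      exact ENNReal.toReal_le_of_le_ofReal hη.le h1
    have h4 := probReal_compl_eq_one_sub (μ := Measure.infinitePi fun _ : ι => μ)
      (hG0m.diff hZm)
    linarith
  · rintro ω ⟨hω1, hω2⟩ n u e hu hue heM S hS
    have hω3 : ∀ (e : ℝ) (u v : LL ι),
      (∀ p, T u p + ((lam * ω p : ℝ) : ℂ) * u p = (e : ℂ) * u p) →
      (∀ p, T v p + ((lam * ω p : ℝ) : ℂ) * v p = (e : ℂ) * v p) → u ≠ 0 → ∃ a : ℂ, v = a • u := by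
      by_contra h
      exact hω2 (hZs h)
    have hu1 : ∀ j, ‖u j‖ = 1 := hu.1
    have hu0 : ∀ j, u j ≠ 0 := by
      intro j h
      have := hu1 j
      rw [h, norm_zero] at this
      exact zero_ne_one this
    have hinj : Function.Injective e := by
      intro i j hij
      by_contra hne
      obtain ⟨c, hc⟩ := hω3 (e i) (u i) (u j) (hue i) (by rw [hij]; exact hue j) (hu0 i)
      have h1 : ⟪u i, u j⟫_ℂ = 0 := hu.2 hne
      rw [hc, inner_smul_right, inner_self_eq_norm_sq_to_K, hu1 i] at h1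
      simp only [Complex.coe_algebraMap, Complex.ofReal_one, one_pow, mul_one] at h1
      rw [h1, zero_smul] at hc
      exact hu0 j hc
    have h5 : ∀ x ∈ S, ∑ j, ENNReal.ofReal (Real.pi * κ * (‖u j x‖ ^ 2 * ‖u j a‖ ^ 2)) ≤
        liminf (fun k => SU (wM M) T lam ω x a k) atTop := by
      intro x _
      have h6 := hWi (wM M) (wM_cont M) (wM_nonneg M) (wM_wt M hM) ι T hT
        (fun p => lam * ω p) x a n e u hue hu1 hinj (fun j v hv => hω3 (e j) (u j) v (hue j) hv (hu0 j))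
      have h7 : ∀ j, wM M (e j) = κ := fun j => by rw [hκ]; exact wM_in M hM (e j) (heM j)
      simp only [h7] at h6
      exact h6
    have h6 : ∑ x ∈ S, ∑ j, ENNReal.ofReal (Real.pi * κ * (‖u j x‖ ^ 2 * ‖u j a‖ ^ 2)) ≤ Y ω := by
      refine (Finset.sum_le_sum h5).trans ?_
      rw [hY]
      have h7 := ENNReal.sum_le_tsum (f := fun x : {x : ι // x ∉ B} =>
        liminf (fun k => SU (wM M) T lam ω x a k) atTop) (S.subtype fun x => x ∉ B)
      refine le_trans (le_of_eq ?_) h7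
      rw [Finset.sum_subtype_of_mem (fun x => liminf (fun k => SU (wM M) T lam ω x a k) atTop) hS]
    have h7 : Y ω ≤ ENNReal.ofReal (Real.pi * κ * η) := by
      rw [hG0] at hω1
      exact hω1
    have h8 : ∑ x ∈ S, ∑ j, ENNReal.ofReal (Real.pi * κ * (‖u j x‖ ^ 2 * ‖u j a‖ ^ 2)) =
        ENNReal.ofReal (Real.pi * κ * ∑ j, ∑ x ∈ S, ‖u j a‖ ^ 2 * ‖u j x‖ ^ 2) := by
      rw [Finset.sum_comm, Finset.mul_sum, ENNReal.ofReal_sum_of_nonneg fun j _ => by positivity]
      refine Finset.sum_congr rfl fun j _ => ?_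
      rw [Finset.mul_sum, ENNReal.ofReal_sum_of_nonneg fun x _ => by positivity]
      refine Finset.sum_congr rfl fun x _ => ?_
      congr 1
      ring
    rw [h8] at h6
    have h9 := h6.trans h7
    rw [ENNReal.ofReal_le_ofReal_iff (by positivity)] at h9
    have h10 : 0 < Real.pi * κ := by positivity
    exact le_of_mul_le_mul_left h9 h10

end Pool.Agent.H121.SH
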