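import Pool.Agent.H121.SH.Rec
import Pool.Agent.H121.SH.RadV

/-! Project SH: complete localization on graphs of degree at most `K`. -/

set_option autoImplicit false
set_option linter.unusedSectionVars false

open scoped BigOperators InnerProductSpace Topology ENNReal
open Filter MeasureTheory

namespace Pool.Agent.H121.SH

open Pool.Agent.Y662.TR hiding wt
open Pool.Agent.TH369.MU (SpM ep zk spm_exists)
open Pool.Agent.H987.Z
open Pool.Agent.H987.Y (Ker Op)
open Pool.Agent.H121.Z987 (wt)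
open Pool.Agent.H121.GA
open Pool.Agent.H121.UE (rk)

variable {ι : Type}

theorem rk_univ (t : ι → ι → ℝ) : rk Set.univ t = t := by
  funext x y
  unfold rk
  rw [if_pos ⟨Set.mem_univ _, Set.mem_univ _⟩]

theorem gr_univ (t : ι → ι → ℝ) (V : ι → ℝ) (z : ℂ) (x y : ι) :
    GR t V Set.univ z x y = GU (Op t) V z x y := by
  unfold GR
  rw [if_pos ⟨Set.mem_univ _, Set.mem_univ _⟩, rk_univ]

/-- the bound of the second moments -/
noncomputable def bS (D lam s L : ℝ) (μ : Measure ℝ) (t : ι → ι → ℝ) (N : ι → Finset ι) (y x : ι) :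
    ℝ≥0∞ :=
  ENNReal.ofReal (Real.pi * D / lam) * ∑ w ∈ N y, Fi μ lam s L t w x

variable [Countable ι]

theorem bS_bnd (hsch : S_sch) (heta : S_eta) (D lam s L : ℝ) (hD : 0 < D) (hlam : 0 < lam)
    (hs : 0 < s) (hs1 : s ≤ 1) (μ : Measure ℝ) [IsProbabilityMeasure μ] (hμ : Dn D μ) (K : ℕ)
    (t : ι → ι → ℝ) (N : ι → Finset ι) (ht : Grf K t N) :
    Bnd (Op t) lam μ (bS D lam s L μ t N) := by
  intro x y hxy z hz
  have h1 := heta D lam s hD hlam hs hs1 μ hμ ι K t N ht Set.univ z y x hz (Set.mem_univ _) hxy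
  have h2 : ∀ ω : ι → ℝ, GU (Op t) (fun p => lam * ω p) z x y =
      GR t (fun p => lam * ω p) Set.univ z y x := by
    intro ω
    rw [← gr_univ, (hsch ι K t N ht (fun p => lam * ω p) Set.univ z hz).1 x y]
  simp only [h2]
  refine h1.trans ?_
  unfold bS
  gcongr with w _
  exact fa_le_Fi μ lam s L t _ z hz w x

theorem bS_sum (hsch : S_sch) (hresn : S_resn) (hmain : S_mainx) (D lam h : ℝ) (hD : 0 < D)
    (hlam : 1 ≤ lam) (hh : 0 < h) (hh2 : h ≤ 1 / 2) (μ : Measure ℝ) [IsProbabilityMeasure μ]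
    (hμ : Dn D μ) (K : ℕ) (t : ι → ι → ℝ) (N : ι → Finset ι) (ht : Grf K t N) (L : ℝ)
    (hL : 1 ≤ L) (hLc : cC D lam h ≤ L * cM D lam h) (γ q : ℝ) (hγ : 0 ≤ γ) (hq : q < 1)
    (hw : Real.exp (2 * γ) * (K * cM D lam h + L * K ^ 2 * (k1 D lam h + k2 D lam h)) ≤ q)
    (r : ι → ℕ) (hr : ∀ x, ∀ w ∈ N x, r w ≤ r x + 1) (y : ι) :
    ∑' x, bS D lam (1 - h) L μ t N y x * ENNReal.ofReal (Real.exp (γ * r x)) ≤
      ENNReal.ofReal (Real.pi * D / lam * (2 * L * Real.exp γ / (1 - q)) * Real.exp (γ * r y)) := by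
  have hcM := cM_nonneg D lam h hD hlam hh
  have hk1 := k1_nonneg D lam h hD hh
  have hk2 := k2_nonneg D lam h hD hlam hh
  have hL0 : 0 ≤ L := by linarith
  have hq1 : 0 < 1 - q := by linarith
  have hlam0 : 0 < lam := by linarith
  have hπ := Real.pi_pos
  have hE1 : 1 ≤ Real.exp γ := Real.one_le_exp hγ
  have hE2 : Real.exp (2 * γ) = Real.exp γ * Real.exp γ := by rw [← Real.exp_add]; ring_nf
  obtain ⟨s0, hs0⟩ : ∃ s0 : ℝ, s0 = L * cM D lam h + L * k1 D lam h * (K * Real.exp γ) := ⟨_, rfl⟩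
  have hs0n : 0 ≤ s0 := by rw [hs0]; positivity
  have hA : 0 ≤ K * cM D lam h := by positivity
  have hB : 0 ≤ L * K ^ 2 * k1 D lam h := by positivity
  have hC : 0 ≤ L * K ^ 2 * k2 D lam h := by positivity
  have hKs : K * s0 ≤ 2 * L := by
    have h1 : K * cM D lam h ≤ 1 := by nlinarith
    have h2 : L * K ^ 2 * k1 D lam h * Real.exp γ ≤ 1 := by
      have h3 : L * K ^ 2 * k1 D lam h * Real.exp γ ≤
          Real.exp (2 * γ) * (L * K ^ 2 * k1 D lam h) := by
        rw [hE2]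
        nlinarith [mul_nonneg (mul_nonneg hB (Real.exp_pos γ).le) (sub_nonneg.2 hE1)]
      nlinarith [Real.exp_pos (2 * γ)]
    calc K * s0 = L * (K * cM D lam h) + L * K ^ 2 * k1 D lam h * Real.exp γ := by
          rw [hs0]; ring
      _ ≤ L * 1 + 1 := by gcongr
      _ ≤ _ := by linarith
  have hsum := Fi_sum hsch hresn hmain D lam h hD hlam hh hh2 μ hμ K t N ht L hL hLc γ q hγ hq hw
    r hr
  rw [← hs0] at hsum
  unfold bS
  simp only [mul_assoc]
  rw [ENNReal.tsum_mul_left]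
  simp only [Finset.sum_mul]
  rw [Summable.tsum_finsetSum fun i _ => ENNReal.summable]
  have h1 : ∀ w ∈ N y, ∑' x, Fi μ lam (1 - h) L t w x * ENNReal.ofReal (Real.exp (γ * r x)) ≤
      ENNReal.ofReal (s0 / (1 - q) * (Real.exp γ * Real.exp (γ * r y))) := by
    intro w hw'
    refine (hsum w).trans ?_
    rw [← ENNReal.ofReal_mul (by positivity)]
    apply ENNReal.ofReal_le_ofReal
    have h2 : Real.exp (γ * r w) ≤ Real.exp γ * Real.exp (γ * r y) := by
      rw [← Real.exp_add]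
      apply Real.exp_le_exp.2
      have h3 : (r w : ℝ) ≤ r y + 1 := by exact_mod_cast hr y w hw'
      nlinarith
    gcongr
  calc ENNReal.ofReal (Real.pi * D / lam) *
        ∑ w ∈ N y, ∑' x, Fi μ lam (1 - h) L t w x * ENNReal.ofReal (Real.exp (γ * r x))
      ≤ ENNReal.ofReal (Real.pi * D / lam) *
        ∑ w ∈ N y, ENNReal.ofReal (s0 / (1 - q) * (Real.exp γ * Real.exp (γ * r y))) := by
        gcongr with w hw'
        exact h1 w hw'
    _ = ENNReal.ofReal (Real.pi * D / lam) *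
        (((N y).card : ℝ≥0∞) * ENNReal.ofReal (s0 / (1 - q) * (Real.exp γ * Real.exp (γ * r y)))) := by
        rw [Finset.sum_const, nsmul_eq_mul]
    _ ≤ ENNReal.ofReal (Real.pi * D / lam) *
        (ENNReal.ofReal K * ENNReal.ofReal (s0 / (1 - q) * (Real.exp γ * Real.exp (γ * r y)))) := by
        gcongr
        rw [ENNReal.ofReal_natCast]
        exact_mod_cast ht.cd y
    _ = ENNReal.ofReal (Real.pi * D / lam * (K * (s0 / (1 - q) *
          (Real.exp γ * Real.exp (γ * r y))))) := by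
        rw [← ENNReal.ofReal_mul (by positivity), ← ENNReal.ofReal_mul (by positivity)]
    _ ≤ _ := by
        apply ENNReal.ofReal_le_ofReal
        have h2 : K * (s0 / (1 - q) * (Real.exp γ * Real.exp (γ * r y))) ≤
            2 * L * Real.exp γ / (1 - q) * Real.exp (γ * r y) := by
          calc K * (s0 / (1 - q) * (Real.exp γ * Real.exp (γ * r y)))
              = (K * s0) * (Real.exp γ / (1 - q) * Real.exp (γ * r y)) := by ring
            _ ≤ (2 * L) * (Real.exp γ / (1 - q) * Real.exp (γ * r y)) := by gcongr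
            _ = _ := by ring
        calc Real.pi * D / lam * (K * (s0 / (1 - q) * (Real.exp γ * Real.exp (γ * r y))))
            ≤ Real.pi * D / lam * (2 * L * Real.exp γ / (1 - q) * Real.exp (γ * r y)) := by gcongr
          _ = _ := by ring

/-- `∀ᵐ` pure point spectrum, simple eigenvalues and exponential decay -/
def PpD (T : LL ι →L[ℂ] LL ι) (lam : ℝ) (μ : Measure ℝ) (γ : ℝ) (r : ι → ℕ) : Prop :=
  ∀ᵐ ω ∂(Measure.infinitePi fun _ : ι => μ),
    (∀ (φ : LL ι) (m : Measure ℝ), SpR (RU T fun x => lam * ω x) φ m →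
      ∃ A : Set ℝ, A.Countable ∧ m Aᶜ = 0) ∧
    (∀ (e : ℝ) (u : LL ι), (∀ p, T u p + ((lam * ω p : ℝ) : ℂ) * u p = (e : ℂ) * u p) →
        Summable fun x => Real.exp (γ * r x) * ‖u x‖ ^ 2) ∧
    ∀ (e : ℝ) (u v : LL ι),
      (∀ p, T u p + ((lam * ω p : ℝ) : ℂ) * u p = (e : ℂ) * u p) →
      (∀ p, T v p + ((lam * ω p : ℝ) : ℂ) * v p = (e : ℂ) * v p) → u ≠ 0 → ∃ a : ℂ, v = a • u

/-- the localization radius at `a` is at most `R` (energies at most `E0`) with probability `1 - η` -/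
def RadB (T : LL ι →L[ℂ] LL ι) (lam : ℝ) (μ : Measure ℝ) (r : ι → ℕ) (a : ι) (E0 η : ℝ) (R : ℕ) :
    Prop :=
  ∃ G : Set (ι → ℝ), MeasurableSet G ∧
      1 - η ≤ (Measure.infinitePi fun _ : ι => μ).real G ∧
      ∀ ω ∈ G, ∀ (n : ℕ) (u : Fin n → LL ι) (e : Fin n → ℝ), Orthonormal ℂ u →
        (∀ j p, T (u j) p + ((lam * ω p : ℝ) : ℂ) * u j p = ((e j : ℝ) : ℂ) * u j p) →
        (∀ j, |e j| ≤ E0) → ∀ S : Finset ι, (∀ x ∈ S, R < r x) →
          ∑ j, ∑ x ∈ S, ‖u j a‖ ^ 2 * ‖u j x‖ ^ 2 ≤ η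

theorem Dn_atom (D : ℝ) (μ : Measure ℝ) (hμ : Dn D μ) (v : ℝ) : μ {v} = 0 := by
  have h1 := hμ {v} (measurableSet_singleton v)
  simpa using h1

/-- **complete localization with the constant of the tree** -/
theorem gen (hsch : S_sch) (hresn : S_resn) (hmain : S_mainx) (heta : S_eta) (hpar : S_parG)
    (hruB : S_ruB) (hmU : S_mU) (hwien : S_wienR) (hclos : S_closR) (hWi : S_wiM) (hSi : S_simU)
    (hker : ∀ (ι : Type) (K : ℕ) (t : ι → ι → ℝ) (N : ι → Finset ι), Grf K t N → Rs (Op t))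
    (D ε : ℝ) (hD : 0 < D) (hε : 0 < ε) :
    ∃ (K0 : ℕ) (γ C : ℝ), 2 ≤ K0 ∧ 0 < γ ∧ 0 < C ∧
    ∀ K : ℕ, K0 ≤ K → ∀ lam : ℝ, (1 + ε) * (4 * D * K * Real.log K) ≤ lam →
    ∀ (ι : Type) [Countable ι] (t : ι → ι → ℝ) (N : ι → Finset ι), Grf K t N →
    ∀ r : ι → ℕ, (∀ x, ∀ w ∈ N x, r w ≤ r x + 1) →
    ∀ (μ : Measure ℝ) [IsProbabilityMeasure μ], Dn D μ →
      PpD (Op t) lam μ γ r ∧
      ∀ (a : ι), r a = 0 → ∀ (M η : ℝ) (R : ℕ), 0 < M → 0 < η → C * M * Real.exp (-(γ * R)) ≤ η ^ 2 →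
        RadB (Op t) lam μ r a (M * lam) η R := by
  obtain ⟨K0, L, γ, q, hK0, hL, hγ, hq, hpar⟩ := hpar D ε hD hε
  have hq1 : 0 < 1 - q := by linarith
  have hL0 : 0 < L := by linarith
  have hπ := Real.pi_pos
  refine ⟨K0, γ, 8 * D * L * Real.exp γ / (1 - q), hK0, hγ, by positivity, ?_⟩
  intro K hK lam hlamK ι _ t N ht r hr μ _ hμ
  obtain ⟨h, hh, hh2, hlam, hLc, -, hw⟩ := hpar K hK lam hlamK
  have hlam0 : 0 < lam := by linarith
  have hs : 0 < 1 - h := by linarith
  have hs1 : 1 - h ≤ 1 := by linarith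
  have hat := Dn_atom D μ hμ
  have hT := hker ι K t N ht
  have hb := bS_bnd hsch heta D lam (1 - h) L hD hlam0 hs hs1 μ hμ K t N ht
  have hsum := bS_sum hsch hresn hmain D lam h hD hlam hh hh2 μ hμ K t N ht L hL hLc γ q hγ.le hq hw
    r hr
  have hfs1 : ∀ y, ∑' x, bS D lam (1 - h) L μ t N y x * ENNReal.ofReal (Real.exp (γ * r x)) ≠ ∞ :=
    fun y => ne_top_of_le_ne_top ENNReal.ofReal_ne_top (hsum y)
  have hfs : ∀ y, ∑' x, bS D lam (1 - h) L μ t N y x ≠ ∞ := by
    intro y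
    refine ne_top_of_le_ne_top (hfs1 y) (ENNReal.tsum_le_tsum fun x => ?_)
    have h1 : (1 : ℝ≥0∞) ≤ ENNReal.ofReal (Real.exp (γ * r x)) := by
      rw [← ENNReal.ofReal_one]
      apply ENNReal.ofReal_le_ofReal
      exact Real.one_le_exp (by positivity)
    calc bS D lam (1 - h) L μ t N y x = bS D lam (1 - h) L μ t N y x * 1 := (mul_one _).symm
      _ ≤ _ := by gcongr
  refine ⟨?_, ?_⟩
  · have h1 := ppV hruB hmU hwien hclos (Op t) hT lam μ _ hb hfs
    have h2 := decV hmU hWi hSi (Op t) hT lam hlam0 μ hat _ hb γ hγ.le r hfs1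
    have h3 := hSi ι (Op t) hT lam hlam0 μ hat
    unfold PpD
    filter_upwards [h1, h2, h3] with ω a1 a2 a3
    exact ⟨a1, a2, a3⟩
  · intro a ha M η R hM hη hR
    have h1 := radV hmU hWi hSi (Op t) hT lam hlam0 μ hat _ hb a (M * lam) (by positivity)
      {x | r x ≤ R} (by simp [ha]) η hη ?_
    · obtain ⟨G, hG1, hG2, hG3⟩ := h1
      refine ⟨G, hG1, hG2, fun ω hω n u e hu hue heM S hS => ?_⟩
      refine hG3 ω hω n u e hu hue heM S fun x hx => ?_
      have := hS x hx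
      simp only [Set.mem_setOf_eq, not_le]
      exact this
    · have h2 : ∑' x : {x : ι // x ∉ {x | r x ≤ R}}, bS D lam (1 - h) L μ t N a x ≤
          ENNReal.ofReal (Real.exp (-(γ * R))) *
            ∑' x, bS D lam (1 - h) L μ t N a x * ENNReal.ofReal (Real.exp (γ * r x)) := by
        rw [← ENNReal.tsum_mul_left]
        refine le_trans ?_ (ENNReal.tsum_comp_le_tsum_of_injective
          (Subtype.val_injective (p := fun x : ι => x ∉ {x | r x ≤ R})) (fun x => ENNReal.ofReal (Real.exp (-(γ * R))) *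
            (bS D lam (1 - h) L μ t N a x * ENNReal.ofReal (Real.exp (γ * r x)))))
        refine ENNReal.tsum_le_tsum fun x => ?_
        have h3 : (1 : ℝ≥0∞) ≤ ENNReal.ofReal (Real.exp (-(γ * R))) *
            ENNReal.ofReal (Real.exp (γ * r x)) := by
          rw [← ENNReal.ofReal_mul (Real.exp_pos _).le, ← Real.exp_add, ← ENNReal.ofReal_one]
          apply ENNReal.ofReal_le_ofReal
          apply Real.one_le_exp
          have h4 : R ≤ r x := by
            have h5 := x.2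
            simp only [Set.mem_setOf_eq, not_le] at h5
            exact h5.le
          have h5 : (R : ℝ) ≤ r x := by exact_mod_cast h4
          nlinarith
        calc bS D lam (1 - h) L μ t N a x = bS D lam (1 - h) L μ t N a x * 1 := (mul_one _).symm
          _ ≤ bS D lam (1 - h) L μ t N a x * (ENNReal.ofReal (Real.exp (-(γ * R))) *
              ENNReal.ofReal (Real.exp (γ * r x))) := by gcongr
          _ = _ := by
              show _ = ENNReal.ofReal (Real.exp (-(γ * R))) *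
                (bS D lam (1 - h) L μ t N a x * ENNReal.ofReal (Real.exp (γ * r x)))
              ring
      have h3 := hsum a
      rw [ha] at h3
      simp only [CharP.cast_eq_zero, mul_zero, Real.exp_zero, mul_one] at h3
      calc ENNReal.ofReal (4 * (M * lam) / Real.pi) *
            ∑' x : {x : ι // x ∉ {x | r x ≤ R}}, bS D lam (1 - h) L μ t N a x
          ≤ ENNReal.ofReal (4 * (M * lam) / Real.pi) * (ENNReal.ofReal (Real.exp (-(γ * R))) *
            ENNReal.ofReal (Real.pi * D / lam * (2 * L * Real.exp γ / (1 - q)))) := by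
            gcongr
            exact h2.trans (by gcongr)
        _ = ENNReal.ofReal (8 * D * L * Real.exp γ / (1 - q) * M * Real.exp (-(γ * R))) := by
            rw [← ENNReal.ofReal_mul (by positivity), ← ENNReal.ofReal_mul (by positivity)]
            congr 1
            field_simp
            ring
        _ ≤ _ := ENNReal.ofReal_le_ofReal hR

end Pool.Agent.H121.SH
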