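import Pool.Agent.H121.SH.RadV

/-! Project SH, part M: localization in an energy window from bounds of the averaged second moments. -/

set_option autoImplicit false
set_option linter.unusedSectionVars false

open scoped BigOperators InnerProductSpace Topology ENNReal
open Filter MeasureTheory

namespace Pool.Agent.H121.SH

open Pool.Agent.Y662.TR hiding wt
open Pool.Agent.TH369.MU (SpM ep zk spm_exists)
open Pool.Agent.TH369.MU.PO2 (ep_pos ep_tendsto)
open Pool.Agent.H987.Z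
open Pool.Agent.H121.Z987 (wt enorm_rpow zk_im ep_le lint_resample)
open Pool.Agent.H121.ME (Qw Qw_fin Qw_isFinite Qw_ae)
open Pool.Agent.H121.GA
open Pool.Agent.H139.GA (GW SU SU_meas TU TU_eq TU_meas GW_meas closR)

variable {ι : Type} [Countable ι]

/-- the second moments are bounded by `b y x`, `x ≠ y`, at the energies `I` -/
def BndI (I : Set ℝ) (T : LL ι →L[ℂ] LL ι) (lam : ℝ) (μ : Measure ℝ) (b : ι → ι → ℝ≥0∞) : Prop :=
  ∀ x y : ι, x ≠ y → ∀ z : ℂ, 0 < z.im → z.re ∈ I →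
    ∫⁻ ω, ENNReal.ofReal (z.im * ‖GU T (fun p => lam * ω p) z x y‖ ^ 2)
      ∂(Measure.infinitePi fun _ : ι => μ) ≤ b y x

theorem SW_int (hmU : S_mU) (w : ℝ → ℝ) (hwc : Continuous w) (hw1 : ∀ E, w E ≤ wt E) (I : Set ℝ)
    (hI : ∀ E, 0 < w E → E ∈ I) (T : LL ι →L[ℂ] LL ι) (hT : Rs T)
    (lam : ℝ) (μ : Measure ℝ) [IsProbabilityMeasure μ] (b : ι → ι → ℝ≥0∞) (hb : BndI I T lam μ b)
    (x y : ι) (hxy : x ≠ y) (k : ℕ) :
    ∫⁻ ω, SU w T lam ω x y k ∂(Measure.infinitePi fun _ : ι => μ) ≤ Qw w Set.univ * b y x := by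
  unfold SU
  have := Qw_isFinite w hw1
  have h2 : Measurable (Function.uncurry fun (E : ℝ) (ω : ι → ℝ) =>
      ENNReal.ofReal (ep k * ‖GW T lam ω (zk E k) x y‖ ^ 2)) :=
    (((GW_meas hmU T hT lam k x y).norm.pow_const 2).const_mul _).ennreal_ofReal
  rw [← lintegral_lintegral_swap (μ := Qw w) (ν := Measure.infinitePi fun _ : ι => μ)
    (f := fun (E : ℝ) (ω : ι → ℝ) => ENNReal.ofReal
      (ep k * ‖GW T lam ω (zk E k) x y‖ ^ 2)) h2.aemeasurable]
  calc ∫⁻ E, ∫⁻ ω, ENNReal.ofReal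
          (ep k * ‖GW T lam ω (zk E k) x y‖ ^ 2) ∂(Measure.infinitePi fun _ : ι => μ) ∂(Qw w) ≤
        ∫⁻ _, b y x ∂(Qw w) := by
        refine lintegral_mono_ae ?_
        filter_upwards [Qw_ae w hwc] with E hE
        have h3 := hb x y hxy (zk E k) (by rw [zk_im]; exact ep_pos k) (by
          have h4 : (zk E k).re = E := by simp [Pool.Agent.TH369.MU.zk]
          rw [h4]
          exact hI E hE)
        rw [zk_im] at h3
        exact h3
    _ = _ := by
        rw [lintegral_const]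
        ring

theorem TW_int (hmU : S_mU) (w : ℝ → ℝ) (hwc : Continuous w) (hw1 : ∀ E, w E ≤ wt E) (I : Set ℝ)
    (hI : ∀ E, 0 < w E → E ∈ I) (T : LL ι →L[ℂ] LL ι) (hT : Rs T)
    (lam : ℝ) (μ : Measure ℝ) [IsProbabilityMeasure μ] (b : ι → ι → ℝ≥0∞) (hb : BndI I T lam μ b)
    (y : ι) (F : Finset ι) (hy : y ∈ F) (k : ℕ) :
    ∫⁻ ω, TU w T lam ω y F k ∂(Measure.infinitePi fun _ : ι => μ) ≤
      Qw w Set.univ * ∑' x : {x : ι // x ∉ F}, b y x := by
  simp only [TU_eq hmU w T hT lam _ y F k]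
  rw [lintegral_tsum fun x : {x : ι // x ∉ F} => (SU_meas hmU w hw1 T hT lam x y k).aemeasurable,
    ← ENNReal.tsum_mul_left]
  refine ENNReal.tsum_le_tsum fun x => SW_int hmU w hwc hw1 I hI T hT lam μ b hb x y ?_ k
  intro h
  exact x.2 (h ▸ hy)

/-- the final step in the environment -/
theorem ae_tightW (hmU : S_mU) (w : ℝ → ℝ) (hwc : Continuous w) (hw1 : ∀ E, w E ≤ wt E)
    (I : Set ℝ) (hI : ∀ E, 0 < w E → E ∈ I) (T : LL ι →L[ℂ] LL ι)
    (hT : Rs T) (lam : ℝ) (μ : Measure ℝ) [IsProbabilityMeasure μ] (b : ι → ι → ℝ≥0∞)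
    (hb : BndI I T lam μ b) (y : ι) (hfs : ∑' x, b y x ≠ ∞) :
    ∀ᵐ ω ∂(Measure.infinitePi fun _ : ι => μ), ∀ δ : ℝ≥0∞, 0 < δ → ∃ F : Finset ι,
      liminf (fun k => TR w (RU T fun x => lam * ω x) y F k) atTop ≤ δ := by
  classical
  obtain ⟨B, hB⟩ : ∃ B, B = Qw w Set.univ := ⟨_, rfl⟩
  have hBtop : B ≠ ∞ := by
    rw [hB]
    exact Qw_fin w hw1
  have h0 : Tendsto (fun F : Finset ι => B * ∑' x : {x : ι // x ∉ F}, b y x) atTop (𝓝 0) := by
    have h1 := ENNReal.tendsto_tsum_compl_atTop_zero hfs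
    have h2 := ENNReal.Tendsto.const_mul h1 (Or.inr hBtop)
    rw [mul_zero] at h2
    exact h2
  have h3 : ∀ n : ℕ, ∃ F : Finset ι,
      B * ∑' x : {x : ι // x ∉ F}, b y x ≤ ((n : ℝ≥0∞) + 1)⁻¹ ∧ y ∈ F := by
    intro n
    have hpos : (0 : ℝ≥0∞) < ((n : ℝ≥0∞) + 1)⁻¹ := by
      refine ENNReal.inv_pos.2 ?_
      exact ENNReal.add_ne_top.2 ⟨ENNReal.natCast_ne_top n, ENNReal.one_ne_top⟩
    obtain ⟨F, hF, hF2⟩ := ((h0.eventually (ge_mem_nhds hpos)).and
      (eventually_ge_atTop ({y} : Finset ι))).exists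
    exact ⟨F, hF, hF2 (Finset.mem_singleton_self y)⟩
  choose F hF hyF using h3
  have hm : ∀ n, Measurable fun ω : ι → ℝ => liminf (fun k => TU w T lam ω y (F n) k) atTop :=
    fun n => Measurable.liminf fun k => TU_meas hmU w hw1 T hT lam y (F n) k
  have h4 : ∀ n, ∫⁻ ω, liminf (fun k => TU w T lam ω y (F n) k) atTop
      ∂(Measure.infinitePi fun _ : ι => μ) ≤ ((n : ℝ≥0∞) + 1)⁻¹ := by
    intro n
    refine (lintegral_liminf_le (μ := Measure.infinitePi fun _ : ι => μ) (u := atTop)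
      (f := fun k ω => TU w T lam ω y (F n) k)
      fun k => TU_meas hmU w hw1 T hT lam y (F n) k).trans ?_
    refine liminf_le_of_frequently_le' (Filter.Eventually.frequently ?_)
    filter_upwards with k
    refine (TW_int hmU w hwc hw1 I hI T hT lam μ b hb y (F n) (hyF n) k).trans ?_
    rw [← hB]
    exact hF n
  have h5 : ∫⁻ ω, ⨅ n, liminf (fun k => TU w T lam ω y (F n) k) atTop
      ∂(Measure.infinitePi fun _ : ι => μ) = 0 := by
    refine le_antisymm ?_ bot_le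
    have h6 : Tendsto (fun n : ℕ => ((n : ℝ≥0∞) + 1)⁻¹) atTop (𝓝 0) := by
      have h7 := ENNReal.tendsto_inv_nat_nhds_zero
      have h8 := (tendsto_add_atTop_iff_nat 1).2 h7
      refine h8.congr fun n => ?_
      push_cast
      rfl
    refine ge_of_tendsto' h6 fun n => le_trans ?_ (h4 n)
    exact lintegral_mono fun ω => iInf_le _ n
  rw [lintegral_eq_zero_iff (Measurable.iInf hm)] at h5
  filter_upwards [h5] with ω hω δ hδ
  have h6 : ⨅ n, liminf (fun k => TU w T lam ω y (F n) k) atTop < δ := by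
    have : (⨅ n, liminf (fun k => TU w T lam ω y (F n) k) atTop) = 0 := hω
    rw [this]
    exact hδ
  obtain ⟨n, hn⟩ := iInf_lt_iff.1 h6
  exact ⟨F n, hn.le⟩

/-- **pure point spectrum** -/
theorem ppW (hruB : S_ruB) (hmU : S_mU) (hwien : S_wienR) (hclos : S_closR) (w : ℝ → ℝ)
    (hwc : Continuous w) (hw0 : ∀ E, 0 ≤ w E) (hw1 : ∀ E, w E ≤ wt E)
    (I : Set ℝ) (hI : ∀ E, 0 < w E → E ∈ I) (T : LL ι →L[ℂ] LL ι)
    (hT : Rs T) (lam : ℝ) (μ : Measure ℝ) [IsProbabilityMeasure μ] (b : ι → ι → ℝ≥0∞)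
    (hb : BndI I T lam μ b) (hfs : ∀ y, ∑' x, b y x ≠ ∞) :
    ∀ᵐ ω ∂(Measure.infinitePi fun _ : ι => μ),
      ∀ (φ : LL ι) (m : Measure ℝ), SpR (RU T fun x => lam * ω x) φ m →
        ∃ A : Set ℝ, A.Countable ∧ m ({E | 0 < w E} \ A) = 0 := by
  have hU : MeasurableSet {E | 0 < w E} := (isOpen_lt continuous_const hwc).measurableSet
  have h1 : ∀ᵐ ω ∂(Measure.infinitePi fun _ : ι => μ), ∀ y : ι, ∀ δ : ℝ≥0∞, 0 < δ →
      ∃ F : Finset ι, liminf (fun k => TR w (RU T fun x => lam * ω x) y F k) atTop ≤ δ := by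
    rw [ae_all_iff]
    intro y
    exact ae_tightW hmU w hwc hw1 I hI T hT lam μ b hb y (hfs y)
  filter_upwards [h1] with ω hω φ m hm
  have hR : Rf (RU T fun x => lam * ω x) := hruB ι T hT _
  refine closR hclos _ hR _ hU (fun y => ?_) φ m hm
  obtain ⟨m', hm', -⟩ := hR.sp (dv y)
  obtain ⟨A, hA1, hA2⟩ := hwien w hwc hw0 hw1 ι _ hR y (hω y) m' hm'
  exact ⟨m', A, hm', hA1, hA2⟩

/-- **exponential decay** -/
theorem decW (hmU : S_mU) (hWi : S_wiM) (hSi : S_simU) (w : ℝ → ℝ)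
    (hwc : Continuous w) (hw0 : ∀ E, 0 ≤ w E) (hw1 : ∀ E, w E ≤ wt E)
    (I : Set ℝ) (hI : ∀ E, 0 < w E → E ∈ I) (T : LL ι →L[ℂ] LL ι)
    (hT : Rs T) (lam : ℝ) (hlam : 0 < lam) (μ : Measure ℝ) [IsProbabilityMeasure μ]
    (hat : ∀ v : ℝ, μ {v} = 0) (b : ι → ι → ℝ≥0∞)
    (hb : BndI I T lam μ b) (γ : ℝ) (hγ : 0 ≤ γ) (r : ι → ℕ)
    (hfs : ∀ y, ∑' x, b y x * ENNReal.ofReal (Real.exp (γ * r x)) ≠ ∞) :
    ∀ᵐ ω ∂(Measure.infinitePi fun _ : ι => μ), ∀ (e : ℝ) (u : LL ι), 0 < w e →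
      (∀ p, T u p + ((lam * ω p : ℝ) : ℂ) * u p = (e : ℂ) * u p) →
        Summable fun x => Real.exp (γ * r x) * ‖u x‖ ^ 2 := by
  classical
  have h1 : ∀ᵐ ω ∂(Measure.infinitePi fun _ : ι => μ), ∀ y : ι,
      ∑' x : {x : ι // x ≠ y}, ENNReal.ofReal (Real.exp (γ * r x)) *
        liminf (fun k => SU w T lam ω x y k) atTop ≠ ∞ := by
    rw [ae_all_iff]
    intro y
    have hm : Measurable fun ω : ι → ℝ => ∑' x : {x : ι // x ≠ y},
        ENNReal.ofReal (Real.exp (γ * r x)) * liminf (fun k => SU w T lam ω x y k) atTop :=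
      Measurable.tsum fun x => (Measurable.liminf fun k =>
        SU_meas hmU w hw1 T hT lam x y k).const_mul _
    have h2 : ∫⁻ ω, ∑' x : {x : ι // x ≠ y}, ENNReal.ofReal (Real.exp (γ * r x)) *
        liminf (fun k => SU w T lam ω x y k) atTop ∂(Measure.infinitePi fun _ : ι => μ) ≠ ∞ := by
      rw [lintegral_tsum fun x : {x : ι // x ≠ y} => ((Measurable.liminf fun k =>
        SU_meas hmU w hw1 T hT lam x y k).const_mul _).aemeasurable]
      have h3 : ∀ x : {x : ι // x ≠ y}, ∫⁻ ω, ENNReal.ofReal (Real.exp (γ * r x)) *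
          liminf (fun k => SU w T lam ω x y k) atTop ∂(Measure.infinitePi fun _ : ι => μ) ≤
          Qw w Set.univ * (b y x * ENNReal.ofReal (Real.exp (γ * r x))) := by
        intro x
        rw [lintegral_const_mul' _ _ ENNReal.ofReal_ne_top]
        have h4 : ∫⁻ ω, liminf (fun k => SU w T lam ω x y k) atTop
            ∂(Measure.infinitePi fun _ : ι => μ) ≤ Qw w Set.univ * b y x := by
          refine (lintegral_liminf_le (μ := Measure.infinitePi fun _ : ι => μ) (u := atTop)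
            (f := fun k ω => SU w T lam ω x y k)
            fun k => SU_meas hmU w hw1 T hT lam x y k).trans ?_
          refine liminf_le_of_frequently_le' (Filter.Eventually.frequently ?_)
          filter_upwards with k
          exact SW_int hmU w hwc hw1 I hI T hT lam μ b hb x y x.2 k
        calc ENNReal.ofReal (Real.exp (γ * r x)) * ∫⁻ ω, liminf (fun k => SU w T lam ω x y k) atTop
            ∂(Measure.infinitePi fun _ : ι => μ) ≤
            ENNReal.ofReal (Real.exp (γ * r x)) * (Qw w Set.univ * b y x) := by gcongr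
          _ = _ := by ring
      refine ne_top_of_le_ne_top ?_ (ENNReal.tsum_le_tsum h3)
      rw [ENNReal.tsum_mul_left]
      refine ENNReal.mul_ne_top (Qw_fin w hw1) ?_
      refine ne_top_of_le_ne_top (hfs y) ?_
      exact ENNReal.tsum_comp_le_tsum_of_injective Subtype.val_injective
        (fun x => b y x * ENNReal.ofReal (Real.exp (γ * r x)))
    have h5 := ae_lt_top hm h2
    filter_upwards [h5] with ω hω
    exact hω.ne
  filter_upwards [h1, hSi ι T hT lam hlam μ hat] with ω hω1 hω2 e u hwe hu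
  by_cases hu0 : u = 0
  · rw [hu0]
    simp only [lp.coeFn_zero, Pi.zero_apply, norm_zero]
    simpa using summable_zero
  · obtain ⟨y, hy⟩ : ∃ y, u y ≠ 0 := by
      by_contra hcon
      push Not at hcon
      exact hu0 (ll_ext hcon)
    have hun : 0 < ‖u‖ := norm_pos_iff.2 hu0
    obtain ⟨u', hu'⟩ : ∃ u' : LL ι, u' = ((‖u‖⁻¹ : ℝ) : ℂ) • u := ⟨_, rfl⟩
    have hu'n : ‖u'‖ = 1 := by
      rw [hu', norm_smul]
      simp [hun.ne']
    have hu'x : ∀ x, u' x = ((‖u‖⁻¹ : ℝ) : ℂ) * u x := by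
      intro x
      rw [hu']
      rfl
    have hu'e : ∀ p, T u' p + ((lam * ω p : ℝ) : ℂ) * u' p = (e : ℂ) * u' p := by
      intro p
      have h2 : T u' p = ((‖u‖⁻¹ : ℝ) : ℂ) * T u p := by
        rw [hu', map_smul]
        rfl
      rw [h2, hu'x, mul_left_comm, mul_left_comm (e : ℂ), ← hu p]
      ring
    have hu'0 : u' ≠ 0 := by
      intro h
      rw [h, norm_zero] at hu'n
      exact zero_ne_one hu'n
    obtain ⟨κ, hκ⟩ : ∃ κ : ℝ, κ = Real.pi * w e * ‖u' y‖ ^ 2 := ⟨_, rfl⟩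
    have hu'y : u' y ≠ 0 := by
      rw [hu'x]
      refine mul_ne_zero ?_ hy
      simp [hun.ne']
    have hκ0 : 0 < κ := by
      rw [hκ]
      have := norm_pos_iff.2 hu'y
      have := Real.pi_pos
      have := hwe
      positivity
    have h4 : ∑' x : {x : ι // x ≠ y}, ENNReal.ofReal (κ * (Real.exp (γ * r x) * ‖u' x‖ ^ 2)) ≠ ∞ := by
      refine ne_top_of_le_ne_top (hω1 y) (ENNReal.tsum_le_tsum fun x => ?_)
      have h5 := hWi w hwc hw0 hw1 ι T hT
        (fun p => lam * ω p) x y 1 (fun _ => e) (fun _ => u') (fun _ => hu'e) (fun _ => hu'n)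
        (Function.injective_of_subsingleton _) (fun _ v hv => hω2 e u' v hu'e hv hu'0)
      have h6 : κ * (Real.exp (γ * r x) * ‖u' x‖ ^ 2) =
          Real.exp (γ * r x) * (Real.pi * w e * (‖u' x‖ ^ 2 * ‖u' y‖ ^ 2)) := by
        rw [hκ]
        ring
      rw [h6, ENNReal.ofReal_mul (Real.exp_pos _).le]
      refine mul_le_mul_right ?_ _
      simpa [SU, GW] using h5
    have h5 : Summable fun x : {x : ι // x ≠ y} => κ * (Real.exp (γ * r x) * ‖u' x‖ ^ 2) := by
      have h6 := ENNReal.summable_toReal h4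
      refine h6.congr fun x => ?_
      rw [ENNReal.toReal_ofReal (by positivity)]
    have h6 := h5.mul_left κ⁻¹
    have h7 : Summable fun x : {x : ι // x ≠ y} => Real.exp (γ * r x) * ‖u' x‖ ^ 2 := by
      refine h6.congr fun x => ?_
      rw [← mul_assoc, inv_mul_cancel₀ hκ0.ne', one_mul]
    have h8 : Summable fun x : {x : ι // x ≠ y} => Real.exp (γ * r x) * ‖u x‖ ^ 2 := by
      refine (h7.mul_left (‖u‖ ^ 2)).congr fun x => ?_
      rw [hu'x, norm_mul, Complex.norm_real, Real.norm_of_nonneg (inv_nonneg.2 hun.le)]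
      field_simp
    have h9 : Summable ((fun x => Real.exp (γ * r x) * ‖u x‖ ^ 2) ∘
        ((↑) : ({y} : Set ι).compl → ι)) := h8
    have h10 : Summable ((fun x => Real.exp (γ * r x) * ‖u x‖ ^ 2) ∘
        ((↑) : ({y} : Set ι) → ι)) := by
      have : Finite ({y} : Set ι) := Set.finite_singleton y
      exact Summable.of_finite
    exact (summable_subtype_and_compl (s := ({y} : Set ι))
      (f := fun x => Real.exp (γ * r x) * ‖u x‖ ^ 2)).1 ⟨h10, h9⟩

/-- **localization radii** -/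
theorem radW (hmU : S_mU) (hWi : S_wiM) (hSi : S_simU) (w : ℝ → ℝ)
    (hwc : Continuous w) (hw0 : ∀ E, 0 ≤ w E) (hw1 : ∀ E, w E ≤ wt E)
    (I J : Set ℝ) (hI : ∀ E, 0 < w E → E ∈ I) (κ : ℝ) (hκ0 : 0 < κ) (hJ : ∀ E ∈ J, w E = κ)
    (T : LL ι →L[ℂ] LL ι)
    (hT : Rs T) (lam : ℝ) (hlam : 0 < lam) (μ : Measure ℝ) [IsProbabilityMeasure μ]
    (hat : ∀ v : ℝ, μ {v} = 0) (b : ι → ι → ℝ≥0∞)
    (hb : BndI I T lam μ b) (a : ι) (M : ℝ) (hM : 0 < M)
    (hQ : Qw w Set.univ ≤ ENNReal.ofReal (κ * (4 * M))) (B : Set ι) (ha : a ∈ B) (η : ℝ) (hη : 0 < η)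
    (hB : ENNReal.ofReal (4 * M / Real.pi) * ∑' x : {x : ι // x ∉ B}, b a x ≤
      ENNReal.ofReal (η ^ 2)) :
    ∃ G : Set (ι → ℝ), MeasurableSet G ∧
      1 - η ≤ (Measure.infinitePi fun _ : ι => μ).real G ∧
      ∀ ω ∈ G, ∀ (n : ℕ) (u : Fin n → LL ι) (e : Fin n → ℝ), Orthonormal ℂ u →
        (∀ j p, T (u j) p + ((lam * ω p : ℝ) : ℂ) * u j p = ((e j : ℝ) : ℂ) * u j p) →
        (∀ j, e j ∈ J) → ∀ S : Finset ι, (∀ x ∈ S, x ∉ B) →
          ∑ j, ∑ x ∈ S, ‖u j a‖ ^ 2 * ‖u j x‖ ^ 2 ≤ η := by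
  classical
  have hπ := Real.pi_pos
  obtain ⟨Y, hY⟩ : ∃ Y : (ι → ℝ) → ℝ≥0∞, Y = fun ω => ∑' x : {x : ι // x ∉ B},
      liminf (fun k => SU w T lam ω x a k) atTop := ⟨_, rfl⟩
  have hYm : Measurable Y := by
    rw [hY]
    exact Measurable.tsum fun x => Measurable.liminf fun k =>
        SU_meas hmU w hw1 T hT lam x a k
  have hYi : ∫⁻ ω, Y ω ∂(Measure.infinitePi fun _ : ι => μ) ≤
      ENNReal.ofReal (Real.pi * κ * η ^ 2) := by
    have h1 : ∀ x : {x : ι // x ∉ B}, ∫⁻ ω, liminf (fun k => SU w T lam ω x a k) atTop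
        ∂(Measure.infinitePi fun _ : ι => μ) ≤ Qw w Set.univ * b a x := by
      intro x
      refine (lintegral_liminf_le (μ := Measure.infinitePi fun _ : ι => μ) (u := atTop)
        (f := fun k ω => SU w T lam ω x a k)
        fun k => SU_meas hmU w hw1 T hT lam x a k).trans ?_
      refine liminf_le_of_frequently_le' (Filter.Eventually.frequently ?_)
      filter_upwards with k
      refine SW_int hmU w hwc hw1 I hI T hT lam μ b hb x a ?_ k
      intro h
      exact x.2 (h ▸ ha)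
    calc ∫⁻ ω, Y ω ∂(Measure.infinitePi fun _ : ι => μ) =
        ∑' x : {x : ι // x ∉ B}, ∫⁻ ω, liminf (fun k => SU w T lam ω x a k) atTop
          ∂(Measure.infinitePi fun _ : ι => μ) := by
          rw [hY]
          exact lintegral_tsum fun x : {x : ι // x ∉ B} => (Measurable.liminf fun k =>
            SU_meas hmU w hw1 T hT lam x a k).aemeasurable
      _ ≤ ∑' x : {x : ι // x ∉ B}, Qw w Set.univ * b a x := ENNReal.tsum_le_tsum h1
      _ = Qw w Set.univ * ∑' x : {x : ι // x ∉ B}, b a x := ENNReal.tsum_mul_left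
      _ ≤ ENNReal.ofReal (κ * (4 * M)) * ∑' x : {x : ι // x ∉ B}, b a x := by
          exact mul_le_mul_left hQ _
      _ = ENNReal.ofReal (Real.pi * κ) * (ENNReal.ofReal (4 * M / Real.pi) *
            ∑' x : {x : ι // x ∉ B}, b a x) := by
          rw [← mul_assoc (ENNReal.ofReal (Real.pi * κ)), ← ENNReal.ofReal_mul (by positivity)]
          congr 2
          field_simp
      _ ≤ ENNReal.ofReal (Real.pi * κ) * ENNReal.ofReal (η ^ 2) := by gcongr
      _ = _ := by rw [← ENNReal.ofReal_mul (by positivity)]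
  obtain ⟨G0, hG0⟩ : ∃ G0 : Set (ι → ℝ), G0 = {ω | Y ω ≤ ENNReal.ofReal (Real.pi * κ * η)} :=
    ⟨_, rfl⟩
  have hG0m : MeasurableSet G0 := by
    rw [hG0]
    exact measurableSet_le hYm measurable_const
  have hmark : (Measure.infinitePi fun _ : ι => μ) G0ᶜ ≤ ENNReal.ofReal η := by
    have h1 : G0ᶜ ⊆ {ω | ENNReal.ofReal (Real.pi * κ * η) ≤ Y ω} := by
      intro ω hω
      rw [hG0] at hω
      simp only [Set.mem_compl_iff, Set.mem_setOf_eq, not_le] at hω
      exact hω.le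
    have h2 := meas_ge_le_lintegral_div (μ := Measure.infinitePi fun _ : ι => μ)
      hYm.aemeasurable (ε := ENNReal.ofReal (Real.pi * κ * η))
      (by simpa using (by positivity : 0 < Real.pi * κ * η)) ENNReal.ofReal_ne_top
    refine (measure_mono h1).trans (h2.trans ?_)
    rw [ENNReal.div_le_iff (by simpa using (by positivity : 0 < Real.pi * κ * η))
      ENNReal.ofReal_ne_top, ← ENNReal.ofReal_mul hη.le]
    refine hYi.trans (le_of_eq ?_)
    congr 1
    ring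
  have hsim := hSi ι T hT lam hlam μ hat
  obtain ⟨Z, hZs, hZm, hZ0⟩ := exists_measurable_superset_of_null hsim
  refine ⟨G0 \ Z, hG0m.diff hZm, ?_, ?_⟩
  · have h1 : (Measure.infinitePi fun _ : ι => μ) (G0 \ Z)ᶜ ≤ ENNReal.ofReal η := by
      have h2 : (G0 \ Z)ᶜ ⊆ G0ᶜ ∪ Z := by
        intro ω hω
        by_cases h : ω ∈ G0
        · right
          by_contra h3
          exact hω ⟨h, h3⟩
        · exact Or.inl h
      refine (measure_mono h2).trans ((measure_union_le _ _).trans ?_)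
      rw [hZ0, add_zero]
      exact hmark
    have h3 : (Measure.infinitePi fun _ : ι => μ).real (G0 \ Z)ᶜ ≤ η := by
      rw [Measure.real]
      exact ENNReal.toReal_le_of_le_ofReal hη.le h1
    have h4 := probReal_compl_eq_one_sub (μ := Measure.infinitePi fun _ : ι => μ)
      (hG0m.diff hZm)
    linarith
  · rintro ω ⟨hω1, hω2⟩ n u e hu hue heM S hS
    have hω3 : ∀ (e : ℝ) (u v : LL ι),
      (∀ p, T u p + ((lam * ω p : ℝ) : ℂ) * u p = (e : ℂ) * u p) →
      (∀ p, T v p + ((lam * ω p : ℝ) : ℂ) * v p = (e : ℂ) * v p) → u ≠ 0 → ∃ a : ℂ, v = a • u := by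
      by_contra h
      exact hω2 (hZs h)
    have hu1 : ∀ j, ‖u j‖ = 1 := hu.1
    have hu0 : ∀ j, u j ≠ 0 := by
      intro j h
      have := hu1 j
      rw [h, norm_zero] at this
      exact zero_ne_one this
    have hinj : Function.Injective e := by
      intro i j hij
      by_contra hne
      obtain ⟨c, hc⟩ := hω3 (e i) (u i) (u j) (hue i) (by rw [hij]; exact hue j) (hu0 i)
      have h1 : ⟪u i, u j⟫_ℂ = 0 := hu.2 hne
      rw [hc, inner_smul_right, inner_self_eq_norm_sq_to_K, hu1 i] at h1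
      simp only [Complex.coe_algebraMap, Complex.ofReal_one, one_pow, mul_one] at h1
      rw [h1, zero_smul] at hc
      exact hu0 j hc
    have h5 : ∀ x ∈ S, ∑ j, ENNReal.ofReal (Real.pi * κ * (‖u j x‖ ^ 2 * ‖u j a‖ ^ 2)) ≤
        liminf (fun k => SU w T lam ω x a k) atTop := by
      intro x _
      have h6 := hWi w hwc hw0 hw1 ι T hT
        (fun p => lam * ω p) x a n e u hue hu1 hinj (fun j v hv => hω3 (e j) (u j) v (hue j) hv (hu0 j))
      have h7 : ∀ j, w (e j) = κ := fun j => hJ (e j) (heM j)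
      simp only [h7] at h6
      exact h6
    have h6 : ∑ x ∈ S, ∑ j, ENNReal.ofReal (Real.pi * κ * (‖u j x‖ ^ 2 * ‖u j a‖ ^ 2)) ≤ Y ω := by
      refine (Finset.sum_le_sum h5).trans ?_
      rw [hY]
      have h7 := ENNReal.sum_le_tsum (f := fun x : {x : ι // x ∉ B} =>
        liminf (fun k => SU w T lam ω x a k) atTop) (S.subtype fun x => x ∉ B)
      refine le_trans (le_of_eq ?_) h7
      rw [Finset.sum_subtype_of_mem (fun x => liminf (fun k => SU w T lam ω x a k) atTop) hS]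
    have h7 : Y ω ≤ ENNReal.ofReal (Real.pi * κ * η) := by
      rw [hG0] at hω1
      exact hω1
    have h8 : ∑ x ∈ S, ∑ j, ENNReal.ofReal (Real.pi * κ * (‖u j x‖ ^ 2 * ‖u j a‖ ^ 2)) =
        ENNReal.ofReal (Real.pi * κ * ∑ j, ∑ x ∈ S, ‖u j a‖ ^ 2 * ‖u j x‖ ^ 2) := by
      rw [Finset.sum_comm, Finset.mul_sum, ENNReal.ofReal_sum_of_nonneg fun j _ => by positivity]
      refine Finset.sum_congr rfl fun j _ => ?_
      rw [Finset.mul_sum, ENNReal.ofReal_sum_of_nonneg fun x _ => by positivity]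
      refine Finset.sum_congr rfl fun x _ => ?_
      congr 1
      ring
    rw [h8] at h6
    have h9 := h6.trans h7
    rw [ENNReal.ofReal_le_ofReal_iff (by positivity)] at h9
    have h10 : 0 < Real.pi * κ := by positivity
    exact le_of_mul_le_mul_left h9 h10

end Pool.Agent.H121.SH
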