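import Pool.Agent.H121.SH.RecA
import Pool.Agent.H121.SH.LocW
import Pool.Agent.H121.SH.Gen
import Pool.Agent.H121.GA.Loc

/-! Project SH, part M: localization at the energies `|E| ≥ b lam`, on graphs of degree at most `K`. -/

set_option autoImplicit false
set_option linter.unusedSectionVars false

open scoped BigOperators InnerProductSpace Topology ENNReal
open Filter MeasureTheory

namespace Pool.Agent.H121.SH

open Pool.Agent.Y662.TR hiding wt
open Pool.Agent.TH369.MU (SpM ep zk spm_exists)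
open Pool.Agent.H987.Z
open Pool.Agent.H987.Y (Ker Op)
open Pool.Agent.H121.Z987 (wt)
open Pool.Agent.H121.ME (Qw)
open Pool.Agent.H121.GA

variable {ι : Type}

/-- the bound of the second moments -/
noncomputable def bT (D' lam s L M1 : ℝ) (μ : Measure ℝ) (A I : Set ℝ) (t : ι → ι → ℝ)
    (N : ι → Finset ι) (y x : ι) : ℝ≥0∞ :=
  ENNReal.ofReal (Real.pi * D' / lam) * ∑ w ∈ N y, 2 * FiA μ A I lam s L M1 t w x

variable [Countable ι]

theorem bT_bnd (hsch : S_sch) (hmeas : S_measR) (heta : S_eta) (D' lam s L M1 : ℝ) (hD : 0 < D')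
    (hlam : 0 < lam)
    (hs : 0 < s) (hs1 : s ≤ 1) (hM : 1 ≤ M1) (μ : Measure ℝ) [IsProbabilityMeasure μ]
    (hμ : Dn D' μ) (A I : Set ℝ) (hA : MeasurableSet A) (K : ℕ)
    (t : ι → ι → ℝ) (N : ι → Finset ι) (ht : Grf K t N) :
    BndI I (Op t) lam μ (bT D' lam s L M1 μ A I t N) := by
  intro x y hxy z hz hzI
  have h1 := heta D' lam s hD hlam hs hs1 μ hμ ι K t N ht Set.univ z y x hz (Set.mem_univ _) hxy
  have h2 : ∀ ω : ι → ℝ, GU (Op t) (fun p => lam * ω p) z x y =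
      GR t (fun p => lam * ω p) Set.univ z y x := by
    intro ω
    rw [← gr_univ, (hsch ι K t N ht (fun p => lam * ω p) Set.univ z hz).1 x y]
  simp only [h2]
  refine h1.trans ?_
  unfold bT
  refine mul_le_mul_right (Finset.sum_le_sum fun w _ => ?_) _
  exact fa_le_FiA hmeas μ A I hA lam s L M1 hM K t N ht _ z hz hzI w x

theorem bT_sum (hsch : S_sch) (hmeas : S_measR) (hresn : S_resnA) (hmain : S_mainA) (hbA : S_bA)
    (D D' lam h δ : ℝ) (hD : 0 < D) (hD' : 0 < D')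
    (hlam : 1 ≤ lam) (hh : 0 < h) (hh2 : h ≤ 1 / 2) (hδ : 0 < δ) (μ : Measure ℝ)
    [IsProbabilityMeasure μ] (A I : Set ℝ) (hA : MeasurableSet A) (hμ : Sn D (μ.restrict A))
    (hI : ∀ E ∈ I, ∀ v : ℝ, v ∉ A → δ ≤ |lam * v - E|)
    (K : ℕ) (t : ι → ι → ℝ) (N : ι → Finset ι) (ht : Grf K t N) (L M1 : ℝ)
    (hL : 1 ≤ L) (hM : 1 ≤ M1) (hLc : cC D lam h ≤ L * cM D lam h) (γ q : ℝ) (hγ : 0 ≤ γ)
    (hq : q < 1)
    (hw : Real.exp (2 * γ) * (K * (cM D lam h * (1 + L / M1) + 2 * M1 * δ ^ (-(1 - h))) +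
      2 * L * K ^ 2 * (k1 D lam h + k2 D lam h)) ≤ q)
    (r : ι → ℕ) (hr : ∀ x, ∀ w ∈ N x, r w ≤ r x + 1) (y : ι) :
    ∑' x, bT D' lam (1 - h) L M1 μ A I t N y x * ENNReal.ofReal (Real.exp (γ * r x)) ≤
      ENNReal.ofReal (Real.pi * D' / lam * (6 * L * Real.exp γ / (1 - q)) *
        Real.exp (γ * r y)) := by
  have hcM := cM_nonneg D lam h hD hlam hh
  have hk1 := k1_nonneg D lam h hD hh
  have hk2 := k2_nonneg D lam h hD hlam hh
  have hL0 : 0 ≤ L := by linarith
  have hM0 : 0 < M1 := by linarith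
  have hq1 : 0 < 1 - q := by linarith
  have hlam0 : 0 < lam := by linarith
  have hπ := Real.pi_pos
  have hE1 : 1 ≤ Real.exp γ := Real.one_le_exp hγ
  have hE2 : Real.exp (2 * γ) = Real.exp γ * Real.exp γ := by rw [← Real.exp_add]; ring_nf
  have hE3 : 1 ≤ Real.exp (2 * γ) := Real.one_le_exp (by positivity)
  obtain ⟨P, hP⟩ : ∃ P : ℝ, P = δ ^ (-(1 - h)) := ⟨_, rfl⟩
  have hP0 : 0 ≤ P := by rw [hP]; exact Real.rpow_nonneg hδ.le _
  obtain ⟨s0, hs0⟩ : ∃ s0 : ℝ, s0 = L * cM D lam h + M1 * P + L * k1 D lam h * (K * Real.exp γ) :=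
    ⟨_, rfl⟩
  have hs0n : 0 ≤ s0 := by rw [hs0]; positivity
  rw [← hP] at hw
  have hA1 : 0 ≤ K * cM D lam h := by positivity
  have hA2 : 0 ≤ K * cM D lam h * (L / M1) := by positivity
  have hA3 : 0 ≤ K * (M1 * P) := by positivity
  have hB : 0 ≤ L * K ^ 2 * k1 D lam h := by positivity
  have hC : 0 ≤ L * K ^ 2 * k2 D lam h := by positivity
  have hw' : Real.exp (2 * γ) * (K * cM D lam h) + Real.exp (2 * γ) * (K * cM D lam h * (L / M1)) +
      2 * (Real.exp (2 * γ) * (K * (M1 * P))) + 2 * (Real.exp (2 * γ) * (L * K ^ 2 * k1 D lam h)) +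
      2 * (Real.exp (2 * γ) * (L * K ^ 2 * k2 D lam h)) ≤ q := by
    refine le_trans (le_of_eq ?_) hw
    ring
  have hm : ∀ a : ℝ, 0 ≤ a → 0 ≤ Real.exp (2 * γ) * a := fun a ha =>
    mul_nonneg (Real.exp_pos _).le ha
  have hm2 : ∀ a : ℝ, 0 ≤ a → a ≤ Real.exp (2 * γ) * a := fun a ha => by nlinarith
  have hKs : K * s0 ≤ 3 * L := by
    have h1 : K * cM D lam h ≤ 1 := by
      have e1 := hm2 _ hA1
      have e2 := hm _ hA2
      have e3 := hm _ hA3
      have e4 := hm _ hB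
      have e5 := hm _ hC
      linarith
    have h3 : K * (M1 * P) ≤ 1 := by
      have e1 := hm _ hA1
      have e2 := hm _ hA2
      have e3 := hm2 _ hA3
      have e4 := hm _ hB
      have e5 := hm _ hC
      linarith
    have h2 : L * K ^ 2 * k1 D lam h * Real.exp γ ≤ 1 := by
      have h3 : L * K ^ 2 * k1 D lam h * Real.exp γ ≤
          Real.exp (2 * γ) * (L * K ^ 2 * k1 D lam h) := by
        rw [hE2]
        nlinarith [mul_nonneg (mul_nonneg hB (Real.exp_pos γ).le) (sub_nonneg.2 hE1)]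
      have e1 := hm _ hA1
      have e2 := hm _ hA2
      have e3 := hm _ hA3
      have e4 := hm _ hB
      have e5 := hm _ hC
      linarith
    calc K * s0 = L * (K * cM D lam h) + K * (M1 * P) + L * K ^ 2 * k1 D lam h * Real.exp γ := by
          rw [hs0]; ring
      _ ≤ L * 1 + 1 + 1 := by gcongr
      _ ≤ _ := by linarith
  have hsum := FiA_sum hsch hmeas hresn hmain hbA D lam h δ hD hlam hh hh2 hδ μ A I hA hμ hI K t N
    ht L M1 hL hM hLc γ q hγ hq (by rw [← hP]; exact hw) r hr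
  rw [← hP, ← hs0] at hsum
  have h2o : (2 : ℝ≥0∞) = ENNReal.ofReal 2 := by simp
  unfold bT
  simp only [mul_assoc]
  rw [ENNReal.tsum_mul_left]
  simp only [Finset.sum_mul]
  rw [Summable.tsum_finsetSum fun i _ => ENNReal.summable]
  have h1 : ∀ w ∈ N y, ∑' x, 2 * FiA μ A I lam (1 - h) L M1 t w x *
      ENNReal.ofReal (Real.exp (γ * r x)) ≤
      ENNReal.ofReal (2 * (s0 / (1 - q)) * (Real.exp γ * Real.exp (γ * r y))) := by
    intro w hw'
    simp only [mul_assoc]
    rw [ENNReal.tsum_mul_left]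
    refine (mul_le_mul_right (hsum w) _).trans ?_
    rw [← ENNReal.ofReal_mul (by positivity), h2o, ← ENNReal.ofReal_mul zero_le_two]
    apply ENNReal.ofReal_le_ofReal
    have h2 : Real.exp (γ * r w) ≤ Real.exp γ * Real.exp (γ * r y) := by
      rw [← Real.exp_add]
      apply Real.exp_le_exp.2
      have h3 : (r w : ℝ) ≤ r y + 1 := by exact_mod_cast hr y w hw'
      nlinarith
    gcongr
  calc ENNReal.ofReal (Real.pi * D' / lam) *
        ∑ w ∈ N y, ∑' x, 2 * FiA μ A I lam (1 - h) L M1 t w x *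
          ENNReal.ofReal (Real.exp (γ * r x))
      ≤ ENNReal.ofReal (Real.pi * D' / lam) *
        ∑ w ∈ N y, ENNReal.ofReal (2 * (s0 / (1 - q)) * (Real.exp γ * Real.exp (γ * r y))) := by
        refine mul_le_mul_right (Finset.sum_le_sum h1) _
    _ = ENNReal.ofReal (Real.pi * D' / lam) * (((N y).card : ℝ≥0∞) *
          ENNReal.ofReal (2 * (s0 / (1 - q)) * (Real.exp γ * Real.exp (γ * r y)))) := by
        rw [Finset.sum_const, nsmul_eq_mul]
    _ ≤ ENNReal.ofReal (Real.pi * D' / lam) * (ENNReal.ofReal K *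
          ENNReal.ofReal (2 * (s0 / (1 - q)) * (Real.exp γ * Real.exp (γ * r y)))) := by
        gcongr
        rw [ENNReal.ofReal_natCast]
        exact_mod_cast ht.cd y
    _ = ENNReal.ofReal (Real.pi * D' / lam * (K * (2 * (s0 / (1 - q)) *
          (Real.exp γ * Real.exp (γ * r y))))) := by
        rw [← ENNReal.ofReal_mul (by positivity), ← ENNReal.ofReal_mul (by positivity)]
    _ ≤ _ := by
        apply ENNReal.ofReal_le_ofReal
        have h2 : K * (2 * (s0 / (1 - q)) * (Real.exp γ * Real.exp (γ * r y))) ≤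
            6 * L * Real.exp γ / (1 - q) * Real.exp (γ * r y) := by
          calc K * (2 * (s0 / (1 - q)) * (Real.exp γ * Real.exp (γ * r y)))
              = (K * s0) * (2 * (Real.exp γ / (1 - q) * Real.exp (γ * r y))) := by ring
            _ ≤ (3 * L) * (2 * (Real.exp γ / (1 - q) * Real.exp (γ * r y))) := by gcongr
            _ = _ := by ring
        calc Real.pi * D' / lam * (K * (2 * (s0 / (1 - q)) * (Real.exp γ * Real.exp (γ * r y))))
            ≤ Real.pi * D' / lam * (6 * L * Real.exp γ / (1 - q) * Real.exp (γ * r y)) := by gcongr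
          _ = _ := by ring

/-- `∀ᵐ` pure point spectrum and exponential decay for `|E| > e0`, simple eigenvalues -/
def PpDI (T : LL ι →L[ℂ] LL ι) (lam : ℝ) (μ : Measure ℝ) (γ : ℝ) (r : ι → ℕ) (e0 : ℝ) : Prop :=
  ∀ᵐ ω ∂(Measure.infinitePi fun _ : ι => μ),
    (∀ (φ : LL ι) (m : Measure ℝ), SpR (RU T fun x => lam * ω x) φ m →
      ∃ A : Set ℝ, A.Countable ∧ m ({E | e0 < |E|} \ A) = 0) ∧
    (∀ (e : ℝ) (u : LL ι), e0 < |e| →
      (∀ p, T u p + ((lam * ω p : ℝ) : ℂ) * u p = (e : ℂ) * u p) →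
        Summable fun x => Real.exp (γ * r x) * ‖u x‖ ^ 2) ∧
    ∀ (e : ℝ) (u v : LL ι),
      (∀ p, T u p + ((lam * ω p : ℝ) : ℂ) * u p = (e : ℂ) * u p) →
      (∀ p, T v p + ((lam * ω p : ℝ) : ℂ) * v p = (e : ℂ) * v p) → u ≠ 0 → ∃ a : ℂ, v = a • u

/-- the localization radius at `a` is at most `R`, energies `e1 ≤ |E| ≤ E1`, with probability
`1 - η` -/
def RadBI (T : LL ι →L[ℂ] LL ι) (lam : ℝ) (μ : Measure ℝ) (r : ι → ℕ) (a : ι) (e1 E1 η : ℝ)
    (R : ℕ) : Prop :=
  ∃ G : Set (ι → ℝ), MeasurableSet G ∧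
      1 - η ≤ (Measure.infinitePi fun _ : ι => μ).real G ∧
      ∀ ω ∈ G, ∀ (n : ℕ) (u : Fin n → LL ι) (e : Fin n → ℝ), Orthonormal ℂ u →
        (∀ j p, T (u j) p + ((lam * ω p : ℝ) : ℂ) * u j p = ((e j : ℝ) : ℂ) * u j p) →
        (∀ j, e1 ≤ |e j| ∧ |e j| ≤ E1) → ∀ S : Finset ι, (∀ x ∈ S, R < r x) →
          ∑ j, ∑ x ∈ S, ‖u j a‖ ^ 2 * ‖u j x‖ ^ 2 ≤ η

/-- the weight for the radii -/
noncomputable def wR (e0 e1 M E : ℝ) : ℝ := min 1 (max 0 ((|E| - e0) / (e1 - e0))) * wM M E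

theorem wR_cont (e0 e1 M : ℝ) : Continuous (wR e0 e1 M) := by
  unfold wR
  exact (by fun_prop : Continuous fun E : ℝ => min 1 (max 0 ((|E| - e0) / (e1 - e0)))).mul
    (wM_cont M)

theorem wR_nonneg (e0 e1 M E : ℝ) : 0 ≤ wR e0 e1 M E := by
  unfold wR
  exact mul_nonneg (le_min zero_le_one (le_max_left _ _)) (wM_nonneg M E)

theorem wR_le (e0 e1 M E : ℝ) : wR e0 e1 M E ≤ wM M E := by
  unfold wR
  exact mul_le_of_le_one_left (wM_nonneg M E) (min_le_left _ _)

theorem wR_pos (e0 e1 M E : ℝ) (he : e0 < e1) (h : 0 < wR e0 e1 M E) : e0 < |E| := by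
  by_contra hcon
  push Not at hcon
  unfold wR at h
  rw [max_eq_left (div_nonpos_of_nonpos_of_nonneg (by linarith) (by linarith)),
    min_eq_right (by norm_num), zero_mul] at h
  exact lt_irrefl _ h

theorem wR_in (e0 e1 M : ℝ) (hM : 0 < M) (he : e0 < e1) (E : ℝ) (h1 : e1 ≤ |E|) (h2 : |E| ≤ M) :
    wR e0 e1 M E = 1 / (1 + 4 * M ^ 2) := by
  unfold wR
  have h3 : 1 ≤ (|E| - e0) / (e1 - e0) := by
    rw [le_div_iff₀ (by linarith)]
    linarith
  rw [max_eq_right (by linarith), min_eq_left h3, one_mul, wM_in M hM E h2]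

theorem Qw_wR (e0 e1 M : ℝ) (hM : 0 < M) :
    Qw (wR e0 e1 M) Set.univ ≤ ENNReal.ofReal (1 / (1 + 4 * M ^ 2) * (4 * M)) := by
  refine le_trans ?_ (Qw_wM M hM)
  unfold Pool.Agent.H121.ME.Qw
  rw [withDensity_apply _ MeasurableSet.univ, withDensity_apply _ MeasurableSet.univ]
  exact lintegral_mono fun E => ENNReal.ofReal_le_ofReal (wR_le e0 e1 M E)

/-- **localization above `b lam` with the constant of the tree for the density at `b`** -/
theorem genA (hsch : S_sch) (hmeas : S_measR) (hresn : S_resnA) (hmain : S_mainA) (hbA : S_bA)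
    (heta : S_eta) (hpar : S_parH)
    (hruB : S_ruB) (hmU : S_mU) (hwien : S_wienR) (hclos : S_closR) (hWi : S_wiM) (hSi : S_simU)
    (hker : ∀ (ι : Type) (K : ℕ) (t : ι → ι → ℝ) (N : ι → Finset ι), Grf K t N → Rs (Op t))
    (D D' ε δ b : ℝ) (hD : 0 < D) (hD' : 0 < D') (hε : 0 < ε) (hδ : 0 < δ) :
    ∃ (K0 : ℕ) (γ C : ℝ), 2 ≤ K0 ∧ 0 < γ ∧ 0 < C ∧
    ∀ K : ℕ, K0 ≤ K → ∀ lam : ℝ, (1 + ε) * (4 * D * K * Real.log K) ≤ lam →
    ∀ (ι : Type) [Countable ι] (t : ι → ι → ℝ) (N : ι → Finset ι), Grf K t N →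
    ∀ r : ι → ℕ, (∀ x, ∀ w ∈ N x, r w ≤ r x + 1) →
    ∀ (μ : Measure ℝ) [IsProbabilityMeasure μ], Dn D' μ →
      (∀ B : Set ℝ, MeasurableSet B → μ (B ∩ {v | b - 2 * δ ≤ |v|}) ≤ ENNReal.ofReal D * volume B) →
      PpDI (Op t) lam μ γ r ((b - δ) * lam) ∧
      ∀ (a : ι), r a = 0 → ∀ (M η : ℝ) (R : ℕ), 0 < M → 0 < η → C * M * Real.exp (-(γ * R)) ≤ η ^ 2 →
        RadBI (Op t) lam μ r a (b * lam) (M * lam) η R := by
  obtain ⟨K0, L, M1, γ, q, hK0, hL, hM1, hγ, hq, hpar⟩ := hpar D ε δ hD hε hδ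
  have hq1 : 0 < 1 - q := by linarith
  have hL0 : 0 < L := by linarith
  have hπ := Real.pi_pos
  refine ⟨K0, γ, 24 * D' * L * Real.exp γ / (1 - q), hK0, hγ, by positivity, ?_⟩
  intro K hK lam hlamK ι _ t N ht r hr μ _ hμ hμA
  obtain ⟨h, hh, hh2, hlam, hLc, hw⟩ := hpar K hK lam hlamK
  have hlam0 : 0 < lam := by linarith
  have hs : 0 < 1 - h := by linarith
  have hs1 : 1 - h ≤ 1 := by linarith
  have hat := Dn_atom D' μ hμ
  have hT := hker ι K t N ht
  obtain ⟨A, hAdef⟩ : ∃ A : Set ℝ, A = {v | b - 2 * δ ≤ |v|} := ⟨_, rfl⟩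
  obtain ⟨I, hIdef⟩ : ∃ I : Set ℝ, I = {E | (b - δ) * lam < |E|} := ⟨_, rfl⟩
  have hA : MeasurableSet A := by
    rw [hAdef]
    exact measurableSet_le measurable_const measurable_id.abs
  have hSn : Sn D (μ.restrict A) := by
    refine ⟨?_, fun B hB => ?_⟩
    · rw [Measure.restrict_apply MeasurableSet.univ]
      exact prob_le_one
    · rw [Measure.restrict_apply hB, hAdef]
      exact hμA B hB
  have hI : ∀ E ∈ I, ∀ v : ℝ, v ∉ A → δ * lam ≤ |lam * v - E| := by
    intro E hE v hv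
    rw [hIdef] at hE
    rw [hAdef] at hv
    simp only [Set.mem_setOf_eq, not_le] at hE hv
    have h1 : |E| - |lam * v| ≤ |lam * v - E| := by
      rw [abs_sub_comm]
      exact abs_sub_abs_le_abs_sub _ _
    have h2 : |lam * v| = lam * |v| := by rw [abs_mul, abs_of_pos hlam0]
    have h3 : lam * |v| ≤ lam * (b - 2 * δ) := by gcongr
    nlinarith
  have hδl : 0 < δ * lam := by positivity
  have hb := bT_bnd hsch hmeas heta D' lam (1 - h) L M1 hD' hlam0 hs hs1 hM1 μ hμ A I hA K t N ht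
  have hsum := bT_sum hsch hmeas hresn hmain hbA D D' lam h (δ * lam) hD hD' hlam hh hh2 hδl μ A I
    hA hSn hI K t N ht L M1 hL hM1 hLc γ q hγ.le hq hw r hr
  have hfs1 : ∀ y, ∑' x, bT D' lam (1 - h) L M1 μ A I t N y x *
      ENNReal.ofReal (Real.exp (γ * r x)) ≠ ∞ :=
    fun y => ne_top_of_le_ne_top ENNReal.ofReal_ne_top (hsum y)
  have hfs : ∀ y, ∑' x, bT D' lam (1 - h) L M1 μ A I t N y x ≠ ∞ := by
    intro y
    refine ne_top_of_le_ne_top (hfs1 y) (ENNReal.tsum_le_tsum fun x => ?_)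
    have h1 : (1 : ℝ≥0∞) ≤ ENNReal.ofReal (Real.exp (γ * r x)) := by
      rw [← ENNReal.ofReal_one]
      apply ENNReal.ofReal_le_ofReal
      exact Real.one_le_exp (by positivity)
    calc bT D' lam (1 - h) L M1 μ A I t N y x = bT D' lam (1 - h) L M1 μ A I t N y x * 1 :=
          (mul_one _).symm
      _ ≤ _ := by gcongr
  refine ⟨?_, ?_⟩
  · have hwI : ∀ E, 0 < wa ((b - δ) * lam) E → E ∈ I := by
      intro E hE
      rw [hIdef]
      exact (wa_pos _ E).1 hE
    have h1 := ppW hruB hmU hwien hclos (wa ((b - δ) * lam)) (wa_cont _) (wa_nonneg _) (wa_le _) I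
      hwI (Op t) hT lam μ _ hb hfs
    have h2 := decW hmU hWi hSi (wa ((b - δ) * lam)) (wa_cont _) (wa_nonneg _) (wa_le _) I
      hwI (Op t) hT lam hlam0 μ hat _ hb γ hγ.le r hfs1
    have h3 := hSi ι (Op t) hT lam hlam0 μ hat
    have hset : {E | 0 < wa ((b - δ) * lam) E} = {E | (b - δ) * lam < |E|} := by
      ext E
      exact wa_pos _ E
    rw [hset] at h1
    unfold PpDI
    filter_upwards [h1, h2, h3] with ω a1 a2 a3
    exact ⟨a1, fun e u he hu => a2 e u ((wa_pos _ e).2 he) hu, a3⟩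
  · intro a ha M η R hM hη hR
    have he : (b - δ) * lam < b * lam := by nlinarith
    have hMl : 0 < M * lam := by positivity
    have h1 := radW hmU hWi hSi (wR ((b - δ) * lam) (b * lam) (M * lam)) (wR_cont _ _ _)
      (wR_nonneg _ _ _) (fun E => (wR_le _ _ _ E).trans (wM_wt _ hMl E)) I
      {E | b * lam ≤ |E| ∧ |E| ≤ M * lam}
      (fun E hE => by rw [hIdef]; exact wR_pos _ _ _ E he hE) (1 / (1 + 4 * (M * lam) ^ 2))
      (by positivity) (fun E hE => wR_in _ _ _ hMl he E hE.1 hE.2) (Op t) hT lam hlam0 μ hat _ hb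
      a (M * lam) hMl (Qw_wR _ _ _ hMl) {x | r x ≤ R} (by simp [ha]) η hη ?_
    · obtain ⟨G, hG1, hG2, hG3⟩ := h1
      refine ⟨G, hG1, hG2, fun ω hω n u e hu hue heM S hS => ?_⟩
      refine hG3 ω hω n u e hu hue heM S fun x hx => ?_
      have := hS x hx
      simp only [Set.mem_setOf_eq, not_le]
      exact this
    · have h2 : ∑' x : {x : ι // x ∉ {x | r x ≤ R}}, bT D' lam (1 - h) L M1 μ A I t N a x ≤
          ENNReal.ofReal (Real.exp (-(γ * R))) *
            ∑' x, bT D' lam (1 - h) L M1 μ A I t N a x * ENNReal.ofReal (Real.exp (γ * r x)) := by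
        rw [← ENNReal.tsum_mul_left]
        refine le_trans ?_ (ENNReal.tsum_comp_le_tsum_of_injective
          (Subtype.val_injective (p := fun x : ι => x ∉ {x | r x ≤ R})) (fun x =>
            ENNReal.ofReal (Real.exp (-(γ * R))) *
            (bT D' lam (1 - h) L M1 μ A I t N a x * ENNReal.ofReal (Real.exp (γ * r x)))))
        refine ENNReal.tsum_le_tsum fun x => ?_
        have h3 : (1 : ℝ≥0∞) ≤ ENNReal.ofReal (Real.exp (-(γ * R))) *
            ENNReal.ofReal (Real.exp (γ * r x)) := by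
          rw [← ENNReal.ofReal_mul (Real.exp_pos _).le, ← Real.exp_add, ← ENNReal.ofReal_one]
          apply ENNReal.ofReal_le_ofReal
          apply Real.one_le_exp
          have h4 : R ≤ r x := by
            have h5 := x.2
            simp only [Set.mem_setOf_eq, not_le] at h5
            exact h5.le
          have h5 : (R : ℝ) ≤ r x := by exact_mod_cast h4
          nlinarith
        calc bT D' lam (1 - h) L M1 μ A I t N a x = bT D' lam (1 - h) L M1 μ A I t N a x * 1 :=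
              (mul_one _).symm
          _ ≤ bT D' lam (1 - h) L M1 μ A I t N a x * (ENNReal.ofReal (Real.exp (-(γ * R))) *
              ENNReal.ofReal (Real.exp (γ * r x))) := by gcongr
          _ = _ := by
              show _ = ENNReal.ofReal (Real.exp (-(γ * R))) *
                (bT D' lam (1 - h) L M1 μ A I t N a x * ENNReal.ofReal (Real.exp (γ * r x)))
              ring
      have h3 := hsum a
      rw [ha] at h3
      simp only [CharP.cast_eq_zero, mul_zero, Real.exp_zero, mul_one] at h3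
      calc ENNReal.ofReal (4 * (M * lam) / Real.pi) *
            ∑' x : {x : ι // x ∉ {x | r x ≤ R}}, bT D' lam (1 - h) L M1 μ A I t N a x
          ≤ ENNReal.ofReal (4 * (M * lam) / Real.pi) * (ENNReal.ofReal (Real.exp (-(γ * R))) *
            ENNReal.ofReal (Real.pi * D' / lam * (6 * L * Real.exp γ / (1 - q)))) := by
            gcongr
            exact h2.trans (by gcongr)
        _ = ENNReal.ofReal (24 * D' * L * Real.exp γ / (1 - q) * M * Real.exp (-(γ * R))) := by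
            rw [← ENNReal.ofReal_mul (by positivity), ← ENNReal.ofReal_mul (by positivity)]
            congr 1
            field_simp
            ring
        _ ≤ _ := ENNReal.ofReal_le_ofReal hR

end Pool.Agent.H121.SH
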