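import Pool.Agent.H121.SH.FinA

/-! Project SH, part M: the final statement, Gaussian law, uniformly in `b`, on the level of functions. -/

set_option autoImplicit false
set_option linter.unusedSectionVars false

open scoped BigOperators InnerProductSpace Topology ENNReal
open Filter MeasureTheory ProbabilityTheory

namespace Pool.Agent.H121.SH

open Pool.Agent.Y662.TR (LL dv lmk ll_ext ll_summable)
open Pool.Agent.H987.Z (Rs SqS IsSp)
open Pool.Agent.H987.Y (Op Lt Ker)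
open Pool.Agent.H121.GA (RU SpR SAd sad_of spr_of of_spr)
open Pool.Agent.H121.MY (adj)

theorem loci_mono {ι : Type} (T : LL ι →L[ℂ] LL ι) (V : ι → ℝ) (γ γ' : ℝ) (r : ι → ℕ)
    (J J' : Set ℝ) (hγ : γ' ≤ γ) (hJ : J' ⊆ J) (h : LocI T V γ r J) : LocI T V γ' r J' := by
  obtain ⟨h1, h2, h3, h4⟩ := h
  refine ⟨fun φ m hm => ?_, fun e u he hu => ?_, h3, fun x y hxy hs => h4 x y hxy (hs.trans hJ)⟩
  · obtain ⟨A, hA, hmA⟩ := h1 φ m hm
    exact ⟨A, hA, measure_mono_null (Set.diff_subset_diff_left hJ) hmA⟩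
  · refine Summable.of_nonneg_of_le (fun x => by positivity) (fun x => ?_) (h2 e u (hJ he) hu)
    have : Real.exp (γ' * r x) ≤ Real.exp (γ * r x) := by
      apply Real.exp_le_exp.2
      gcongr
    gcongr

theorem radi_mono {ι : Type} (T : LL ι →L[ℂ] LL ι) (V : ι → ℝ) (r : ι → ℕ) (a : ι)
    (e1 e1' E1 η : ℝ) (R : ℕ) (he : e1 ≤ e1') (h : RadI T V r a e1 E1 η R) :
    RadI T V r a e1' E1 η R := fun n u e hu hue heM S hS =>
  h n u e hu hue (fun j => ⟨he.trans (heM j).1, (heM j).2⟩) S hS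

/-- uniformly in `b ∈ [0, B]` -/
theorem curve (B ε : ℝ) (hB : 0 ≤ B) (hε : 0 < ε) (hε1 : ε ≤ 1) :
    ∃ (d0 : ℕ) (γ C : ℝ), 3 ≤ d0 ∧ 0 < γ ∧ 0 < C ∧
    ∀ b : ℝ, 0 ≤ b → b ≤ B → ∀ d : ℕ, d0 ≤ d → ∀ σ : ℝ,
      (1 + ε) * (8 * gaussianPDFReal 0 1 b) * (d * Real.log d) ≤ |σ| →
      (∀ᵐ ξ ∂(Measure.infinitePi fun _ : Lt d => gaussianReal 0 1),
        LocI (Op fun x y : Lt d => (1 : ℝ) * adj d x y) (fun x => σ * ξ x) γ (ra 0)
          {E | b * |σ| ≤ |E|}) ∧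
      ∀ (a : Lt d) (M η : ℝ) (R : ℕ), 0 < M → 0 < η → C * M * Real.exp (-(γ * R)) ≤ η ^ 2 →
        ∃ G : Set (Lt d → ℝ), MeasurableSet G ∧
          1 - η ≤ (Measure.infinitePi fun _ : Lt d => gaussianReal 0 1).real G ∧
          ∀ ξ ∈ G, RadI (Op fun x y : Lt d => (1 : ℝ) * adj d x y) (fun x => σ * ξ x) (ra a) a
            (b * |σ|) (M * |σ|) η R := by
  have hl : 0 < Real.log (1 + ε / 8) := Real.log_pos (by linarith)
  obtain ⟨s, hs⟩ : ∃ s : ℝ, s = Real.log (1 + ε / 8) / (B + 1) := ⟨_, rfl⟩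
  have hs0 : 0 < s := by rw [hs]; positivity
  have hsB : s * (2 * B) ≤ 2 * Real.log (1 + ε / 8) := by
    rw [hs]
    have h1 : Real.log (1 + ε / 8) / (B + 1) * (2 * B) =
        2 * Real.log (1 + ε / 8) * (B / (B + 1)) := by
      field_simp
    rw [h1]
    have h2 : B / (B + 1) ≤ 1 := by rw [div_le_one (by linarith)]; linarith
    have h3 : 0 ≤ B / (B + 1) := by positivity
    nlinarith
  have hgrid : ∀ i : ℕ, ∃ (d0 : ℕ) (γ C : ℝ), 3 ≤ d0 ∧ 0 < γ ∧ 0 < C ∧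
    ∀ d : ℕ, d0 ≤ d → ∀ σ : ℝ,
      (1 + ε / 2) * (8 * gaussianPDFReal 0 1 (i * s)) * (d * Real.log d) ≤ |σ| →
      (∀ᵐ ξ ∂(Measure.infinitePi fun _ : Lt d => gaussianReal 0 1),
        LocI (Op fun x y : Lt d => (1 : ℝ) * adj d x y) (fun x => σ * ξ x) γ (ra 0)
          {E | (i * s) * |σ| ≤ |E|}) ∧
      ∀ (a : Lt d) (M η : ℝ) (R : ℕ), 0 < M → 0 < η → C * M * Real.exp (-(γ * R)) ≤ η ^ 2 →
        ∃ G : Set (Lt d → ℝ), MeasurableSet G ∧
          1 - η ≤ (Measure.infinitePi fun _ : Lt d => gaussianReal 0 1).real G ∧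
          ∀ ξ ∈ G, RadI (Op fun x y : Lt d => (1 : ℝ) * adj d x y) (fun x => σ * ξ x) (ra a) a
            ((i * s) * |σ|) (M * |σ|) η R := fun i =>
    curve_b (i * s) (ε / 2) (by positivity) (by positivity) (by linarith)
  choose d0 γ C h3 hγ hC hmain using hgrid
  obtain ⟨n, hn⟩ : ∃ n : ℕ, n = ⌊B / s⌋₊ + 1 := ⟨_, rfl⟩
  have hne : (Finset.range n).Nonempty := by
    rw [hn]
    exact ⟨0, by simp⟩
  refine ⟨(Finset.range n).sup d0, (Finset.range n).inf' hne γ, (Finset.range n).sup' hne C, ?_, ?_,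
    ?_, ?_⟩
  · obtain ⟨i, hi⟩ := hne
    exact (h3 i).trans (Finset.le_sup (f := d0) hi)
  · rw [Finset.lt_inf'_iff]
    exact fun i _ => hγ i
  · obtain ⟨i, hi⟩ := hne
    exact (hC i).trans_le (Finset.le_sup' C hi)
  · intro b hb hbB d hd σ hσ
    obtain ⟨i, hi⟩ : ∃ i : ℕ, i = ⌊b / s⌋₊ := ⟨_, rfl⟩
    have hi1 : (i : ℝ) * s ≤ b := by
      have h1 : (i : ℝ) ≤ b / s := by
        rw [hi]
        exact Nat.floor_le (by positivity)
      rwa [le_div_iff₀ hs0] at h1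
    have hi2 : b - s ≤ (i : ℝ) * s := by
      have h1 : b / s < (i : ℝ) + 1 := by
        rw [hi]
        exact Nat.lt_floor_add_one _
      rw [div_lt_iff₀ hs0] at h1
      linarith
    have hin : i ∈ Finset.range n := by
      rw [Finset.mem_range, hn, hi]
      exact Nat.lt_succ_of_le (Nat.floor_le_floor (by gcongr))
    have hdi : d0 i ≤ d := (Finset.le_sup (f := d0) hin).trans hd
    have hγi : (Finset.range n).inf' hne γ ≤ γ i := Finset.inf'_le γ hin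
    have hCi : C i ≤ (Finset.range n).sup' hne C := Finset.le_sup' C hin
    have hpdf : gaussianPDFReal 0 1 (i * s) ≤ (1 + ε / 8) * gaussianPDFReal 0 1 b := by
      refine pdf_near b (ε / 8) s _ hb (by positivity) hs0.le ?_ ?_
      · refine le_trans ?_ hsB
        gcongr
      · rw [abs_of_nonneg (by positivity : (0 : ℝ) ≤ i * s)]
        exact hi2
    have hd3 : (3 : ℝ) ≤ d := by exact_mod_cast (h3 i).trans hdi
    have hlog : 0 < Real.log d := Real.log_pos (by linarith)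
    have hφ := pdf_pos b
    have hthr : (1 + ε / 2) * (8 * gaussianPDFReal 0 1 (i * s)) * (d * Real.log d) ≤ |σ| := by
      refine le_trans ?_ hσ
      calc (1 + ε / 2) * (8 * gaussianPDFReal 0 1 (i * s)) * (d * Real.log d) ≤
          (1 + ε / 2) * (8 * ((1 + ε / 8) * gaussianPDFReal 0 1 b)) * (d * Real.log d) := by gcongr
        _ = ((1 + ε / 2) * (1 + ε / 8)) * (8 * gaussianPDFReal 0 1 b * (d * Real.log d)) := by ring
        _ ≤ (1 + ε) * (8 * gaussianPDFReal 0 1 b * (d * Real.log d)) := by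
            have h1 : (1 + ε / 2) * (1 + ε / 8) ≤ 1 + ε := by nlinarith
            gcongr
        _ = _ := by ring
    obtain ⟨g1, g2⟩ := hmain i d hdi σ hthr
    have hmul : (i : ℝ) * s * |σ| ≤ b * |σ| := by gcongr
    constructor
    · filter_upwards [g1] with ξ hξ
      exact loci_mono _ _ _ _ _ _ _ hγi (fun E hE => hmul.trans hE) hξ
    · intro a M η R hM hη hR
      obtain ⟨G, hG1, hG2, hG3⟩ := g2 a M η R hM hη (by
        refine le_trans ?_ hR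
        have h1 : Real.exp (-(γ i * R)) ≤ Real.exp (-((Finset.range n).inf' hne γ * R)) := by
          apply Real.exp_le_exp.2
          have : (Finset.range n).inf' hne γ * R ≤ γ i * R := by gcongr
          linarith
        have h2 := hC i
        have h4 : 0 ≤ (Finset.range n).sup' hne C := h2.le.trans hCi
        have h5 : 0 ≤ (Finset.range n).sup' hne C * M := by positivity
        gcongr)
      exact ⟨G, hG1, hG2, fun ξ hξ => radi_mono _ _ _ _ _ _ _ _ _ hmul (hG3 ξ hξ)⟩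

section fn

variable {X : Type}

/-- localization at the energies `J` on the level of functions -/
def LocIF (A : (X → ℂ) → X → ℂ) (γ : ℝ) (r : X → ℕ) (J : Set ℝ) : Prop :=
  (∀ (f : X → ℂ) (m : Measure ℝ), SqS f → IsSp A f m → ∃ N : Set ℝ, N.Countable ∧ m (J \ N) = 0) ∧
    (∀ (e : ℝ) (u : X → ℂ), e ∈ J → SqS u → (∀ p, A u p = (e : ℂ) * u p) →
        Summable fun x => Real.exp (γ * r x) * ‖u x‖ ^ 2) ∧
    (∀ (e : ℝ) (u v : X → ℂ), SqS u → SqS v → (∀ p, A u p = (e : ℂ) * u p) →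
      (∀ p, A v p = (e : ℂ) * v p) → (∃ x, u x ≠ 0) → ∃ a : ℂ, ∀ x, v x = a * u x) ∧
    ∀ x y : ℝ, x < y → Set.Ioo x y ⊆ J → ∃ (t : ℝ) (u : X → ℂ), t ∈ Set.Ioo x y ∧ SqS u ∧
      (∃ p, u p ≠ 0) ∧ ∀ p, A u p = (t : ℂ) * u p

theorem loci_conv (A : (X → ℂ) → X → ℂ) (T : LL X →L[ℂ] LL X) (hT : Rs T) (V : X → ℝ)
    (hA : ∀ (u : LL X) (x : X), A (fun y => u y) x = T u x + ((V x : ℝ) : ℂ) * u x) (γ : ℝ)
    (r : X → ℕ) (J : Set ℝ) (h : LocI T V γ r J) : LocIF A γ r J := by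
  have hru := Pool.Agent.H155.GA.ruA
  obtain ⟨h1, h2, h3, h4⟩ := h
  have key : ∀ (u : X → ℂ) (hu : SqS u) (e : ℝ), (∀ p, A u p = (e : ℂ) * u p) →
      ∀ p, T (lmk u hu) p + ((V p : ℝ) : ℂ) * lmk u hu p = (e : ℂ) * lmk u hu p := by
    intro u hu e he p
    rw [← hA]
    exact he p
  refine ⟨fun f m hf hm => ?_, fun e u heJ hu he => ?_, fun e u v hu hv hue hve hx => ?_,
    fun x y hxy hs => ?_⟩
  · exact h1 _ m (spr_of hru A T hT V hA f hf m hm)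
  · exact h2 e (lmk u hu) heJ (key u hu e he)
  · obtain ⟨x, hx⟩ := hx
    obtain ⟨a, ha⟩ := h3 e (lmk u hu) (lmk v hv) (key u hu e hue) (key v hv e hve) (by
      intro h0
      apply hx
      have := congrArg (fun w : LL X => w x) h0
      exact this)
    refine ⟨a, fun x => ?_⟩
    have := congrArg (fun w : LL X => w x) ha
    exact this
  · obtain ⟨t, u, ht, hu0, hu⟩ := h4 x y hxy hs
    refine ⟨t, fun q => u q, ht, ll_summable u, ?_, fun q => ?_⟩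
    · by_contra hcon
      push Not at hcon
      exact hu0 (ll_ext hcon)
    · rw [hA, hu]

end fn

/-- **the mobility curve from above** -/
theorem fin_curve (B ε : ℝ) (hB : 0 ≤ B) (hε : 0 < ε) :
    ∃ (d₀ : ℕ) (γ : ℝ), 0 < γ ∧
      (∀ (d : ℕ) (σ : ℝ) (ξ : (Fin d → ℤ) → ℝ), SAd (opG σ ξ) ∧
        ∀ f : (Fin d → ℤ) → ℂ, SqS f → ∃ m : Measure ℝ, IsSp (opG σ ξ) f m) ∧
      (∀ b : ℝ, 0 ≤ b → b ≤ B → ∀ d : ℕ, d₀ ≤ d → ∀ σ : ℝ,
        (1 + ε) * (8 * gaussianPDFReal 0 1 b) * (d * Real.log d) ≤ |σ| →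
        ∀ᵐ ξ ∂(Measure.infinitePi fun _ : Fin d → ℤ => gaussianReal 0 1),
          LocIF (opG σ ξ) γ (ra 0) {E | b * |σ| ≤ |E|}) ∧
      ∀ M η : ℝ, 0 < M → 0 < η → ∃ R : ℕ, ∀ b : ℝ, 0 ≤ b → b ≤ B → ∀ d : ℕ, d₀ ≤ d → ∀ σ : ℝ,
        (1 + ε) * (8 * gaussianPDFReal 0 1 b) * (d * Real.log d) ≤ |σ| →
        ∀ a : Fin d → ℤ, ∃ G : Set ((Fin d → ℤ) → ℝ), MeasurableSet G ∧
          1 - η ≤ (Measure.infinitePi fun _ : Fin d → ℤ => gaussianReal 0 1).real G ∧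
          ∀ ξ ∈ G, ∀ (n : ℕ) (u : Fin n → lp (fun _ : Fin d → ℤ => ℂ) 2) (E : Fin n → ℝ),
            Orthonormal ℂ u → (∀ j x, opG σ ξ (u j) x = E j * u j x) →
            (∀ j, b * |σ| ≤ |E j| ∧ |E j| ≤ M * |σ|) →
            ∀ B : Finset (Fin d → ℤ), (∀ y ∈ B, (R : ℤ) < ∑ i, |y i|) →
            ∑ j, ∑ y ∈ B, ‖u j a‖ ^ 2 * ‖u j (a + y)‖ ^ 2 ≤ η := by
  have hru := Pool.Agent.H155.GA.ruA
  have hrf := Pool.Agent.H870.GA.ruB hru
  have hε' : 0 < min ε 1 := lt_min hε one_pos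
  obtain ⟨d0, γ, C, hd0, hγ, hC, hmain⟩ := curve B (min ε 1) hB hε' (min_le_right _ _)
  have hthr : ∀ (b : ℝ) (d : ℕ) (σ : ℝ), d0 ≤ d →
      (1 + ε) * (8 * gaussianPDFReal 0 1 b) * (d * Real.log d) ≤ |σ| →
      (1 + min ε 1) * (8 * gaussianPDFReal 0 1 b) * (d * Real.log d) ≤ |σ| := by
    intro b d σ hd h
    refine le_trans ?_ h
    have hd3 : (3 : ℝ) ≤ d := by exact_mod_cast hd0.trans hd
    have hlog : 0 < Real.log d := Real.log_pos (by linarith)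
    have hφ := pdf_pos b
    gcongr
    exact min_le_left _ _
  refine ⟨d0, γ, hγ, fun d σ ξ => ⟨?_, fun f hf => ?_⟩, ?_, ?_⟩
  · exact sad_of hru _ _ (ker_rs _ _ _ _ (grf (d := d) 1 (by norm_num))) (fun y => σ * ξ y)
      (fun u x => opG_act σ ξ u x)
  · obtain ⟨m', hm', -⟩ := (hrf _ _ (ker_rs _ _ _ _ (grf (d := d) 1 (by norm_num)))
      fun y => σ * ξ y).sp (lmk f hf)
    exact ⟨m', of_spr hru _ _ (ker_rs _ _ _ _ (grf (d := d) 1 (by norm_num))) (fun y => σ * ξ y)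
      (fun u x => opG_act σ ξ u x) f hf m' hm'⟩
  · intro b hb hbB d hd σ hσ
    filter_upwards [(hmain b hb hbB d hd σ (hthr b d σ hd hσ)).1] with ξ hξ
    exact loci_conv (opG σ ξ) _ (ker_rs _ _ _ _ (grf (d := d) 1 (by norm_num))) _
      (fun u x => opG_act σ ξ u x) γ _ _ hξ
  · intro M η hM hη
    obtain ⟨R, hR⟩ := exR C γ M η hγ hη
    refine ⟨R, fun b hb hbB d hd σ hσ a => ?_⟩
    obtain ⟨G, hG1, hG2, hG3⟩ := (hmain b hb hbB d hd σ (hthr b d σ hd hσ)).2 a M η R hM hη hR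
    refine ⟨G, hG1, hG2, fun ω hω n u E hu hE hEM B hB => ?_⟩
    classical
    have hrad := hG3 ω hω n u E hu (fun j p => by rw [← opG_act]; exact hE j p) hEM
      (B.map (addLeftEmbedding a)) (fun x hx => ?_)
    · rw [show ∑ j, ∑ y ∈ B, ‖u j a‖ ^ 2 * ‖u j (a + y)‖ ^ 2 =
        ∑ j, ∑ x ∈ B.map (addLeftEmbedding a), ‖u j a‖ ^ 2 * ‖u j x‖ ^ 2 from
          Finset.sum_congr rfl fun j _ => by rw [Finset.sum_map]; rfl]
      exact hrad
    · rw [Finset.mem_map] at hx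
      obtain ⟨y, hy, rfl⟩ := hx
      have h5 := hB y hy
      rw [← ra_add a y] at h5
      exact_mod_cast h5

end Pool.Agent.H121.SH
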