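import Pool.Agent.H121.SH.Lat
import Pool.Agent.H121.GA.Main

/-! Project SH: final statements. -/

set_option autoImplicit false
set_option linter.unusedSectionVars false

open scoped BigOperators InnerProductSpace Topology ENNReal
open Filter MeasureTheory

namespace Pool.Agent.H121.SH

open Pool.Agent.Y662.TR (LL dv lmk ll_ext ll_summable Mw Mw_apply Mw_norm clp)
open Pool.Agent.H987.Z (Rs SqS IsSp)
open Pool.Agent.H987.Y (Op Lt Ker)
open Pool.Agent.H121.GA (RU SpR SAd sad_of spr_of of_spr)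
open Pool.Agent.H121.MY (adj adj_nn adj_sy adj_act adj_hasSum)

section conv

variable {X : Type}

/-- localization on the level of functions -/
def LocF (A : (X → ℂ) → X → ℂ) (γ : ℝ) (r : X → ℕ) : Prop :=
  (∀ (f : X → ℂ) (m : Measure ℝ), SqS f → IsSp A f m → ∃ N : Set ℝ, N.Countable ∧ m Nᶜ = 0) ∧
    (∀ (e : ℝ) (u : X → ℂ), SqS u → (∀ p, A u p = (e : ℂ) * u p) →
        Summable fun x => Real.exp (γ * r x) * ‖u x‖ ^ 2) ∧
    ∀ (e : ℝ) (u v : X → ℂ), SqS u → SqS v → (∀ p, A u p = (e : ℂ) * u p) →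
      (∀ p, A v p = (e : ℂ) * v p) → (∃ x, u x ≠ 0) → ∃ a : ℂ, ∀ x, v x = a * u x

theorem loc_conv (A : (X → ℂ) → X → ℂ) (T : LL X →L[ℂ] LL X) (hT : Rs T) (V : X → ℝ)
    (hA : ∀ (u : LL X) (x : X), A (fun y => u y) x = T u x + ((V x : ℝ) : ℂ) * u x) (γ : ℝ)
    (r : X → ℕ) (h : Loc T V γ r) : LocF A γ r := by
  have hru := Pool.Agent.H155.GA.ruA
  obtain ⟨h1, h2, h3⟩ := h
  have key : ∀ (u : X → ℂ) (hu : SqS u) (e : ℝ), (∀ p, A u p = (e : ℂ) * u p) →
      ∀ p, T (lmk u hu) p + ((V p : ℝ) : ℂ) * lmk u hu p = (e : ℂ) * lmk u hu p := by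
    intro u hu e he p
    rw [← hA]
    exact he p
  refine ⟨fun f m hf hm => ?_, fun e u hu he => ?_, fun e u v hu hv hue hve hx => ?_⟩
  · exact h1 _ m (spr_of hru A T hT V hA f hf m hm)
  · exact h2 e (lmk u hu) (key u hu e he)
  · obtain ⟨x, hx⟩ := hx
    obtain ⟨a, ha⟩ := h3 e (lmk u hu) (lmk v hv) (key u hu e hue) (key v hv e hve) (by
      intro h0
      apply hx
      have := congrArg (fun w : LL X => w x) h0
      exact this)
    refine ⟨a, fun x => ?_⟩
    have := congrArg (fun w : LL X => w x) ha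
    exact this

theorem eig_bd (T : LL X →L[ℂ] LL X) (V : X → ℝ) (h0 b e : ℝ) (hT : ‖T‖ ≤ h0) (hb : 0 ≤ b)
    (hV : ∀ x, |V x| ≤ b) (u : LL X) (hu : ‖u‖ = 1)
    (he : ∀ p, T u p + ((V p : ℝ) : ℂ) * u p = (e : ℂ) * u p) : |e| ≤ h0 + b := by
  have h1 : Mw b V u = (e : ℂ) • u - T u := by
    refine ll_ext fun x => ?_
    rw [Mw_apply, Pool.Agent.Y662.TR.clp_eq ((hV x).trans (le_abs_self b))]
    show _ = (e : ℂ) * u x - T u x
    rw [← he x]
    ring
  have h2 : ‖(e : ℂ) • u‖ ≤ ‖T u‖ + ‖Mw b V u‖ := by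
    have h3 : (e : ℂ) • u = T u + Mw b V u := by rw [h1]; abel
    rw [h3]
    exact norm_add_le _ _
  rw [norm_smul, hu, mul_one, Complex.norm_real, Real.norm_eq_abs] at h2
  have h3 : ‖T u‖ ≤ h0 := by
    calc ‖T u‖ ≤ ‖T‖ * ‖u‖ := T.le_opNorm u
      _ ≤ h0 := by rw [hu, mul_one]; exact hT
  have h4 : ‖Mw b V u‖ ≤ b := by
    calc ‖Mw b V u‖ ≤ ‖Mw b V‖ * ‖u‖ := (Mw b V).le_opNorm u
      _ ≤ b := by
        rw [hu, mul_one]
        exact (Mw_norm b V).trans (le_of_eq (abs_of_nonneg hb))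
  linarith

end conv

/-! ### the uniform law -/

/-- the uniform law on `[-c, c]` -/
noncomputable def unif (c : ℝ) : Measure ℝ :=
  (ENNReal.ofReal (2 * c))⁻¹ • volume.restrict (Set.Icc (-c) c)

theorem unif_prob (c : ℝ) (hc : 0 < c) : IsProbabilityMeasure (unif c) := by
  refine ⟨?_⟩
  unfold unif
  rw [Measure.smul_apply, Measure.restrict_apply MeasurableSet.univ, Set.univ_inter,
    Real.volume_Icc, smul_eq_mul]
  have h1 : c - -c = 2 * c := by ring
  rw [h1]
  exact ENNReal.inv_mul_cancel (by simpa using hc) ENNReal.ofReal_ne_top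

theorem unif_ae (c : ℝ) : ∀ᵐ v ∂(unif c), |v| ≤ c := by
  have h1 : ∀ᵐ v ∂(volume.restrict (Set.Icc (-c) c)), |v| ≤ c := by
    filter_upwards [ae_restrict_mem (measurableSet_Icc (a := -c) (b := c))] with v hv
    exact abs_le.2 hv
  exact Measure.ae_smul_measure h1 _

theorem unif_dn (c b : ℝ) (hc : 0 < c) : Dn (1 / 2) ((unif c).map fun v => (v + b) / c) := by
  intro A hA
  have hf : Measurable fun v : ℝ => (v + b) / c := by fun_prop
  rw [Measure.map_apply hf hA]
  unfold unif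
  rw [Measure.smul_apply, smul_eq_mul, Measure.restrict_apply (hf hA)]
  have h1 : volume ((fun v : ℝ => (v + b) / c) ⁻¹' A) = ENNReal.ofReal c * volume A := by
    have h2 : (fun v : ℝ => (v + b) / c) ⁻¹' A = (fun v => v + b) ⁻¹' ((fun v => c⁻¹ * v) ⁻¹' A) := by
      ext v
      simp only [Set.mem_preimage]
      rw [div_eq_mul_inv, mul_comm]
    rw [h2, measure_preimage_add_right, Real.volume_preimage_mul_left (inv_ne_zero hc.ne'),
      inv_inv, abs_of_pos hc]
  calc (ENNReal.ofReal (2 * c))⁻¹ * volume ((fun v : ℝ => (v + b) / c) ⁻¹' A ∩ Set.Icc (-c) c)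
      ≤ (ENNReal.ofReal (2 * c))⁻¹ * (ENNReal.ofReal c * volume A) := by
        gcongr
        rw [← h1]
        exact measure_mono Set.inter_subset_left
    _ = _ := by
        rw [← mul_assoc]
        congr 1
        rw [← ENNReal.ofReal_inv_of_pos (by positivity), ← ENNReal.ofReal_mul (by positivity)]
        congr 1
        field_simp

/-- `(Δ_ω u)(x) = -∑_{|n| = 1} (u(x + n) - u(x)) + ω_x u(x)` -/
noncomputable def opH {d : ℕ} (ω : (Fin d → ℤ) → ℝ) (u : (Fin d → ℤ) → ℂ) (x : Fin d → ℤ) : ℂ :=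
  -∑ i, ((u (x + Pi.single i 1) - u x) + (u (x - Pi.single i 1) - u x)) + (ω x : ℂ) * u x

theorem opH_act {d : ℕ} (ω : (Fin d → ℤ) → ℝ) (u : LL (Lt d)) (x : Lt d) :
    opH ω (fun y => u y) x = Op (fun x y : Lt d => (-1 : ℝ) * adj d x y) u x +
      (((ω x + 2 * d : ℝ) : ℝ) : ℂ) * u x := by
  rw [op_adj (-1) (by norm_num) u x]
  unfold opH
  have h1 : ∑ i : Fin d, ((u (x + Pi.single i 1) - u x) + (u (x - Pi.single i 1) - u x)) =
      ∑ i : Fin d, (u (x + Pi.single i 1) + u (x - Pi.single i 1)) - 2 * (d : ℂ) * u x := by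
    have h2 : ∀ i : Fin d, ((u (x + Pi.single i 1) - u x) + (u (x - Pi.single i 1) - u x)) =
        (u (x + Pi.single i 1) + u (x - Pi.single i 1)) - 2 * u x := fun i => by ring
    simp only [h2]
    rw [Finset.sum_sub_distrib, Finset.sum_const, Finset.card_univ, Fintype.card_fin, nsmul_eq_mul]
    ring
  rw [h1]
  push_cast
  ring

/-- spectral measures exist -/
theorem opH_sp {d : ℕ} (ω : (Fin d → ℤ) → ℝ) (f : (Fin d → ℤ) → ℂ) (hf : SqS f) :
    ∃ m : Measure ℝ, IsSp (opH ω) f m := by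
  have hru := Pool.Agent.H155.GA.ruA
  have hrf := Pool.Agent.H870.GA.ruB hru
  obtain ⟨m', hm', -⟩ := (hrf _ _ (ker_rs _ _ _ _ (grf (d := d) (-1) (by norm_num)))
    fun x => ω x + 2 * d).sp (lmk f hf)
  exact ⟨m', of_spr hru _ _ (ker_rs _ _ _ _ (grf (d := d) (-1) (by norm_num)))
    (fun x => ω x + 2 * d) (fun u x => opH_act ω u x) f hf m' hm'⟩

theorem op_norm {d : ℕ} (c : ℝ) (hc : |c| ≤ 1) :
    ‖Op fun x y : Lt d => c * adj d x y‖ ≤ 2 * d := by
  have h1 := (Pool.Agent.H168.Y987.op _ _ _ (Pool.Agent.H339.SH.grf_ker (grf (d := d) c hc))).2.1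
  refine h1.trans (le_of_eq ?_)
  push_cast
  ring

theorem exR (C γ M η : ℝ) (hγ : 0 < γ) (hη : 0 < η) :
    ∃ R : ℕ, C * M * Real.exp (-(γ * R)) ≤ η ^ 2 := by
  have h1 : Tendsto (fun R : ℕ => C * M * Real.exp (-(γ * R))) atTop (𝓝 (C * M * 0)) := by
    refine Tendsto.const_mul _ ?_
    refine Real.tendsto_exp_neg_atTop_nhds_zero.comp ?_
    exact tendsto_natCast_atTop_atTop.const_mul_atTop hγ
  rw [mul_zero] at h1
  exact (h1.eventually (ge_mem_nhds (by positivity))).exists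

theorem ra_add {d : ℕ} (a y : Lt d) : (ra a (a + y) : ℤ) = ∑ i, |y i| := by
  unfold ra
  push_cast
  refine Finset.sum_congr rfl fun i _ => ?_
  rw [Pi.add_apply, add_sub_cancel_left]

/-- **uniform law: localization above the threshold of the tree** -/
theorem fin_unif (ε : ℝ) (hε : 0 < ε) :
    ∃ (d₀ : ℕ) (γ : ℝ), 0 < γ ∧
      (∀ d : ℕ, d₀ ≤ d → ∀ c : ℝ, (1 + ε) * (4 * (d * Real.log d)) ≤ c →
        ∀ᵐ ω ∂(Measure.infinitePi fun _ : Fin d → ℤ => unif c), LocF (opH ω) γ (ra 0)) ∧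
      ∀ η : ℝ, 0 < η → ∃ R : ℕ, ∀ d : ℕ, d₀ ≤ d → ∀ c : ℝ, (1 + ε) * (4 * (d * Real.log d)) ≤ c →
        ∀ a : Fin d → ℤ, ∃ G : Set ((Fin d → ℤ) → ℝ), MeasurableSet G ∧
          1 - η ≤ (Measure.infinitePi fun _ : Fin d → ℤ => unif c).real G ∧
          ∀ ω ∈ G, ∀ (n : ℕ) (u : Fin n → lp (fun _ : Fin d → ℤ => ℂ) 2) (E : Fin n → ℝ),
            Orthonormal ℂ u → (∀ j x, opH ω (u j) x = E j * u j x) →
            ∀ B : Finset (Fin d → ℤ), (∀ y ∈ B, (R : ℤ) < ∑ i, |y i|) →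
            ∑ j, ∑ y ∈ B, ‖u j a‖ ^ 2 * ‖u j (a + y)‖ ^ 2 ≤ η := by
  obtain ⟨d0, γ, C, hd0, hγ, hC, hlat⟩ := lat (1 / 2) ε (by norm_num) hε
  refine ⟨d0, γ, hγ, ?_, ?_⟩
  · intro d hd c hc
    have hd3 : (3 : ℝ) ≤ d := by exact_mod_cast hd0.trans hd
    have hlog : 0 < Real.log d := Real.log_pos (by linarith)
    have hc0 : 0 < c := lt_of_lt_of_le (by positivity) hc
    haveI := unif_prob c hc0
    have hf : Measurable fun v : ℝ => (v + 2 * (d : ℝ)) / c := by fun_prop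
    haveI : IsProbabilityMeasure ((unif c).map fun v : ℝ => (v + 2 * (d : ℝ)) / c) :=
      Measure.isProbabilityMeasure_map hf.aemeasurable
    have h1 := (hlat d hd c (by linarith [hc]) (-1) (by norm_num) _ (unif_dn c (2 * d) hc0)).1
    have h2 := ppd_map (unif c) (fun v : ℝ => (v + 2 * (d : ℝ)) / c) (fun v => v + 2 * d) hf _ c γ _
      (fun v => by field_simp) h1
    filter_upwards [h2] with ω hω
    exact loc_conv (opH ω) _ (ker_rs _ _ _ _ (grf (d := d) (-1) (by norm_num))) _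
      (fun u x => opH_act ω u x) γ _ hω
  · intro η hη
    obtain ⟨R, hR⟩ := exR C γ 3 η hγ hη
    refine ⟨R, fun d hd c hc a => ?_⟩
    have hd3 : (3 : ℝ) ≤ d := by exact_mod_cast hd0.trans hd
    have hlog : 0 < Real.log d := Real.log_pos (by linarith)
    have hlog1 : 1 ≤ Real.log d := by
      rw [Real.le_log_iff_exp_le (by linarith)]
      exact Real.exp_one_lt_d9.le.trans (by linarith)
    have hc0 : 0 < c := lt_of_lt_of_le (by positivity) hc
    have hc4 : 4 * (d : ℝ) ≤ c := by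
      refine le_trans ?_ hc
      have h1 : (d : ℝ) * 1 ≤ d * Real.log d := by gcongr
      nlinarith
    haveI := unif_prob c hc0
    have hf : Measurable fun v : ℝ => (v + 2 * (d : ℝ)) / c := by fun_prop
    haveI : IsProbabilityMeasure ((unif c).map fun v : ℝ => (v + 2 * (d : ℝ)) / c) :=
      Measure.isProbabilityMeasure_map hf.aemeasurable
    have h1 := (hlat d hd c (by linarith [hc]) (-1) (by norm_num) _ (unif_dn c (2 * d) hc0)).2 a 3 η R
      (by norm_num) hη hR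
    obtain ⟨G, hG1, hG2, hG3⟩ := radb_map (unif c) (fun v : ℝ => (v + 2 * (d : ℝ)) / c)
      (fun v => v + 2 * d) hf _ c _ a _ η R (fun v => by field_simp) h1
    have hae : ∀ᵐ ω ∂(Measure.infinitePi fun _ : Fin d → ℤ => unif c), ∀ x, |ω x| ≤ c := by
      rw [ae_all_iff]
      intro x
      have h3 : MeasurePreserving (fun ω : (Fin d → ℤ) → ℝ => ω x)
          (Measure.infinitePi fun _ : Fin d → ℤ => unif c) (unif c) :=
        measurePreserving_eval_infinitePi (fun _ : Fin d → ℤ => unif c) x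
      exact h3.quasiMeasurePreserving.ae (unif_ae c)
    have hZ : MeasurableSet {ω : (Fin d → ℤ) → ℝ | ∀ x, |ω x| ≤ c} := by
      rw [Set.setOf_forall]
      refine MeasurableSet.iInter fun x => ?_
      exact measurableSet_le ((measurable_pi_apply x).abs) measurable_const
    refine ⟨G ∩ {ω | ∀ x, |ω x| ≤ c}, hG1.inter hZ, ?_, ?_⟩
    · refine hG2.trans (le_of_eq ?_)
      rw [Measure.real, Measure.real]
      congr 1
      refine (measure_inter_conull ?_).symm
      exact hae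
    · rintro ω ⟨hω, hω2⟩ n u E hu hE B hB
      classical
      have hrad := hG3 ω hω n u E hu (fun j p => by rw [← opH_act]; exact hE j p) (fun j => ?_)
        (B.map (addLeftEmbedding a)) (fun x hx => ?_)
      · rw [show ∑ j, ∑ y ∈ B, ‖u j a‖ ^ 2 * ‖u j (a + y)‖ ^ 2 =
          ∑ j, ∑ x ∈ B.map (addLeftEmbedding a), ‖u j a‖ ^ 2 * ‖u j x‖ ^ 2 from
            Finset.sum_congr rfl fun j _ => by rw [Finset.sum_map]; rfl]
        exact hrad
      · have h4 := eig_bd (Op fun x y : Lt d => (-1 : ℝ) * adj d x y) (fun x => ω x + 2 * d) (2 * d)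
          (c + 2 * d) (E j) (op_norm (-1) (by norm_num)) (by positivity) (fun x => ?_) (u j) (hu.1 j)
          (fun p => by rw [← opH_act]; exact hE j p)
        · linarith
        · calc |ω x + 2 * d| ≤ |ω x| + |2 * (d : ℝ)| := abs_add_le _ _
            _ ≤ c + 2 * d := by
              rw [abs_of_nonneg (by positivity : (0 : ℝ) ≤ 2 * d)]
              gcongr
              exact hω2 x
      · rw [Finset.mem_map] at hx
        obtain ⟨y, hy, rfl⟩ := hx
        have h5 := hB y hy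
        rw [← ra_add a y] at h5
        exact_mod_cast h5

end Pool.Agent.H121.SH
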