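import Pool.Agent.H121.SH.MainA

/-! Project SH, part M: the final statement, Gaussian law. -/

set_option autoImplicit false
set_option linter.unusedSectionVars false

open scoped BigOperators InnerProductSpace Topology ENNReal
open Filter MeasureTheory ProbabilityTheory

namespace Pool.Agent.H121.SH

open Pool.Agent.Y662.TR (LL dv lmk ll_ext ll_summable)
open Pool.Agent.H987.Z (Rs SqS IsSp)
open Pool.Agent.H987.Y (Op Lt Ker)
open Pool.Agent.H121.GA (RU SpR SAd sad_of spr_of of_spr S_ruA S_ruB S_atom S_weyA S_weyB)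
open Pool.Agent.H121.MY (adj adj_nn adj_sy adj_act adj_hasSum)

/-- **the theorem on the lattice** -/
theorem latA (D D' ε δ b : ℝ) (hD : 0 < D) (hD' : 0 < D') (hε : 0 < ε) (hδ : 0 < δ) :
    ∃ (d0 : ℕ) (γ C : ℝ), 3 ≤ d0 ∧ 0 < γ ∧ 0 < C ∧
    ∀ d : ℕ, d0 ≤ d → ∀ lam : ℝ, (1 + ε) * (8 * D * (d * Real.log d)) ≤ lam →
    ∀ c : ℝ, |c| ≤ 1 → ∀ (μ : Measure ℝ) [IsProbabilityMeasure μ], Dn D' μ →
      (∀ B : Set ℝ, MeasurableSet B → μ (B ∩ {v | b - 2 * δ ≤ |v|}) ≤ ENNReal.ofReal D * volume B) →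
      PpDI (Op fun x y : Lt d => c * adj d x y) lam μ γ (ra 0) ((b - δ) * lam) ∧
      ∀ (a : Lt d) (M η : ℝ) (R : ℕ), 0 < M → 0 < η → C * M * Real.exp (-(γ * R)) ≤ η ^ 2 →
        RadBI (Op fun x y : Lt d => c * adj d x y) lam μ (ra a) a (b * lam) (M * lam) η R := by
  obtain ⟨K0, γ, C, hK0, hγ, hC, hmain⟩ := mainA D D' (ε / 2) δ b hD hD' (by positivity) hδ
  have h1 : Tendsto (fun d : ℕ => ε / 2 * Real.log d) atTop atTop :=
    (Real.tendsto_log_atTop.comp tendsto_natCast_atTop_atTop).const_mul_atTop (by positivity)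
  obtain ⟨d1, hd1⟩ := eventually_atTop.1 (h1.eventually_ge_atTop ((1 + ε / 2) * Real.log 2))
  refine ⟨max (max 3 K0) d1, γ, C, (le_max_left 3 K0).trans (le_max_left _ _), hγ, hC, ?_⟩
  intro d hd lam hlam c hc μ _ hμ hμA
  have hd3 : 3 ≤ d := ((le_max_left 3 K0).trans (le_max_left _ _)).trans hd
  have hdK : K0 ≤ d := ((le_max_right 3 K0).trans (le_max_left _ _)).trans hd
  have hdd : d1 ≤ d := (le_max_right _ _).trans hd
  have hd0 : (0 : ℝ) < d := by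
    have : (3 : ℝ) ≤ d := by exact_mod_cast hd3
    linarith
  have h2 := hd1 d hdd
  have h3 : (1 + ε / 2) * (4 * D * ((2 * d : ℕ) : ℝ) * Real.log ((2 * d : ℕ) : ℝ)) ≤ lam := by
    refine le_trans ?_ hlam
    push_cast
    rw [Real.log_mul two_ne_zero hd0.ne']
    have h4 : (1 + ε / 2) * (4 * D * (2 * d) * (Real.log 2 + Real.log d)) =
        8 * D * d * ((1 + ε / 2) * Real.log 2 + (1 + ε / 2) * Real.log d) := by ring
    have h5 : (1 + ε) * (8 * D * (d * Real.log d)) =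
        8 * D * d * (ε / 2 * Real.log d + (1 + ε / 2) * Real.log d) := by ring
    rw [h4, h5]
    have h6 : 0 ≤ 8 * D * (d : ℝ) := by positivity
    gcongr
  have hg := grf (d := d) c hc
  have h4 := fun a : Lt d => hmain (2 * d) (by omega) lam h3 (Lt d) _ _ hg (ra a)
    (fun x w hw => ra_step a x w hw) μ hμ hμA
  exact ⟨(h4 0).1, fun a M η R hM hη hR => (h4 a).2 a (ra_self a) M η R hM hη hR⟩

/-! ### the Gaussian density -/

theorem pdf_eq (v : ℝ) : gaussianPDFReal 0 1 v =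
    gaussianPDFReal 0 1 0 * Real.exp (-v ^ 2 / 2) := by
  simp only [gaussianPDFReal, NNReal.coe_one, sub_zero, mul_one]
  norm_num

theorem pdf_pos (v : ℝ) : 0 < gaussianPDFReal 0 1 v := gaussianPDFReal_pos 0 1 v one_ne_zero

/-- near `b` -/
theorem pdf_near (b ε δ v : ℝ) (hb : 0 ≤ b) (hε : 0 < ε) (hδ : 0 ≤ δ)
    (h : δ * (2 * b) ≤ 2 * Real.log (1 + ε)) (hv : b - δ ≤ |v|) :
    gaussianPDFReal 0 1 v ≤ (1 + ε) * gaussianPDFReal 0 1 b := by
  have h0 := pdf_pos 0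
  rw [pdf_eq v, pdf_eq b, mul_left_comm]
  refine mul_le_mul_of_nonneg_left ?_ h0.le
  have h1 : 1 + ε = Real.exp (Real.log (1 + ε)) := (Real.exp_log (by linarith)).symm
  have h2 : (1 + ε) * Real.exp (-b ^ 2 / 2) = Real.exp (Real.log (1 + ε) + -b ^ 2 / 2) := by
    rw [Real.exp_add, ← h1]
  rw [h2]
  apply Real.exp_le_exp.2
  have hl : 0 ≤ Real.log (1 + ε) := Real.log_nonneg (by linarith)
  have h3 : v ^ 2 = |v| ^ 2 := (sq_abs v).symm
  have hv0 := abs_nonneg v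
  rcases le_or_gt b |v| with h4 | h4
  · have : b ^ 2 ≤ v ^ 2 := by rw [h3]; gcongr
    linarith
  · have h5 : b ^ 2 - v ^ 2 ≤ δ * (2 * b) := by
      rw [h3]
      have h6 : b ^ 2 - |v| ^ 2 = (b - |v|) * (b + |v|) := by ring
      rw [h6]
      have h7 : b - |v| ≤ δ := by linarith
      have h8 : b + |v| ≤ 2 * b := by linarith
      exact mul_le_mul h7 h8 (by positivity) hδ
    linarith

theorem gauss_dnA (b ε δ : ℝ) (hb : 0 ≤ b) (hε : 0 < ε) (hδ : 0 ≤ δ)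
    (h : δ * (2 * b) ≤ 2 * Real.log (1 + ε)) (B : Set ℝ) (hB : MeasurableSet B) :
    gaussianReal 0 1 (B ∩ {v | b - δ ≤ |v|}) ≤
      ENNReal.ofReal ((1 + ε) * gaussianPDFReal 0 1 b) * volume B := by
  have hA : MeasurableSet {v : ℝ | b - δ ≤ |v|} := measurableSet_le measurable_const
    measurable_id.abs
  rw [gaussianReal_apply 0 one_ne_zero]
  calc ∫⁻ x in B ∩ {v | b - δ ≤ |v|}, gaussianPDF 0 1 x ≤
      ∫⁻ _ in B ∩ {v | b - δ ≤ |v|}, ENNReal.ofReal ((1 + ε) * gaussianPDFReal 0 1 b) := by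
        refine setLIntegral_mono' (hB.inter hA) fun x hx => ?_
        unfold gaussianPDF
        exact ENNReal.ofReal_le_ofReal (pdf_near b ε δ x hb hε hδ h hx.2)
    _ = ENNReal.ofReal ((1 + ε) * gaussianPDFReal 0 1 b) * volume (B ∩ {v | b - δ ≤ |v|}) := by
        rw [setLIntegral_const]
    _ ≤ _ := by
        gcongr
        exact Set.inter_subset_left

section det

variable {ι : Type}

/-- localization at the energies `J` -/
def LocI (T : LL ι →L[ℂ] LL ι) (V : ι → ℝ) (γ : ℝ) (r : ι → ℕ) (J : Set ℝ) : Prop :=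
  (∀ (φ : LL ι) (m : Measure ℝ), SpR (RU T V) φ m → ∃ A : Set ℝ, A.Countable ∧ m (J \ A) = 0) ∧
    (∀ (e : ℝ) (u : LL ι), e ∈ J → (∀ p, T u p + ((V p : ℝ) : ℂ) * u p = (e : ℂ) * u p) →
        Summable fun x => Real.exp (γ * r x) * ‖u x‖ ^ 2) ∧
    (∀ (e : ℝ) (u v : LL ι),
      (∀ p, T u p + ((V p : ℝ) : ℂ) * u p = (e : ℂ) * u p) →
      (∀ p, T v p + ((V p : ℝ) : ℂ) * v p = (e : ℂ) * v p) → u ≠ 0 → ∃ a : ℂ, v = a • u) ∧
    ∀ x y : ℝ, x < y → Set.Ioo x y ⊆ J → ∃ (t : ℝ) (u : LL ι), t ∈ Set.Ioo x y ∧ u ≠ 0 ∧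
      ∀ p, T u p + ((V p : ℝ) : ℂ) * u p = (t : ℂ) * u p

/-- dense eigenvalues in `J` -/
theorem den_ofI (hrf : S_ruB) (hatom : S_atom) (hweyA : S_weyA) [Countable ι]
    (T : LL ι →L[ℂ] LL ι) (hK : Rs T) (V : ι → ℝ) (J : Set ℝ)
    (hpp : ∀ (φ : LL ι) (m : Measure ℝ), SpR (RU T V) φ m →
      ∃ A : Set ℝ, A.Countable ∧ m (J \ A) = 0)
    (hω2 : ∀ E r : ℝ, 0 < r → ∃ u f : LL ι, u ≠ 0 ∧ ‖f‖ ≤ r * ‖u‖ ∧
      ∀ x, T u x + ((V x : ℝ) : ℂ) * u x - (E : ℂ) * u x = f x) (x y : ℝ) (hxy : x < y)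
    (hJ : Set.Ioo x y ⊆ J) : ∃ (t : ℝ) (u : LL ι), t ∈ Set.Ioo x y ∧ u ≠ 0 ∧
      ∀ p, T u p + ((V p : ℝ) : ℂ) * u p = (t : ℂ) * u p := by
  obtain ⟨E, hE⟩ : ∃ E, E = (x + y) / 2 := ⟨_, rfl⟩
  obtain ⟨r, hr⟩ : ∃ r, r = (y - x) / 4 := ⟨_, rfl⟩
  have hr0 : 0 < r := by rw [hr]; linarith
  obtain ⟨u, f, hu0, hf, huf⟩ := hω2 E r hr0
  obtain ⟨p, hp⟩ := hweyA ι T hK V E r u f hr0 hu0 hf huf
  have hI : Set.Ioo (E - 2 * r) (E + 2 * r) = Set.Ioo x y := by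
    rw [hE, hr]
    congr 1 <;> ring
  rw [hI] at hp
  obtain ⟨m', hm', -⟩ := (hrf _ _ hK V).sp (dv p)
  have hm0 := hp m' hm'
  obtain ⟨N, hN, hmN⟩ := hpp _ m' hm'
  have h3 : m' (Set.Ioo x y ∩ N) ≠ 0 := by
    intro h
    apply hm0
    rw [← Set.inter_union_sdiff (Set.Ioo x y) N]
    refine measure_union_null h (measure_mono_null ?_ hmN)
    exact Set.diff_subset_diff_left hJ
  obtain ⟨t, ht, htm⟩ : ∃ t ∈ Set.Ioo x y ∩ N, m' {t} ≠ 0 := by
    by_contra hcon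
    push Not at hcon
    apply h3
    have hc : (Set.Ioo x y ∩ N).Countable := hN.mono Set.inter_subset_right
    rw [← Set.biUnion_of_singleton (Set.Ioo x y ∩ N)]
    exact (measure_biUnion_null_iff hc).2 hcon
  obtain ⟨v, hv0, hv⟩ := hatom _ _ hK V p m' hm' t htm
  exact ⟨t, v, ht.1, hv0, hv⟩

/-- eigenfunctions with energies `e1 ≤ |E| ≤ E1` seen at `a` live in the ball of radius `R` -/
def RadI (T : LL ι →L[ℂ] LL ι) (V : ι → ℝ) (r : ι → ℕ) (a : ι) (e1 E1 η : ℝ) (R : ℕ) : Prop :=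
  ∀ (n : ℕ) (u : Fin n → LL ι) (e : Fin n → ℝ), Orthonormal ℂ u →
    (∀ j p, T (u j) p + ((V p : ℝ) : ℂ) * u j p = ((e j : ℝ) : ℂ) * u j p) →
    (∀ j, e1 ≤ |e j| ∧ |e j| ≤ E1) → ∀ S : Finset ι, (∀ x ∈ S, R < r x) →
      ∑ j, ∑ x ∈ S, ‖u j a‖ ^ 2 * ‖u j x‖ ^ 2 ≤ η

end det

/-- the law of `sgn(σ) ξ` -/
theorem gauss_sgn (σ : ℝ) (hσ : σ ≠ 0) :
    (gaussianReal 0 1).map (fun v => σ / |σ| * v) = gaussianReal 0 1 := by
  rcases lt_or_gt_of_ne hσ with h | h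
  · have h1 : σ / |σ| = -1 := by
      rw [abs_of_neg h]
      field_simp
    have h2 : (fun v : ℝ => σ / |σ| * v) = fun v => -v := by
      funext v
      rw [h1]
      ring
    rw [h2]
    exact Pool.Agent.H722.GA.gaus.2.2.1
  · have h1 : σ / |σ| = 1 := by
      rw [abs_of_pos h]
      field_simp
    have h2 : (fun v : ℝ => σ / |σ| * v) = id := by
      funext v
      rw [h1]
      simp
    rw [h2, Measure.map_id]

/-- fixed `b`, kernel of the adjacency matrix -/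
theorem curve_b (b ε : ℝ) (hb : 0 ≤ b) (hε : 0 < ε) (hε1 : ε ≤ 1) :
    ∃ (d0 : ℕ) (γ C : ℝ), 3 ≤ d0 ∧ 0 < γ ∧ 0 < C ∧
    ∀ d : ℕ, d0 ≤ d → ∀ σ : ℝ,
      (1 + ε) * (8 * gaussianPDFReal 0 1 b) * (d * Real.log d) ≤ |σ| →
      (∀ᵐ ξ ∂(Measure.infinitePi fun _ : Lt d => gaussianReal 0 1),
        LocI (Op fun x y : Lt d => (1 : ℝ) * adj d x y) (fun x => σ * ξ x) γ (ra 0)
          {E | b * |σ| ≤ |E|}) ∧
      ∀ (a : Lt d) (M η : ℝ) (R : ℕ), 0 < M → 0 < η → C * M * Real.exp (-(γ * R)) ≤ η ^ 2 →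
        ∃ G : Set (Lt d → ℝ), MeasurableSet G ∧
          1 - η ≤ (Measure.infinitePi fun _ : Lt d => gaussianReal 0 1).real G ∧
          ∀ ξ ∈ G, RadI (Op fun x y : Lt d => (1 : ℝ) * adj d x y) (fun x => σ * ξ x) (ra a) a
            (b * |σ|) (M * |σ|) η R := by
  have hru := Pool.Agent.H155.GA.ruA
  have hrf := Pool.Agent.H870.GA.ruB hru
  have hatom := Pool.Agent.H722.GA.atom hru hrf
  have hweyA := Pool.Agent.H170.GA.weyA hru hrf Pool.Agent.H800.GA.closR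
  have hφ := pdf_pos b
  have hl : 0 < Real.log (1 + ε / 4) := Real.log_pos (by linarith)
  obtain ⟨δ, hδdef⟩ : ∃ δ : ℝ, δ = Real.log (1 + ε / 4) / (2 * (b + 1)) := ⟨_, rfl⟩
  have hδ : 0 < δ := by rw [hδdef]; positivity
  have hδ2 : 2 * δ * (2 * b) ≤ 2 * Real.log (1 + ε / 4) := by
    rw [hδdef]
    have h1 : 2 * (Real.log (1 + ε / 4) / (2 * (b + 1))) * (2 * b) =
        2 * Real.log (1 + ε / 4) * (b / (b + 1)) := by
      field_simp
    rw [h1]
    have h2 : b / (b + 1) ≤ 1 := by rw [div_le_one (by linarith)]; linarith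
    have h3 : 0 ≤ b / (b + 1) := by positivity
    nlinarith
  obtain ⟨d0, γ, C, hd0, hγ, hC, hlat⟩ := latA ((1 + ε / 4) * gaussianPDFReal 0 1 b)
    (gaussianPDFReal 0 1 0) (ε / 4) δ b (by positivity) (pdf_pos 0) (by positivity) hδ
  have hthr : ∀ (d : ℕ) (σ : ℝ), d0 ≤ d →
      (1 + ε) * (8 * gaussianPDFReal 0 1 b) * (d * Real.log d) ≤ |σ| →
      (1 + ε / 4) * (8 * ((1 + ε / 4) * gaussianPDFReal 0 1 b) * (d * Real.log d)) ≤ |σ| := by
    intro d σ hd h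
    refine le_trans ?_ h
    have hd3 : (3 : ℝ) ≤ d := by exact_mod_cast hd0.trans hd
    have hlog : 0 < Real.log d := Real.log_pos (by linarith)
    have h1 : (1 + ε / 4) * (1 + ε / 4) ≤ 1 + ε := by nlinarith
    have h2 : 0 ≤ 8 * gaussianPDFReal 0 1 b * (d * Real.log d) := by positivity
    calc (1 + ε / 4) * (8 * ((1 + ε / 4) * gaussianPDFReal 0 1 b) * (d * Real.log d)) =
        ((1 + ε / 4) * (1 + ε / 4)) * (8 * gaussianPDFReal 0 1 b * (d * Real.log d)) := by ring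
      _ ≤ (1 + ε) * (8 * gaussianPDFReal 0 1 b * (d * Real.log d)) := by gcongr
      _ = _ := by ring
  have hpos : ∀ (d : ℕ) (σ : ℝ), d0 ≤ d →
      (1 + ε) * (8 * gaussianPDFReal 0 1 b) * (d * Real.log d) ≤ |σ| → σ ≠ 0 := by
    intro d σ hd hσ h
    rw [h, abs_zero] at hσ
    have hd3 : (3 : ℝ) ≤ d := by exact_mod_cast hd0.trans hd
    have hlog : 0 < Real.log d := Real.log_pos (by linarith)
    have : 0 < (1 + ε) * (8 * gaussianPDFReal 0 1 b) * (d * Real.log d) := by positivity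
    linarith
  refine ⟨d0, γ, C, hd0, hγ, hC, fun d hd σ hσ => ?_⟩
  have hσ0 := hpos d σ hd hσ
  have hab : 0 < |σ| := abs_pos.2 hσ0
  have hT := ker_rs _ _ _ _ (grf (d := d) 1 (by norm_num))
  have hf : Measurable fun v : ℝ => σ / |σ| * v := by fun_prop
  obtain ⟨h1, h1r⟩ := hlat d hd |σ| (hthr d σ hd hσ) 1 (by norm_num) (gaussianReal 0 1) gauss_dn
    (fun B hB => gauss_dnA b (ε / 4) (2 * δ) hb (by positivity) (by positivity) hδ2 B hB)
  have hd1 : 1 ≤ d := by omega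
  have hsub : {E : ℝ | b * |σ| ≤ |E|} ⊆ {E | (b - δ) * |σ| < |E|} := by
    intro E hE
    simp only [Set.mem_setOf_eq] at hE ⊢
    have : 0 < δ * |σ| := by positivity
    nlinarith
  constructor
  · have h2 := adj_wey hd1 (gaussianReal 0 1) Pool.Agent.H722.GA.gaus.2.1 |σ| hab.ne'
    have h3 : ∀ᵐ ω ∂(Measure.infinitePi fun _ : Lt d => (gaussianReal 0 1).map
        (fun v => σ / |σ| * v)),
        LocI (Op fun x y : Lt d => (1 : ℝ) * adj d x y) (fun x => |σ| * ω x) γ (ra 0)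
          {E | b * |σ| ≤ |E|} := by
      have e : (Measure.infinitePi fun _ : Lt d => (gaussianReal 0 1).map
        (fun v => σ / |σ| * v)) = Measure.infinitePi fun _ : Lt d => gaussianReal 0 1 := by
        simp only [gauss_sgn σ hσ0]
      rw [e]
      filter_upwards [h1, h2] with ω a1 a2
      obtain ⟨b1, b2, b3⟩ := a1
      have b1' : ∀ (φ : LL (Lt d)) (m : Measure ℝ),
          SpR (RU (Op fun x y : Lt d => (1 : ℝ) * adj d x y) fun x => |σ| * ω x) φ m →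
          ∃ A : Set ℝ, A.Countable ∧ m ({E | b * |σ| ≤ |E|} \ A) = 0 := by
        intro φ m hm
        obtain ⟨A, hA, hmA⟩ := b1 φ m hm
        exact ⟨A, hA, measure_mono_null (Set.diff_subset_diff_left hsub) hmA⟩
      exact ⟨b1', fun e u he hu => b2 e u (hsub he) hu, b3,
        fun x y hxy hJ => den_ofI hrf hatom hweyA _ hT _ _ b1' a2 x y hxy hJ⟩
    have h4 := (mp_map (ι := Lt d) (gaussianReal 0 1) (fun v => σ / |σ| * v)
      hf).quasiMeasurePreserving.ae h3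
    have h5 : ∀ ω : Lt d → ℝ, (fun x => |σ| * (σ / |σ| * ω x)) = fun x => σ * ω x := by
      intro ω
      funext x
      field_simp
    filter_upwards [h4] with ω hω
    rw [h5 ω] at hω
    exact hω
  · intro a M η R hM hη hR
    obtain ⟨G, hG1, hG2, hG3⟩ := h1r a M η R hM hη hR
    have hm := mp_map (ι := Lt d) (gaussianReal 0 1) (fun v => σ / |σ| * v) hf
    simp only [gauss_sgn σ hσ0] at hm
    refine ⟨(fun (ω : Lt d → ℝ) (x : Lt d) => σ / |σ| * ω x) ⁻¹' G, hm.measurable hG1, ?_,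
      fun ω hω => ?_⟩
    · rw [hm.measureReal_preimage hG1.nullMeasurableSet]
      exact hG2
    · have h6 := hG3 _ hω
      have h5 : ∀ x : Lt d, |σ| * (σ / |σ| * ω x) = σ * ω x := by
        intro x
        field_simp
      simp only [h5] at h6
      exact h6

end Pool.Agent.H121.SH
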