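import Pool.Agent.H121.SH.Fin

/-! Project SH: final statement for the Gaussian law. -/

set_option autoImplicit false
set_option linter.unusedSectionVars false

open scoped BigOperators InnerProductSpace Topology ENNReal
open Filter MeasureTheory ProbabilityTheory

namespace Pool.Agent.H121.SH

open Pool.Agent.Y662.TR (LL dv lmk ll_ext ll_summable Mw Mw_apply Mw_norm clp)
open Pool.Agent.H987.Z (Rs SqS IsSp)
open Pool.Agent.H987.Y (Op Lt Ker)
open Pool.Agent.H121.GA (RU SpR SAd sad_of spr_of of_spr S_ruA S_ruB S_atom S_weyA S_weyB)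
open Pool.Agent.H121.MY (adj adj_nn adj_sy adj_act adj_hasSum)

/-- the eigenvalues are dense -/
def Den {ι : Type} (T : LL ι →L[ℂ] LL ι) (V : ι → ℝ) : Prop :=
  ∀ x y : ℝ, x < y → ∃ (t : ℝ) (u : LL ι), t ∈ Set.Ioo x y ∧ u ≠ 0 ∧
    ∀ p, T u p + ((V p : ℝ) : ℂ) * u p = (t : ℂ) * u p

/-- dense eigenvalues from pure point spectrum and trial functions -/
theorem den_of (hrf : S_ruB) (hatom : S_atom) (hweyA : S_weyA) {ι : Type} [Countable ι]
    (T : LL ι →L[ℂ] LL ι) (hK : Rs T) (V : ι → ℝ)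
    (hpp : ∀ (φ : LL ι) (m : Measure ℝ), SpR (RU T V) φ m → ∃ A : Set ℝ, A.Countable ∧ m Aᶜ = 0)
    (hω2 : ∀ E r : ℝ, 0 < r → ∃ u f : LL ι, u ≠ 0 ∧ ‖f‖ ≤ r * ‖u‖ ∧
      ∀ x, T u x + ((V x : ℝ) : ℂ) * u x - (E : ℂ) * u x = f x) : Den T V := by
  intro x y hxy
  obtain ⟨E, hE⟩ : ∃ E, E = (x + y) / 2 := ⟨_, rfl⟩
  obtain ⟨r, hr⟩ : ∃ r, r = (y - x) / 4 := ⟨_, rfl⟩
  have hr0 : 0 < r := by rw [hr]; linarith
  obtain ⟨u, f, hu0, hf, huf⟩ := hω2 E r hr0
  obtain ⟨p, hp⟩ := hweyA ι T hK V E r u f hr0 hu0 hf huf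
  have hI : Set.Ioo (E - 2 * r) (E + 2 * r) = Set.Ioo x y := by
    rw [hE, hr]
    congr 1 <;> ring
  rw [hI] at hp
  obtain ⟨m', hm', -⟩ := (hrf _ _ hK V).sp (dv p)
  have hm0 := hp m' hm'
  obtain ⟨N, hN, hmN⟩ := hpp _ m' hm'
  have h3 : m' (Set.Ioo x y ∩ N) ≠ 0 := by
    intro h
    apply hm0
    rw [← Set.inter_union_sdiff (Set.Ioo x y) N]
    refine measure_union_null h (measure_mono_null ?_ hmN)
    intro t ht
    exact ht.2
  obtain ⟨t, ht, htm⟩ : ∃ t ∈ Set.Ioo x y ∩ N, m' {t} ≠ 0 := by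
    by_contra hcon
    push Not at hcon
    apply h3
    have hc : (Set.Ioo x y ∩ N).Countable := hN.mono Set.inter_subset_right
    rw [← Set.biUnion_of_singleton (Set.Ioo x y ∩ N)]
    exact (measure_biUnion_null_iff hc).2 hcon
  obtain ⟨v, hv0, hv⟩ := hatom _ _ hK V p m' hm' t htm
  exact ⟨t, v, ht.1, hv0, hv⟩

theorem adj_ker {d : ℕ} : Ker (2 * (d : ℝ)) (fun x y : Lt d => (1 : ℝ) * adj d x y) := by
  have h := Pool.Agent.H339.SH.grf_ker (grf (d := d) 1 (by norm_num))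
  have e : ((2 * d : ℕ) : ℝ) = 2 * (d : ℝ) := by push_cast; ring
  rwa [e] at h

theorem adj_wey {d : ℕ} (hd : 1 ≤ d) (μ : Measure ℝ) [IsProbabilityMeasure μ]
    (hμ : ∀ a b : ℝ, a < b → 0 < μ (Set.Ioo a b)) (lam : ℝ) (hlam : lam ≠ 0) :
    ∀ᵐ ω ∂(Measure.infinitePi fun _ : Lt d => μ), ∀ E r : ℝ, 0 < r → ∃ u f : LL (Lt d), u ≠ 0 ∧
      ‖f‖ ≤ r * ‖u‖ ∧ ∀ x, Op (fun x y : Lt d => (1 : ℝ) * adj d x y) u x +
        ((lam * ω x : ℝ) : ℂ) * u x - (E : ℂ) * u x = f x := by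
  refine Pool.Agent.H803.GA.weyB d (fun x y : Lt d => (1 : ℝ) * adj d x y) (2 * d) (2 * d) hd
    adj_ker (fun x => ?_) (fun δ hδ => ?_) μ hμ lam hlam
  · simp only [one_mul]
    exact (adj_hasSum x).tsum_eq
  · refine ⟨1, fun x y : Lt d => (1 : ℝ) * adj d x y, fun x y hxy i => ?_, ?_⟩
    · have hxy' : adj d x y ≠ 0 := by simpa using hxy
      exact_mod_cast Pool.Agent.H121.MY.adj_rng x y hxy' i
    · refine ⟨hδ.le, fun x y => by simp, fun x => ?_, fun x => ?_⟩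
      · simpa using summable_zero
      · simp [hδ.le]

/-- the standard normal law has density at most `φ(0)` -/
theorem gauss_dn : Dn (gaussianPDFReal 0 1 0) (gaussianReal 0 1) := by
  intro A hA
  rw [gaussianReal_apply 0 one_ne_zero A]
  calc ∫⁻ x in A, gaussianPDF 0 1 x ≤ ∫⁻ _ in A, ENNReal.ofReal (gaussianPDFReal 0 1 0) := by
        refine lintegral_mono fun x => ?_
        unfold gaussianPDF
        apply ENNReal.ofReal_le_ofReal
        unfold gaussianPDFReal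
        have h1 : Real.exp (-(x - 0) ^ 2 / (2 * ((1 : NNReal) : ℝ))) ≤
            Real.exp (-(0 - 0) ^ 2 / (2 * ((1 : NNReal) : ℝ))) := by
          apply Real.exp_le_exp.2
          rw [NNReal.coe_one, sub_zero, sub_zero, mul_one, zero_pow two_ne_zero, neg_zero, zero_div]
          have := sq_nonneg x
          linarith
        gcongr
    _ = _ := by rw [setLIntegral_const]

/-- `(H_σ u)(x) = ∑_{|y - x| = 1} u(y) + σ ξ(x) u(x)` -/
noncomputable def opG {d : ℕ} (σ : ℝ) (ξ : (Fin d → ℤ) → ℝ) (u : (Fin d → ℤ) → ℂ) (x : Fin d → ℤ) :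
    ℂ :=
  ∑ i : Fin d, (u (x + Pi.single i 1) + u (x - Pi.single i 1)) + ((σ * ξ x : ℝ) : ℂ) * u x

theorem opG_act {d : ℕ} (σ : ℝ) (ξ : (Fin d → ℤ) → ℝ) (u : LL (Lt d)) (x : Lt d) :
    opG σ ξ (fun y => u y) x = Op (fun x y : Lt d => (1 : ℝ) * adj d x y) u x +
      (((σ * ξ x : ℝ) : ℝ) : ℂ) * u x := by
  rw [op_adj 1 (by norm_num) u x]
  unfold opG
  push_cast
  ring

/-- dense eigenvalues on the level of functions -/
def DenF {X : Type} (A : (X → ℂ) → X → ℂ) : Prop :=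
  ∀ x y : ℝ, x < y → ∃ (t : ℝ) (u : X → ℂ), t ∈ Set.Ioo x y ∧ SqS u ∧ (∃ p, u p ≠ 0) ∧
    ∀ p, A u p = (t : ℂ) * u p

/-- **Gaussian law: localization above the threshold of the tree** -/
theorem fin_gauss (ε : ℝ) (hε : 0 < ε) :
    ∃ (d₀ : ℕ) (γ : ℝ), 0 < γ ∧
      (∀ (d : ℕ) (σ : ℝ) (ξ : (Fin d → ℤ) → ℝ), SAd (opG σ ξ) ∧
        ∀ f : (Fin d → ℤ) → ℂ, SqS f → ∃ m : Measure ℝ, IsSp (opG σ ξ) f m) ∧
      (∀ d : ℕ, d₀ ≤ d → ∀ σ : ℝ, (1 + ε) * (8 * gaussianPDFReal 0 1 0) * (d * Real.log d) ≤ |σ| →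
        ∀ᵐ ξ ∂(Measure.infinitePi fun _ : Fin d → ℤ => gaussianReal 0 1),
          LocF (opG σ ξ) γ (ra 0) ∧ DenF (opG σ ξ)) ∧
      ∀ M η : ℝ, 0 < M → 0 < η → ∃ R : ℕ, ∀ d : ℕ, d₀ ≤ d → ∀ σ : ℝ,
        (1 + ε) * (8 * gaussianPDFReal 0 1 0) * (d * Real.log d) ≤ |σ| →
        ∀ a : Fin d → ℤ, ∃ G : Set ((Fin d → ℤ) → ℝ), MeasurableSet G ∧
          1 - η ≤ (Measure.infinitePi fun _ : Fin d → ℤ => gaussianReal 0 1).real G ∧
          ∀ ξ ∈ G, ∀ (n : ℕ) (u : Fin n → lp (fun _ : Fin d → ℤ => ℂ) 2) (E : Fin n → ℝ),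
            Orthonormal ℂ u → (∀ j x, opG σ ξ (u j) x = E j * u j x) → (∀ j, |E j| ≤ M * |σ|) →
            ∀ B : Finset (Fin d → ℤ), (∀ y ∈ B, (R : ℤ) < ∑ i, |y i|) →
            ∑ j, ∑ y ∈ B, ‖u j a‖ ^ 2 * ‖u j (a + y)‖ ^ 2 ≤ η := by
  have hφ : 0 < gaussianPDFReal 0 1 0 := gaussianPDFReal_pos 0 1 0 one_ne_zero
  obtain ⟨d0, γ, C, hd0, hγ, hC, hlat⟩ := lat (gaussianPDFReal 0 1 0) ε hφ hε
  have hru := Pool.Agent.H155.GA.ruA
  have hrf := Pool.Agent.H870.GA.ruB hru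
  have hatom := Pool.Agent.H722.GA.atom hru hrf
  have hweyA := Pool.Agent.H170.GA.weyA hru hrf Pool.Agent.H800.GA.closR
  -- the law of `sgn(σ) ξ`
  have hsgn : ∀ σ : ℝ, σ ≠ 0 → (gaussianReal 0 1).map (fun v => σ / |σ| * v) = gaussianReal 0 1 := by
    intro σ hσ
    rcases lt_or_gt_of_ne hσ with h | h
    · have h1 : σ / |σ| = -1 := by
        rw [abs_of_neg h]
        field_simp
      have h2 : (fun v : ℝ => σ / |σ| * v) = fun v => -v := by
        funext v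
        rw [h1]
        ring
      rw [h2]
      exact Pool.Agent.H722.GA.gaus.2.2.1
    · have h1 : σ / |σ| = 1 := by
        rw [abs_of_pos h]
        field_simp
      have h2 : (fun v : ℝ => σ / |σ| * v) = id := by
        funext v
        rw [h1]
        simp
      rw [h2, Measure.map_id]
  have hpos : ∀ (d : ℕ), d0 ≤ d → ∀ σ : ℝ,
      (1 + ε) * (8 * gaussianPDFReal 0 1 0) * (d * Real.log d) ≤ |σ| → σ ≠ 0 := by
    intro d hd σ hσ h
    rw [h, abs_zero] at hσ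
    have hd3 : (3 : ℝ) ≤ d := by exact_mod_cast hd0.trans hd
    have hlog : 0 < Real.log d := Real.log_pos (by linarith)
    have : 0 < (1 + ε) * (8 * gaussianPDFReal 0 1 0) * (d * Real.log d) := by positivity
    linarith
  refine ⟨d0, γ, hγ, fun d σ ξ => ⟨?_, fun f hf => ?_⟩, ?_, ?_⟩
  · exact sad_of hru _ _ (ker_rs _ _ _ _ (grf (d := d) 1 (by norm_num))) (fun y => σ * ξ y)
      (fun u x => opG_act σ ξ u x)
  · obtain ⟨m', hm', -⟩ := (hrf _ _ (ker_rs _ _ _ _ (grf (d := d) 1 (by norm_num)))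
      fun y => σ * ξ y).sp (lmk f hf)
    exact ⟨m', of_spr hru _ _ (ker_rs _ _ _ _ (grf (d := d) 1 (by norm_num))) (fun y => σ * ξ y)
      (fun u x => opG_act σ ξ u x) f hf m' hm'⟩
  · intro d hd σ hσ
    have hσ0 := hpos d hd σ hσ
    have hab : 0 < |σ| := abs_pos.2 hσ0
    have hT := ker_rs _ _ _ _ (grf (d := d) 1 (by norm_num))
    have hf : Measurable fun v : ℝ => σ / |σ| * v := by fun_prop
    have h1 := (hlat d hd |σ| (by linarith [hσ]) 1 (by norm_num) (gaussianReal 0 1) gauss_dn).1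
    have h1' : ∀ᵐ ω ∂(Measure.infinitePi fun _ : Lt d => gaussianReal 0 1),
        Loc (Op fun x y : Lt d => (1 : ℝ) * adj d x y) (fun x => |σ| * ω x) γ (ra 0) := h1
    have hd1 : 1 ≤ d := by omega
    have h2 := adj_wey hd1 (gaussianReal 0 1) Pool.Agent.H722.GA.gaus.2.1 |σ| hab.ne'
    have h3 : ∀ᵐ ω ∂(Measure.infinitePi fun _ : Lt d => (gaussianReal 0 1).map
        (fun v => σ / |σ| * v)),
        Loc (Op fun x y : Lt d => (1 : ℝ) * adj d x y) (fun x => |σ| * ω x) γ (ra 0) ∧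
        Den (Op fun x y : Lt d => (1 : ℝ) * adj d x y) (fun x => |σ| * ω x) := by
      have e : (Measure.infinitePi fun _ : Lt d => (gaussianReal 0 1).map
        (fun v => σ / |σ| * v)) = Measure.infinitePi fun _ : Lt d => gaussianReal 0 1 := by
        simp only [hsgn σ hσ0]
      rw [e]
      filter_upwards [h1', h2] with ω a1 a2
      exact ⟨a1, den_of hrf hatom hweyA _ hT _ a1.1 a2⟩
    have h4 := (mp_map (ι := Lt d) (gaussianReal 0 1) (fun v => σ / |σ| * v)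
      hf).quasiMeasurePreserving.ae h3
    have h5 : ∀ ω : Lt d → ℝ, (fun x => |σ| * (σ / |σ| * ω x)) = fun x => σ * ω x := by
      intro ω
      funext x
      field_simp
    filter_upwards [h4] with ω hω
    rw [h5 ω] at hω
    refine ⟨loc_conv (opG σ ω) _ hT _ (fun u x => opG_act σ ω u x) γ _ hω.1, ?_⟩
    intro x y hxy
    obtain ⟨t, u, ht, hu0, hu⟩ := hω.2 x y hxy
    refine ⟨t, fun q => u q, ht, ll_summable u, ?_, fun q => ?_⟩
    · by_contra hcon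
      push Not at hcon
      exact hu0 (ll_ext hcon)
    · rw [opG_act, hu]
  · intro M η hM hη
    obtain ⟨R, hR⟩ := exR C γ M η hγ hη
    refine ⟨R, fun d hd σ hσ a => ?_⟩
    have hσ0 := hpos d hd σ hσ
    have hab : 0 < |σ| := abs_pos.2 hσ0
    have hf : Measurable fun v : ℝ => σ / |σ| * v := by fun_prop
    have h1 := (hlat d hd |σ| (by linarith [hσ]) 1 (by norm_num) (gaussianReal 0 1) gauss_dn).2 a M η
      R hM hη hR
    have h1' : RadB (Op fun x y : Lt d => (1 : ℝ) * adj d x y) |σ|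
        ((gaussianReal 0 1).map (fun v => σ / |σ| * v)) (ra a) a (M * |σ|) η R := by
      rw [hsgn σ hσ0]
      exact h1
    obtain ⟨G, hG1, hG2, hG3⟩ := radb_map (gaussianReal 0 1) (fun v => σ / |σ| * v)
      (fun v => σ * v) hf _ |σ| _ a _ η R (fun v => by field_simp) h1'
    refine ⟨G, hG1, hG2, fun ω hω n u E hu hE hEM B hB => ?_⟩
    classical
    have hrad := hG3 ω hω n u E hu (fun j p => by rw [← opG_act]; exact hE j p) hEM
      (B.map (addLeftEmbedding a)) (fun x hx => ?_)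
    · rw [show ∑ j, ∑ y ∈ B, ‖u j a‖ ^ 2 * ‖u j (a + y)‖ ^ 2 =
        ∑ j, ∑ x ∈ B.map (addLeftEmbedding a), ‖u j a‖ ^ 2 * ‖u j x‖ ^ 2 from
          Finset.sum_congr rfl fun j _ => by rw [Finset.sum_map]; rfl]
      exact hrad
    · rw [Finset.mem_map] at hx
      obtain ⟨y, hy, rfl⟩ := hx
      have h5 := hB y hy
      rw [← ra_add a y] at h5
      exact_mod_cast h5

end Pool.Agent.H121.SH
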