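import Pool.Agent.H121.SH.Iface

/-! Project SH, part M: the mobility curve. Localization at the energies `|E| ≥ b lam` for
`lam ≥ (1 + ε) 4 D' K log K`, where `D'` is the supremum of the density on `A = {|v| ≥ b - δ}` only.

Idea. At a site `x` with `ω x ∈ A` integrate over `ω x ∈ A`: density at most `D'`, whatever the self energy
is. At a site with `ω x ∉ A` one has `|lam ω x - E| ≥ δ lam` and the equation at `x` gives
`|G(x,y)|^s ≤ (δ lam)^{-s} ([y = x] + ∑_{u ∈ N x} |G(u,y)|^s)`, and `K (δ lam)^{-s} → 0`. -/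

set_option autoImplicit false

open scoped BigOperators InnerProductSpace Topology ENNReal
open Filter MeasureTheory

namespace Pool.Agent.H121.SH

open Pool.Agent.Y662.TR (LL Cf Mw dv hu)
open Pool.Agent.H987.Z (Rs Gr)
open Pool.Agent.H987.Y (Ker Op Lt)
open Pool.Agent.TH369.MU (SpM ep zk)
open Pool.Agent.H121.UE (rk)
open Pool.Agent.H121.GA (GU RU Rf SpR)

/-- a sub-probability measure with density at most `D` -/
def Sn (D : ℝ) (μ : Measure ℝ) : Prop := μ Set.univ ≤ 1 ∧ Dn D μ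

/-- **SM-ONEA.** This is `S_one` for sub-probability measures. You may assume `S_one` (proved:
`Pool.Agent.H333.SH.one`), or adapt its proof (`Pool/Agent/H333/SH/{OneCore,One}.lean`).

Proof from `S_one`: for `η > 0` `μ' = μ + (1 - μ univ) • (uniform law on [0, 1/η])` is a probability measure with
`Dn (D + η) μ'` and `μ ≤ μ'`; apply `S_one` to `μ'` (monotonicity of the integral in the measure) and let
`η → 0` (`cC`, `cM`, ... are continuous in `D`). -/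
def S_oneA : Prop :=
  ∀ D lam h : ℝ, 0 < D → 1 ≤ lam → 0 < h → h ≤ 1 / 2 →
    ∀ μ : Measure ℝ, Sn D μ → ∀ β : ℂ,
      ∫⁻ v : ℝ, ENNReal.ofReal (‖((lam * v : ℝ) : ℂ) - β‖⁻¹ ^ (1 - h)) ∂μ ≤
        ENNReal.ofReal (cC D lam h) ∧
      ∫⁻ v in {v : ℝ | 1 / lam < ‖((lam * v : ℝ) : ℂ) - β‖},
        ENNReal.ofReal (‖((lam * v : ℝ) : ℂ) - β‖⁻¹ ^ (1 - h)) ∂μ ≤ ENNReal.ofReal (cM D lam h) ∧
      μ {v : ℝ | ‖((lam * v : ℝ) : ℂ) - β‖ ≤ 1 / lam} ≤ ENNReal.ofReal (2 * D / lam ^ 2)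

/-- **SM-TWOA.** This is `S_two` for sub-probability measures. You may assume `S_two` (proved:
`Pool.Agent.H339.SH.two`). Proof: as for `S_oneA` (`μ ≤ μ'`, `η → 0`, `k1` is continuous in `D`). -/
def S_twoA : Prop :=
  ∀ D lam h : ℝ, 0 < D → 1 ≤ lam → 0 < h → h ≤ 1 / 2 →
    ∀ μ : Measure ℝ, Sn D μ → ∀ α β b : ℂ,
      ∫⁻ w in {w : ℝ | ‖((lam * w : ℝ) : ℂ) - β‖ ≤ 1 / lam}, ∫⁻ v : ℝ, ENNReal.ofReal
        ((‖b‖ / ‖(((lam * v : ℝ) : ℂ) - α) * (((lam * w : ℝ) : ℂ) - β) - b ^ 2‖) ^ (1 - h)) ∂μ ∂μ ≤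
        ENNReal.ofReal (k1 D lam h)

section mom

variable {ι : Type}

/-- fractional moments on the event `ω x ∈ A` -/
noncomputable def faA (μ : Measure ℝ) (A : Set ℝ) (lam s : ℝ) (t : ι → ι → ℝ) (Ω : Set ι) (z : ℂ)
    (x y : ι) : ℝ≥0∞ :=
  ∫⁻ ω, {ω : ι → ℝ | ω x ∈ A}.indicator
    (fun ω => ‖GR t (fun p => lam * ω p) Ω z x y‖ₑ ^ s) ω ∂(Measure.infinitePi fun _ : ι => μ)

/-- the same where the diagonal Green function at `x` is not resonant -/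
noncomputable def fbA (μ : Measure ℝ) (A : Set ℝ) (lam s : ℝ) (t : ι → ι → ℝ) (Ω : Set ι) (z : ℂ)
    (x y : ι) : ℝ≥0∞ :=
  ∫⁻ ω, {ω : ι → ℝ | ω x ∈ A ∧ ‖GR t (fun p => lam * ω p) Ω z x x‖ < lam}.indicator
    (fun ω => ‖GR t (fun p => lam * ω p) Ω z x y‖ₑ ^ s) ω ∂(Measure.infinitePi fun _ : ι => μ)

/-- the same where the neighbour `x'` is resonant after the removal of `x` -/
noncomputable def foA (μ : Measure ℝ) (A : Set ℝ) (lam s : ℝ) (t : ι → ι → ℝ) (Ω : Set ι) (z : ℂ)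
    (x x' y : ι) : ℝ≥0∞ :=
  ∫⁻ ω, {ω : ι → ℝ | ω x ∈ A ∧ ω x' ∈ A ∧
      lam ≤ ‖GR t (fun p => lam * ω p) (Ω \ {x}) z x' x'‖}.indicator
    (fun ω => ‖GR t (fun p => lam * ω p) Ω z x y‖ₑ ^ s) ω ∂(Measure.infinitePi fun _ : ι => μ)

end mom

open Classical in
/-- **SM-RESNA.** This is `S_resn` with the event `ω x, ω x' ∈ A`; here `D` is the density of `μ` on `A` only. You
may assume `S_sch`, `S_pair`, `S_oneA`, `S_twoA`, `S_measR`. PORT of `Pool/Agent/H721/SH/Resn.lean`: after the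
resampling of `ω x`, `ω x'` the integrals over `v`, `w` are over `A`, i.e. with respect to `μ.restrict A`. (`fa` on
the right side is the full fractional moment.) -/
def S_resnA : Prop :=
  ∀ D lam h : ℝ, 0 < D → 1 ≤ lam → 0 < h → h ≤ 1 / 2 →
    ∀ (μ : Measure ℝ) [IsProbabilityMeasure μ] (A : Set ℝ), MeasurableSet A → Sn D (μ.restrict A) →
    ∀ (ι : Type) [Countable ι] (K : ℕ) (t : ι → ι → ℝ) (N : ι → Finset ι), Grf K t N →
    ∀ (Ω : Set ι) (z : ℂ) (x x' y : ι), 0 < z.im → x ∈ Ω → x' ∈ N x → y ≠ x →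
      foA μ A lam (1 - h) t Ω z x x' y ≤
        ENNReal.ofReal (k1 D lam h) * ((if y = x' then 1 else 0) +
          ∑ r ∈ N x', fa μ lam (1 - h) t (Ω \ {x, x'}) z r y) +
        ENNReal.ofReal (k2 D lam h) * ∑ w ∈ N x, fa μ lam (1 - h) t (Ω \ {x, x'}) z w y

/-- **SM-MAINA.** You may assume `S_sch`, `S_oneA`, `S_measR`. PORT of `Pool/Agent/H105/SH/MainX.lean`.

Proof. As `S_mainx`: `V = lam ω`, `Ω1 = Ω \ {x}`, `G1 = GR Ω1` does not depend on `ω x`. Third item, `ω x ∈ A`: if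
`ω x' ∈ A` and `lam ≤ ‖G1 x' x'‖` for some `x' ∈ N x` then the integrand is at most `∑ x' ∈ N x` of the
integrands of `foA`. Otherwise `‖GR Ω x y‖^s ≤ ‖GR Ω x x‖^s ∑_{x' ∈ N x} ‖G1 x' y‖^s` and every `x' ∈ N x` has
`ω x' ∉ A` or (`ω x' ∈ A` and `‖G1 x' x'‖ < lam`); the terms of the first kind give `faA Aᶜ`, those of the second
kind `fbA`. Integrate over `ω x ∈ A` (`μ.restrict A`). -/
def S_mainA : Prop :=
  ∀ D lam h : ℝ, 0 < D → 1 ≤ lam → 0 < h → h ≤ 1 / 2 →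
    ∀ (μ : Measure ℝ) [IsProbabilityMeasure μ] (A : Set ℝ), MeasurableSet A → Sn D (μ.restrict A) →
    ∀ (ι : Type) [Countable ι] (K : ℕ) (t : ι → ι → ℝ) (N : ι → Finset ι), Grf K t N →
    ∀ (Ω : Set ι) (z : ℂ) (x : ι), 0 < z.im → x ∈ Ω →
      faA μ A lam (1 - h) t Ω z x x ≤ ENNReal.ofReal (cC D lam h) ∧
      fbA μ A lam (1 - h) t Ω z x x ≤ ENNReal.ofReal (cM D lam h) ∧
      ∀ y, y ≠ x →
        faA μ A lam (1 - h) t Ω z x y ≤
          ENNReal.ofReal (cC D lam h) * ∑ x' ∈ N x, (fbA μ A lam (1 - h) t (Ω \ {x}) z x' y +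
            faA μ Aᶜ lam (1 - h) t (Ω \ {x}) z x' y) +
          ∑ x' ∈ N x, foA μ A lam (1 - h) t Ω z x x' y ∧
        fbA μ A lam (1 - h) t Ω z x y ≤
          ENNReal.ofReal (cM D lam h) * ∑ x' ∈ N x, (fbA μ A lam (1 - h) t (Ω \ {x}) z x' y +
            faA μ Aᶜ lam (1 - h) t (Ω \ {x}) z x' y) +
          ∑ x' ∈ N x, foA μ A lam (1 - h) t Ω z x x' y

open Classical in
/-- **SM-BA (off resonant sites).**

Proof. If `y ∉ Ω` both Green functions vanish. For `x, y ∈ Ω` the equation at `x` (`S_ruA`, third item, see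
`Pool/Agent/H337/SH/Sch.lean`, `gr_pt`): `∑ w ∈ N x, t x w * GR Ω w y + (lam ω x - z) GR Ω x y = [x = y]`, and
`|lam ω x - z| ≥ |lam ω x - Re z| ≥ δ` if `ω x ∉ A`, so
`‖GR Ω x y‖^s ≤ δ^{-s} ([y = x] + ∑ w ∈ N x, ‖GR Ω w y‖^s)`. You may assume `S_measR`. -/
def S_bA : Prop :=
  ∀ (lam s δ : ℝ), 0 < s → s ≤ 1 → 0 < δ →
    ∀ (μ : Measure ℝ) [IsProbabilityMeasure μ] (A : Set ℝ), MeasurableSet A →
    ∀ (ι : Type) [Countable ι] (K : ℕ) (t : ι → ι → ℝ) (N : ι → Finset ι), Grf K t N →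
    ∀ (Ω : Set ι) (z : ℂ) (x y : ι), 0 < z.im → x ∈ Ω → (∀ v : ℝ, v ∉ A → δ ≤ |lam * v - z.re|) →
      faA μ Aᶜ lam s t Ω z x y ≤ ENNReal.ofReal (δ ^ (-s)) * ((if y = x then 1 else 0) +
        ∑ u ∈ N x, fa μ lam s t Ω z u y)

/-- **SM-PARH (the parameters).** PORT of `S_parG` (proof: `Pool/Agent/H686/SH/ParG.lean`), with the same
`h = τ/log lam` (you may replace `ε` by a smaller number at the beginning).

Proof. In addition to the proof of `S_parG`: `M1 = L/ε1`, `ε1 = ε1(ε)` small, a constant; then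
`K cM (1 + L/M1) = (1 + ε1) K cM` and `2 M1 K (δ lam)^{-(1-h)} ≤ 2 M1 max(1, 1/δ) e^τ K/lam → 0` as `K → ∞`
(`lam^h = e^τ`, `K/lam ≤ 1/(4 D log K)`), and `2 L K² (k1 + k2) → 0` as before. -/
def S_parH : Prop :=
  ∀ D ε δ : ℝ, 0 < D → 0 < ε → 0 < δ → ∃ (K0 : ℕ) (L M1 γ q : ℝ), 2 ≤ K0 ∧ 1 ≤ L ∧ 1 ≤ M1 ∧ 0 < γ ∧
    q < 1 ∧
    ∀ K : ℕ, K0 ≤ K → ∀ lam : ℝ, (1 + ε) * (4 * D * K * Real.log K) ≤ lam →
      ∃ h : ℝ, 0 < h ∧ h ≤ 1 / 2 ∧ 1 ≤ lam ∧ cC D lam h ≤ L * cM D lam h ∧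
        Real.exp (2 * γ) * (K * (cM D lam h * (1 + L / M1) + 2 * M1 * (δ * lam) ^ (-(1 - h))) +
          2 * L * K ^ 2 * (k1 D lam h + k2 D lam h)) ≤ q

end Pool.Agent.H121.SH
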