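import Pool.Agent.H121.UE.Iface
import Pool.Agent.H121.GA.IfB

/-! Project SH (the sharp tree constant): complete localization on every graph of degree at most `K` for
`lam ≥ (1 + ε) 4 D K log K`, `D` the supremum of the single site density, `K ≥ K0(ε, D)`, and localization
radii bounded uniformly in `K`.

Idea. `s = 1 - h`, `h = τ / log lam`. The (restricted) Green function obeys `G(x,y) = - G(x,x) ∑_w t x w G1(w,y)`,
`G1` = Green function after removal of `x`. With `E |G(x,x)|^s ≤ cC ~ (2 D/lam) e^τ log lam/τ` one loses the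
factor `e^τ/τ ≥ e`. If `|G1(w,w)| < lam` for all neighbours `w` of `x` then in the next step `E |G1(w,w)|^s` may
be replaced by the truncated moment `cM ~ (4 D/lam) log lam (sinh τ/τ)`; and pairs `x, w` with `|G1(w,w)| ≥ lam`
are rare uniformly in all the rest of the potential: 2x2 resolvents, constant `k1 ~ log lam/lam²`, and
`K² k1 ~ 1/log lam → 0`. -/

set_option autoImplicit false

open scoped BigOperators InnerProductSpace Topology ENNReal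
open Filter MeasureTheory

namespace Pool.Agent.H121.SH

open Pool.Agent.Y662.TR (LL Cf Mw dv hu)
open Pool.Agent.H987.Z (Rs Gr)
open Pool.Agent.H987.Y (Ker Op Lt)
open Pool.Agent.TH369.MU (SpM ep zk)
open Pool.Agent.H121.Z987 (HH wt)
open Pool.Agent.H121.ME (Qw)
open Pool.Agent.H121.UE (rk)
open Pool.Agent.H121.GA (GU RU Rf SpR)

/-- a symmetric kernel `t`, `|t x y| ≤ 1`, of a graph of degree at most `K` (without loops) -/
structure Grf {ι : Type} (K : ℕ) (t : ι → ι → ℝ) (N : ι → Finset ι) : Prop where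
  sy : ∀ x y, t x y = t y x
  le : ∀ x y, |t x y| ≤ 1
  nb : ∀ x y, t x y ≠ 0 → y ∈ N x
  nx : ∀ x, x ∉ N x
  cd : ∀ x, (N x).card ≤ K

open Classical in
/-- the Green function of `t + V` restricted to `Ω` (zero outside of `Ω`); `V` is not bounded -/
noncomputable def GR {ι : Type} (t : ι → ι → ℝ) (V : ι → ℝ) (Ω : Set ι) (z : ℂ) (x y : ι) : ℂ :=
  if x ∈ Ω ∧ y ∈ Ω then GU (Op (rk Ω t)) V z x y else 0

/-- **SH-SCH (Schur complement: removal of one site).**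

Facts: `Pool.Agent.H155.GA.ruA : S_ruA` (existence, pointwise equation and UNIQUENESS of solutions of
`(T + V - z) u = f`), `Pool.Agent.H870.GA.ruB ruA : S_ruB` (symmetry, norm bound), `Pool.Agent.H399.GA.site ruA : S_site`
(positivity of the imaginary part, `‖GU‖ ≤ 1/Im z`). `GU T V z x y = RU T V z (dv y) x`.

Proof. `Op (rk Ω t)` is `Rs` and `(Op (rk Ω t) u) p = ∑ w ∈ N p, rk Ω t p w * u w` (`Grf` gives `Ker K t`, so
`Ker K (rk Ω t)`; `Pool.Agent.H168.Y987.op`; see `Pool/Agent/H962/UE/ResA.lean` which does all this). For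
`y ∈ Ω` the vector `u_y = RU (Op (rk Ω t)) V z (dv y)` vanishes outside of `Ω` (there the equation is
`(V p - z) u p = 0`), so `GR t V Ω z p y = u_y p` for `y ∈ Ω` and all `p`; by uniqueness it does not change
when `V` is changed outside of `Ω`. Let `x ∈ Ω`, `Ω1 = Ω \ {x}`, `G1 = GR t V Ω1 z`, and for `w ∈ Ω1` `u¹_w` the
solution for `Ω1`; `u¹_w = 0` for `w ∉ Ω1` (by definition). `g = ∑ w ∈ N x, t x w u¹_w`, `φ = dv x - g`. Then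
`(T_Ω + V - z) φ = κ dv x`, `κ = V x - z - ∑_{w, w'} t x w t x w' G1 w w'` (as `T_Ω dv x = ∑_{w ∈ N x ∩ Ω1} t x w dv w`,
`(T_Ω + V - z) u¹_w = dv w + (∑_{w'} t x w' u¹_w w') dv x` for `w ∈ Ω1`), so by uniqueness `φ = κ RU_Ω (dv x)`. At
`x`: `1 = κ G(x,x)` (first formula); at `y`: `- g y = κ G(y,x)` (second formula after multiplication by
`G(x,x)`). Third formula: for `q ∈ Ω1`: `(T_Ω + V - z) u¹_q = dv q + (∑_w t x w G1 w q) dv x`, so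
`G1 p q = G p q + (∑_w t x w G1 w q) G p x`; insert the second formula. (If `p` or `q` is not in `Ω1` all
terms vanish.) -/
def S_sch : Prop :=
  ∀ (ι : Type) (K : ℕ) (t : ι → ι → ℝ) (N : ι → Finset ι), Grf K t N →
    ∀ (V : ι → ℝ) (Ω : Set ι) (z : ℂ), 0 < z.im →
    (∀ x y, GR t V Ω z x y = GR t V Ω z y x) ∧
    (∀ V' : ι → ℝ, (∀ p ∈ Ω, V' p = V p) → ∀ x y, GR t V' Ω z x y = GR t V Ω z x y) ∧
    (∀ x y, ‖GR t V Ω z x y‖ ≤ 1 / z.im) ∧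
    ∀ x ∈ Ω,
      0 < (GR t V Ω z x x).im ∧
      GR t V Ω z x x * (((V x : ℝ) : ℂ) - z - ∑ w ∈ N x, ∑ w' ∈ N x,
        ((t x w : ℝ) : ℂ) * ((t x w' : ℝ) : ℂ) * GR t V (Ω \ {x}) z w w') = 1 ∧
      (∀ y, y ≠ x → GR t V Ω z x y =
        -(GR t V Ω z x x * ∑ w ∈ N x, ((t x w : ℝ) : ℂ) * GR t V (Ω \ {x}) z w y)) ∧
      ∀ p q, p ≠ x → q ≠ x → GR t V Ω z p q = GR t V (Ω \ {x}) z p q +
        (∑ w ∈ N x, ((t x w : ℝ) : ℂ) * GR t V (Ω \ {x}) z w p) *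
          (∑ w ∈ N x, ((t x w : ℝ) : ℂ) * GR t V (Ω \ {x}) z w q) * GR t V Ω z x x

section pair

variable {ι : Type}

open Classical in
/-- the self energy of `x` without `x'` -/
noncomputable def qA (t : ι → ι → ℝ) (N : ι → Finset ι) (V : ι → ℝ) (Ω : Set ι) (z : ℂ) (x x' : ι) : ℂ :=
  ∑ w ∈ (N x).erase x', ∑ w' ∈ (N x).erase x', ((t x w : ℝ) : ℂ) * ((t x w' : ℝ) : ℂ) * GR t V Ω z w w'

open Classical in
/-- the effective hopping from `x` to `x'` -/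
noncomputable def qb (t : ι → ι → ℝ) (N : ι → Finset ι) (V : ι → ℝ) (Ω : Set ι) (z : ℂ) (x x' : ι) : ℂ :=
  ((t x x' : ℝ) : ℂ) -
    ∑ w ∈ (N x).erase x', ∑ r ∈ N x', ((t x w : ℝ) : ℂ) * ((t x' r : ℝ) : ℂ) * GR t V Ω z w r

/-- `z` plus the self energy of `x'` without `x` -/
noncomputable def qB (t : ι → ι → ℝ) (N : ι → Finset ι) (V : ι → ℝ) (Ω : Set ι) (z : ℂ) (x' : ι) : ℂ :=
  z + ∑ r ∈ N x', ∑ r' ∈ N x', ((t x' r : ℝ) : ℂ) * ((t x' r' : ℝ) : ℂ) * GR t V Ω z r r'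

open Classical in
/-- minus the vector at `x'` -/
noncomputable def qa (t : ι → ι → ℝ) (N : ι → Finset ι) (V : ι → ℝ) (Ω : Set ι) (z : ℂ) (x' y : ι) : ℂ :=
  if y = x' then -1 else ∑ r ∈ N x', ((t x' r : ℝ) : ℂ) * GR t V Ω z r y

open Classical in
/-- minus the vector at `x` -/
noncomputable def qR (t : ι → ι → ℝ) (N : ι → Finset ι) (V : ι → ℝ) (Ω : Set ι) (z : ℂ) (x x' y : ι) :
    ℂ := ∑ w ∈ (N x).erase x', ((t x w : ℝ) : ℂ) * GR t V Ω z w y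

end pair

/-- **SH-PAIR (removal of a pair of neighbours).** You may assume `S_sch` as a hypothesis (`h : S_sch`).

Proof. `Ω1 = Ω \ {x}`, `Ω'' = Ω \ {x, x'} = Ω1 \ {x'}`, `g = GR Ω1 x' x'`, `G'' = GR Ω''`, `A w = ∑ r ∈ N x', t x' r G'' r w`
(`= ∑ r, t x' r G'' w r` by symmetry). First formula: `S_sch` for `x' ∈ Ω1`. Second formula: in
`GR Ω x x * (V x - z - ∑_{w,w' ∈ N x} t x w t x w' GR Ω1 w w') = 1` split the sums at `x'`: for `w, w' ≠ x'`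
`GR Ω1 w w' = G'' w w' + A w A w' g` (third formula of `S_sch`), `GR Ω1 x' w' = - g A w'` (second formula),
so `∑ ∑ = qA + g (∑_{w ≠ x'} t x w A w)² - 2 g t x x' ∑_{w ≠ x'} t x w A w + g (t x x')² = qA + qb² g`. Third
formula: `GR Ω x y = - GR Ω x x ∑_{w ∈ N x} t x w GR Ω1 w y`. If `y ≠ x'`: `GR Ω1 w y = G'' w y + A w A y g` for
`w ≠ x'`, `GR Ω1 x' y = - g A y`, so the sum is `qR y - g A y qb`. If `y = x'`: `GR Ω1 w x' = - g A w`, the sum is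
`g qb`, and `qR x' = 0` as `x' ∉ Ω''` (`GR` is zero outside of `Ω''`). -/
def S_pair : Prop :=
  ∀ (ι : Type) (K : ℕ) (t : ι → ι → ℝ) (N : ι → Finset ι), Grf K t N →
    ∀ (V : ι → ℝ) (Ω : Set ι) (z : ℂ), 0 < z.im → ∀ x x' y, x ∈ Ω → x' ∈ N x → x' ∈ Ω → y ≠ x →
      GR t V (Ω \ {x}) z x' x' * (((V x' : ℝ) : ℂ) - qB t N V (Ω \ {x, x'}) z x') = 1 ∧
      GR t V Ω z x x * (((V x : ℝ) : ℂ) - z - qA t N V (Ω \ {x, x'}) z x x' -
        qb t N V (Ω \ {x, x'}) z x x' ^ 2 * GR t V (Ω \ {x}) z x' x') = 1 ∧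
      GR t V Ω z x y = GR t V Ω z x x * (qb t N V (Ω \ {x, x'}) z x x' * GR t V (Ω \ {x}) z x' x' *
        qa t N V (Ω \ {x, x'}) z x' y - qR t N V (Ω \ {x, x'}) z x x' y)

section const

/-- the fractional moment of a diagonal Green function -/
noncomputable def cC (D lam h : ℝ) : ℝ := 2 * D / lam * (lam ^ h / h) + lam ^ (h - 1)

/-- the truncated fractional moment -/
noncomputable def cM (D lam h : ℝ) : ℝ :=
  2 * D / lam * (lam ^ (-h) + (lam ^ h - lam ^ (-h)) / h) + lam ^ (h - 1)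

/-- the constants of the resonant pairs -/
noncomputable def k1 (D lam h : ℝ) : ℝ := 2 * (4 * D + 1) * (4 * D + 2 * D / h) / lam ^ 2

/-- the constants of the resonant pairs -/
noncomputable def k2 (D lam h : ℝ) : ℝ := 2 * D / lam ^ 2 * cC D lam h

end const

/-- a probability measure with density at most `D` -/
def Dn (D : ℝ) (μ : Measure ℝ) : Prop :=
  ∀ A : Set ℝ, MeasurableSet A → μ A ≤ ENNReal.ofReal D * volume A

/-- **SH-ONE (one site moments).** `s = 1 - h`.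

Proof. `‖lam v - β‖ ≥ lam |v - c|`, `c = Re β/lam`. (1) `∫ ‖lam v - β‖^{-s} dμ ≤ lam^{-s} (1 + D ∫_{|v-c| ≤ 1} |v-c|^{-s} dv) =
lam^{h-1} (1 + 2 D/h)`. (2) On `‖lam v - β‖ > 1/lam` the integrand is at most `min (lam^s) ((lam |v-c|)^{-s})`, so
the integral is at most `D (2/lam²) lam^s + D lam^{-s} 2 (1 - lam^{-2h})/h + lam^{-s}` (`|v - c| ≤ 1/lam²`,
`1/lam² < |v - c| ≤ 1`, `|v - c| > 1`) `= cM`. (3) `{‖lam v - β‖ ≤ 1/lam} ⊆ {|v - c| ≤ 1/lam²}`. (4) as (1):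
`∫ ‖..‖^{-s/2} ≤ lam^{-s/2} (1 + 2 D/(1 - s/2)) ≤ lam^{-s/2} (1 + 4 D)`. Compare `Pool/Agent/H122/Z987/DecCore.lean`,
`Pool/Agent/H354/ME`, `S_aprA` (`Pool/Agent/*/UE/AprA.lean`) for the same integrals. -/
def S_one : Prop :=
  ∀ D lam h : ℝ, 0 < D → 1 ≤ lam → 0 < h → h ≤ 1 / 2 →
    ∀ (μ : Measure ℝ) [IsProbabilityMeasure μ], Dn D μ → ∀ β : ℂ,
      ∫⁻ v : ℝ, ENNReal.ofReal (‖((lam * v : ℝ) : ℂ) - β‖⁻¹ ^ (1 - h)) ∂μ ≤
        ENNReal.ofReal (cC D lam h) ∧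
      ∫⁻ v in {v : ℝ | 1 / lam < ‖((lam * v : ℝ) : ℂ) - β‖},
        ENNReal.ofReal (‖((lam * v : ℝ) : ℂ) - β‖⁻¹ ^ (1 - h)) ∂μ ≤ ENNReal.ofReal (cM D lam h) ∧
      μ {v : ℝ | ‖((lam * v : ℝ) : ℂ) - β‖ ≤ 1 / lam} ≤ ENNReal.ofReal (2 * D / lam ^ 2) ∧
      ∫⁻ v : ℝ, ENNReal.ofReal (‖((lam * v : ℝ) : ℂ) - β‖⁻¹ ^ ((1 - h) / 2)) ∂μ ≤
        ENNReal.ofReal ((4 * D + 1) * lam ^ (-((1 - h) / 2)))

/-- **SH-TWO (resonant 2x2 resolvents, uniformly in the hopping `b`).** `s = 1 - h`. You may assume `S_one`.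

Proof. `b ≠ 0` (else the integrand is zero). `X = lam v - α`, `Y = lam w - β`, `|Y| ≤ 1/lam`; a.s. `X ≠ 0`,
`Y ≠ 0` and `XY ≠ b²` (`μ` has no atoms; for `Y ≠ 0` the last one excludes at most one `v`).
Case 1, `|X||Y| ≤ |b|²/2`: `|XY - b²| ≥ |b|²/2`, `|b| ≥ (2|X||Y|)^{1/2}`, so `|b|/|XY - b²| ≤ 2/|b| ≤
2^{1/2} |X|^{-1/2} |Y|^{-1/2}`. Case 2, `|X||Y| > |b|²/2`: `|b| < (2|X||Y|)^{1/2}`, `|XY - b²| = |X| |Y - b²/X|`, so
`|b|/|XY - b²| ≤ 2^{1/2} |X|^{-1/2} |Y|^{1/2} |Y - b²/X|^{-1} ≤ 2^{1/2} |X|^{-1/2} lam^{-1/2} |Y - b²/X|^{-1}`. So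
`(..)^s ≤ 2^{s/2} |X|^{-s/2} (|Y|^{-s/2} + lam^{-s/2} |Y - b²/X|^{-s})`. Integrate over `w` first (`lintegral_lintegral_swap`),
`R = 1/lam²`: `{|Y| ≤ 1/lam} ⊆ {|w - c| ≤ R}`, `∫_{|w-c| ≤ R} (lam |w - c|)^{-s/2} D dw = lam^{-s/2} 2 D R^{1-s/2}/(1-s/2) ≤
4 D lam^{-s/2} lam^{-2+s}`, and for every real `c'` `∫_{|w-c| ≤ R} (lam |w - c'|)^{-s} D dw ≤ lam^{-s} 2 D R^h/h =
(2 D/h) lam^{-1-h}` (the integral over the set of measure `2R` is at most the one over the interval of the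
same length centred at `c'`: split `|w - c'| ≤ R` and `|w - c'| > R`, where `|w-c'|^{-s} ≤ R^{-s}`; this gives at most
`2 R^h/h + 2 R^h ≤ ...`; to get exactly `2R^h/h` use that the part of `{|w - c| ≤ R}` outside of
`{|w - c'| ≤ R}` has the same measure as the part of `{|w - c'| ≤ R}` outside of `{|w - c| ≤ R}`). Then
`∫ |X|^{-s/2} dμ ≤ (4 D + 1) lam^{-s/2}` (`S_one`). Total: `2^{s/2} (4D+1) (4 D lam^{-s/2} lam^{-s/2} lam^{-2+s} +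
lam^{-s/2} lam^{-s/2} (2D/h) lam^{-1-h}) = 2^{s/2} (4D+1) (4D + 2D/h) lam^{-2}`, and `2^{s/2} ≤ 2`. (There is
room: the cruder bound `2R^h/h + 2R^h` suffices, since `4D + 2D/h + 2D ≤ 2^{1/2} (4D + 2D/h)` as `4D + 2D/h ≥ 8D`,
and `2^{s/2} ≤ 2^{1/2}`.) -/
def S_two : Prop :=
  ∀ D lam h : ℝ, 0 < D → 1 ≤ lam → 0 < h → h ≤ 1 / 2 →
    ∀ (μ : Measure ℝ) [IsProbabilityMeasure μ], Dn D μ → ∀ α β b : ℂ,
      ∫⁻ w in {w : ℝ | ‖((lam * w : ℝ) : ℂ) - β‖ ≤ 1 / lam}, ∫⁻ v : ℝ, ENNReal.ofReal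
        ((‖b‖ / ‖(((lam * v : ℝ) : ℂ) - α) * (((lam * w : ℝ) : ℂ) - β) - b ^ 2‖) ^ (1 - h)) ∂μ ∂μ ≤
        ENNReal.ofReal (k1 D lam h)

section mom

variable {ι : Type}

/-- fractional moments of the restricted Green function -/
noncomputable def fa (μ : Measure ℝ) (lam s : ℝ) (t : ι → ι → ℝ) (Ω : Set ι) (z : ℂ) (x y : ι) : ℝ≥0∞ :=
  ∫⁻ ω, ‖GR t (fun p => lam * ω p) Ω z x y‖ₑ ^ s ∂(Measure.infinitePi fun _ : ι => μ)

/-- fractional moments where the diagonal Green function at `x` is not resonant -/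
noncomputable def fb (μ : Measure ℝ) (lam s : ℝ) (t : ι → ι → ℝ) (Ω : Set ι) (z : ℂ) (x y : ι) : ℝ≥0∞ :=
  ∫⁻ ω, {ω : ι → ℝ | ‖GR t (fun p => lam * ω p) Ω z x x‖ < lam}.indicator
    (fun ω => ‖GR t (fun p => lam * ω p) Ω z x y‖ₑ ^ s) ω ∂(Measure.infinitePi fun _ : ι => μ)

/-- fractional moments where the neighbour `x'` is resonant after the removal of `x` -/
noncomputable def fo (μ : Measure ℝ) (lam s : ℝ) (t : ι → ι → ℝ) (Ω : Set ι) (z : ℂ) (x x' y : ι) :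
    ℝ≥0∞ :=
  ∫⁻ ω, {ω : ι → ℝ | lam ≤ ‖GR t (fun p => lam * ω p) (Ω \ {x}) z x' x'‖}.indicator
    (fun ω => ‖GR t (fun p => lam * ω p) Ω z x y‖ₑ ^ s) ω ∂(Measure.infinitePi fun _ : ι => μ)

end mom

/-- **SH-MEAS.** From `S_mU` (`Pool.Agent.H738.GA.mU ruA opb`, `Pool.Agent.H100.GA.opb`): first item, `T = Op (rk Ω t)`. -/
def S_measR : Prop :=
  ∀ (ι : Type) [Countable ι] (K : ℕ) (t : ι → ι → ℝ) (N : ι → Finset ι), Grf K t N →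
    ∀ (lam : ℝ) (Ω : Set ι) (z : ℂ) (x y : ι), z.im ≠ 0 →
      Measurable fun ω : ι → ℝ => GR t (fun p => lam * ω p) Ω z x y

open Classical in
/-- **SH-RESN (resonant neighbours).** You may assume `S_sch`, `S_pair`, `S_one`, `S_two`, `S_measR`.

Proof. If `x' ∉ Ω` then `GR .. (Ω \ {x}) x' x' = 0 < lam` and `fo = 0`. Otherwise `x' ≠ x`, `Ω'' = Ω \ {x, x'}`. With
`V = lam ω`, `qA, qb, qB, qa, qR` (for `Ω''`) do not depend on `ω x`, `ω x'` (`S_sch`, second item). Resample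
`ω x' = w` and `ω x = v` (`lint_resample` in `Pool/Agent/H121/Z987/Rs.lean`, twice; see how it is used in
`Pool/Agent/H121/Z987/Mom.lean` and in `Pool/Agent/*/UE/BadE.lean`). By `S_pair`, with `X = lam v - α`,
`α = z + qA`, `Y = lam w - β`, `β = qB`, `b = qb`, `g = GR (Ω \ {x}) x' x'`, `G = GR Ω x x`: `g Y = 1`,
`G (X - b² g) = 1`, so `G g (X Y - b²) = 1`, the event `lam ≤ ‖g‖` is `‖Y‖ ≤ 1/lam`, `‖G b g‖ = ‖b‖/‖X Y - b²‖` and
`GR Ω x y = (G b g) qa - G qR`. So (`0 < s ≤ 1`) `‖GR Ω x y‖^s ≤ (‖b‖/‖XY - b²‖)^s ‖qa‖^s + ‖G‖^s ‖qR‖^s`. The double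
integral of the first term over `{‖Y‖ ≤ 1/lam}` is at most `k1 ‖qa‖^s` (`S_two`); for the second one
`∫ ‖G‖^s dμ(v) ≤ cC` (`S_one`, `β' = α + b² g` does not depend on `v`), and `μ {‖Y‖ ≤ 1/lam} ≤ 2D/lam²`. Finally
`∫ ‖qa‖ₑ^s ≤ [y = x'] + ∑ r ∈ N x', fa Ω'' r y`, `∫ ‖qR‖ₑ^s ≤ ∑ w ∈ N x, fa Ω'' w y` (`|t| ≤ 1`, `0 < s ≤ 1`). -/
def S_resn : Prop :=
  ∀ D lam h : ℝ, 0 < D → 1 ≤ lam → 0 < h → h ≤ 1 / 2 →
    ∀ (μ : Measure ℝ) [IsProbabilityMeasure μ], Dn D μ →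
    ∀ (ι : Type) [Countable ι] (K : ℕ) (t : ι → ι → ℝ) (N : ι → Finset ι), Grf K t N →
    ∀ (Ω : Set ι) (z : ℂ) (x x' y : ι), 0 < z.im → x ∈ Ω → x' ∈ N x → y ≠ x →
      fo μ lam (1 - h) t Ω z x x' y ≤
        ENNReal.ofReal (k1 D lam h) * ((if y = x' then 1 else 0) +
          ∑ r ∈ N x', fa μ lam (1 - h) t (Ω \ {x, x'}) z r y) +
        ENNReal.ofReal (k2 D lam h) * ∑ w ∈ N x, fa μ lam (1 - h) t (Ω \ {x, x'}) z w y

/-- **SH-MAINX (the recursion).** You may assume `S_sch`, `S_one`, `S_measR`.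

Proof. `V = lam ω`, `Ω1 = Ω \ {x}`, `G1 = GR Ω1` does not depend on `ω x` (`S_sch`). `GR Ω x x = 1/(lam ω x - β)`,
`β = z + ∑∑ t x w t x w' G1 w w'`, and `‖GR Ω x x‖ < lam` iff `‖lam ω x - β‖ > 1/lam`. First and second item:
integrate over `ω x` (`lint_resample` in `Pool/Agent/H121/Z987/Rs.lean`). Third and fourth item: if
`lam ≤ ‖G1 x' x'‖` for some `x' ∈ N x` then the integrand is at most `∑_{x' ∈ N x} 1{lam ≤ ‖G1 x' x'‖} ‖GR Ω x y‖^s`.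
Otherwise all `‖G1 x' x'‖ < lam` and `‖GR Ω x y‖^s = ‖GR Ω x x‖^s ‖∑ w ∈ N x, t x w G1 w y‖^s ≤
‖GR Ω x x‖^s ∑_{x' ∈ N x} 1{‖G1 x' x'‖ < lam} ‖G1 x' y‖^s` (`|t| ≤ 1`, `0 < s ≤ 1`); the last sum does not depend on
`ω x`, resample. -/
def S_mainx : Prop :=
  ∀ D lam h : ℝ, 0 < D → 1 ≤ lam → 0 < h → h ≤ 1 / 2 →
    ∀ (μ : Measure ℝ) [IsProbabilityMeasure μ], Dn D μ →
    ∀ (ι : Type) [Countable ι] (K : ℕ) (t : ι → ι → ℝ) (N : ι → Finset ι), Grf K t N →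
    ∀ (Ω : Set ι) (z : ℂ) (x : ι), 0 < z.im → x ∈ Ω →
      fa μ lam (1 - h) t Ω z x x ≤ ENNReal.ofReal (cC D lam h) ∧
      fb μ lam (1 - h) t Ω z x x ≤ ENNReal.ofReal (cM D lam h) ∧
      ∀ y, y ≠ x →
        fa μ lam (1 - h) t Ω z x y ≤
          ENNReal.ofReal (cC D lam h) * ∑ x' ∈ N x, fb μ lam (1 - h) t (Ω \ {x}) z x' y +
          ∑ x' ∈ N x, fo μ lam (1 - h) t Ω z x x' y ∧
        fb μ lam (1 - h) t Ω z x y ≤
          ENNReal.ofReal (cM D lam h) * ∑ x' ∈ N x, fb μ lam (1 - h) t (Ω \ {x}) z x' y +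
          ∑ x' ∈ N x, fo μ lam (1 - h) t Ω z x x' y

/-- **SH-ETA (the second moment of an off diagonal Green function).** You may assume `S_sch`, `S_measR`; see
also the facts listed at `S_sch`.

Proof. `η = Im z`, `V = lam ω`, `G1 = GR (Ω \ {x})`, `f = ∑_{w ∈ N x, w ∈ Ω \ {x}} t x w dv w`, `R` the resolvent of
`Ω \ {x}`, `g1 p = (R f) p = ∑ w ∈ N x, t x w G1 w p`, and `S = ∑∑ t x w t x w' G1 w w' = ⟪f, R f⟫`. `GR Ω x y =
- GR Ω x x * g1 y`, `GR Ω x x = 1/(lam ω x - z - S)`, and `Im S = Im ⟪f, R f⟫ = η ‖R f‖² ≥ η |g1 y|²`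
(`im_nsq` in `Pool/Agent/H253/GA/WienR.lean`, `Rf (RU T V)` by `ruB`). So with `β = z + S`, `Im β ≥ η (1 + |g1 y|²)`,
`∫ |lam v - β|^{-2} dμ(v) ≤ D ∫ |lam v - β|^{-2} dv = D π/(lam Im β)` (`P_integral`, see `S_graf`:
`Pool/Agent/H410/Z987/Graf.lean`), and `η |g1 y|² D π/(lam η (1 + |g1 y|²)) ≤ (π D/lam) |g1 y|^s`
(`a²/(1+a²) ≤ a^s` for `0 < s ≤ 1`, `a ≥ 0`), and `|g1 y|^s ≤ ∑ w ∈ N x, |G1 w y|^s`. `g1` does not depend on `ω x`: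
resample (`lint_resample`). -/
def S_eta : Prop :=
  ∀ D lam s : ℝ, 0 < D → 0 < lam → 0 < s → s ≤ 1 →
    ∀ (μ : Measure ℝ) [IsProbabilityMeasure μ], Dn D μ →
    ∀ (ι : Type) [Countable ι] (K : ℕ) (t : ι → ι → ℝ) (N : ι → Finset ι), Grf K t N →
    ∀ (Ω : Set ι) (z : ℂ) (x y : ι), 0 < z.im → x ∈ Ω → y ≠ x →
      ∫⁻ ω, ENNReal.ofReal (z.im * ‖GR t (fun p => lam * ω p) Ω z x y‖ ^ 2)
        ∂(Measure.infinitePi fun _ : ι => μ) ≤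
      ENNReal.ofReal (Real.pi * D / lam) * ∑ w ∈ N x, fa μ lam s t (Ω \ {x}) z w y

/-- **SH-PARG (the parameters).**

Proof. `h = τ/log lam`, `τ = τ(ε) ∈ (0, 1/2]` so small that `sinh τ/τ ≤ 1 + ε/4` (say), `l = log lam` large. Then
`lam^h = e^τ`, `K cM = K (4 D/lam) l (sinh τ/τ) + K (2 D/lam) e^{-τ} + K e^τ/lam`. As `log x/x` is decreasing for
`x ≥ e` and `lam ≥ lam1 = (1+ε) 4 D K log K`: `4 D K l/lam ≤ 4 D K log lam1/lam1 =
(log K + log log K + log (4 D (1+ε)))/((1+ε) log K) → 1/(1+ε)` as `K → ∞`, and `K/lam ≤ 1/(4 D log K) → 0`. So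
`K cM ≤ (1 + ε/2)/(1+ε) =: q < 1` for `K ≥ K0`. `L = max 1 (cC/cM)`; `cC/cM ≤ e^τ/(2 sinh τ) + e^τ τ/(4 D l sinh τ) ≤ L0`
(`cM ≥ (4 D/lam) l sinh τ/τ`), a constant; also `K cC = 2 D (K/lam) l e^τ/τ + e^τ K/lam` is bounded, take `L` at least
this bound. `K² k1 = 2 (4D+1) (4D + 2D l/τ) (K/lam)²`, and `(K/lam)² l =
(K l/lam) (K/lam) → 0` (bounded times `→ 0`); `K² k2 = 2D (K/lam)² cC → 0`. So `K cM + L K² (k1 + k2) ≤ (q+1)/2 < 1` for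
`K ≥ K0`, and `γ = γ(ε) > 0` with `exp (2 γ) (q+1)/2 < 1`. -/
def S_parG : Prop :=
  ∀ D ε : ℝ, 0 < D → 0 < ε → ∃ (K0 : ℕ) (L γ q : ℝ), 2 ≤ K0 ∧ 1 ≤ L ∧ 0 < γ ∧ q < 1 ∧
    ∀ K : ℕ, K0 ≤ K → ∀ lam : ℝ, (1 + ε) * (4 * D * K * Real.log K) ≤ lam →
      ∃ h : ℝ, 0 < h ∧ h ≤ 1 / 2 ∧ 1 ≤ lam ∧ cC D lam h ≤ L * cM D lam h ∧ K * cC D lam h ≤ L ∧
        Real.exp (2 * γ) * (K * cM D lam h + L * K ^ 2 * (k1 D lam h + k2 D lam h)) ≤ q

/-- **SH-SIMP (simplicity of the eigenvalues, unbounded potentials).** PORT of `S_simple`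
(`Pool/Agent/H121/ME/Iface.lean`, proved by helper962 in `Pool/Agent/H962/ME/Simple.lean`) to arbitrary laws
without atoms. `GU T (lam ω)` replaces `Gr (HH T lam ω)`; use `S_ruA`, `S_ruB`, `S_mU`, `S_atom` (proved:
`Pool.Agent.H155.GA.ruA`, `Pool.Agent.H870.GA.ruB ruA`, `Pool.Agent.H738.GA.mU ruA opb`,
`Pool.Agent.H722.GA.atom`) and the tools of `Pool/Agent/H253/GA/WienR.lean` (resolvent families `Rf`). -/
def S_simU : Prop :=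
  ∀ (ι : Type) [Countable ι] (T : LL ι →L[ℂ] LL ι), Rs T → ∀ lam : ℝ, 0 < lam →
    ∀ (μ : Measure ℝ) [IsProbabilityMeasure μ], (∀ v : ℝ, μ {v} = 0) →
    ∀ᵐ ω ∂(Measure.infinitePi fun _ : ι => μ), ∀ (e : ℝ) (u v : LL ι),
      (∀ p, T u p + ((lam * ω p : ℝ) : ℂ) * u p = (e : ℂ) * u p) →
      (∀ p, T v p + ((lam * ω p : ℝ) : ℂ) * v p = (e : ℂ) * v p) → u ≠ 0 → ∃ a : ℂ, v = a • u

/-- **SH-WIM (lower bound by finitely many eigenvectors, unbounded potentials).** PORT of `S_wienB`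
(`Pool/Agent/H121/ME/Iface.lean`, proof `grep -rn S_wienB Pool/Agent`) to resolvents `RU T V` and to several
simple eigenvalues at once: by `pol` and the limit in `Pool/Agent/H253/GA/WienR.lean` (and
`Pool/Agent/H253/ME/W*.lean`) the integral converges to `(π/16) ∑_e w(e) (m_+{e} - m_-{e})²`, at least
the sum over the `e j` (distinct), and `(m_+{e} - m_-{e})/4 = lim -iε GU(x,y; e + iε) = u x * conj (u y)` for a
simple eigenvalue `e` with the unit eigenvector `u` (see the docstring of `S_wienB`; `-iε RU(e + iε) dv y`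
converges to an eigenvector, see `S_atom`, `Pool/Agent/H722/GA`). -/
def S_wiM : Prop :=
  ∀ (w : ℝ → ℝ), Continuous w → (∀ E, 0 ≤ w E) → (∀ E, w E ≤ wt E) →
    ∀ (ι : Type) [Countable ι] (T : LL ι →L[ℂ] LL ι), Rs T → ∀ (V : ι → ℝ) (x y : ι) (n : ℕ)
      (e : Fin n → ℝ) (u : Fin n → LL ι),
      (∀ j p, T (u j) p + ((V p : ℝ) : ℂ) * u j p = ((e j : ℝ) : ℂ) * u j p) → (∀ j, ‖u j‖ = 1) →
      Function.Injective e →
      (∀ j (v : LL ι), (∀ p, T v p + ((V p : ℝ) : ℂ) * v p = ((e j : ℝ) : ℂ) * v p) →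
        ∃ a : ℂ, v = a • u j) →
      ∑ j, ENNReal.ofReal (Real.pi * w (e j) * (‖u j x‖ ^ 2 * ‖u j y‖ ^ 2)) ≤
        liminf (fun k => ∫⁻ E, ENNReal.ofReal (ep k * ‖GU T V (zk E k) x y‖ ^ 2) ∂(Qw w)) atTop

end Pool.Agent.H121.SH
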