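import Pool.Agent.H121.SH.Main

/-! Project SH: the lattice. -/

set_option autoImplicit false
set_option linter.unusedSectionVars false

open scoped BigOperators InnerProductSpace Topology ENNReal
open Filter MeasureTheory

namespace Pool.Agent.H121.SH

open Pool.Agent.Y662.TR (LL dv ll_ext)
open Pool.Agent.H987.Z (Rs)
open Pool.Agent.H987.Y (Op Lt Ker)
open Pool.Agent.H121.GA (RU SpR)
open Pool.Agent.H121.MY (adj adj_nn adj_sy adj_act)

/-- the unit vectors `± e_i` -/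
noncomputable def sg {d : ℕ} (p : Fin d × Bool) : Lt d :=
  if p.2 then Pi.single p.1 1 else -Pi.single p.1 1

open Classical in
/-- the neighbours of a site -/
noncomputable def Nb (d : ℕ) (x : Lt d) : Finset (Lt d) := Finset.univ.image fun p => x + sg p

theorem sg_inj {d : ℕ} (p q : Fin d × Bool) (h : (sg p : Lt d) = sg q) : p = q := by
  obtain ⟨i, s⟩ := p
  obtain ⟨j, s'⟩ := q
  unfold sg at h
  have h1 := congrFun h i
  have h2 := congrFun h j
  by_cases hij : i = j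
  · subst hij
    cases s <;> cases s' <;> simp at h1 ⊢
  · exfalso
    have hji : j ≠ i := fun h => hij h.symm
    cases s <;> cases s' <;> simp [hij, hji] at h1 h2

open Classical in
theorem adj_sum {d : ℕ} (x y : Lt d) :
    adj d x y = ∑ p : Fin d × Bool, if y = x + sg p then (1 : ℝ) else 0 := by
  rw [Fintype.sum_prod_type]
  unfold Pool.Agent.H121.MY.adj
  refine Finset.sum_congr rfl fun i _ => ?_
  rw [Fintype.sum_bool]
  simp only [sg, sub_eq_add_neg, if_true, Bool.false_eq_true, if_false]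

theorem adj_le_one {d : ℕ} (x y : Lt d) : adj d x y ≤ 1 := by
  classical
  rw [adj_sum]
  by_cases h : ∃ p : Fin d × Bool, y = x + sg p
  · obtain ⟨p, hp⟩ := h
    have h1 : ∀ q : Fin d × Bool, (if y = x + sg q then (1 : ℝ) else 0) = if q = p then 1 else 0 := by
      intro q
      by_cases hq : q = p
      · rw [if_pos hq, hq, if_pos hp]
      · rw [if_neg hq, if_neg]
        intro h2
        rw [hp] at h2
        exact hq (sg_inj _ _ (add_left_cancel h2)).symm
    simp only [h1]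
    simp
  · push Not at h
    rw [Finset.sum_eq_zero fun p _ => if_neg (h p)]
    exact zero_le_one

theorem adj_nb {d : ℕ} (x y : Lt d) (h : adj d x y ≠ 0) : y ∈ Nb d x := by
  classical
  rw [adj_sum] at h
  obtain ⟨p, -, hp⟩ := Finset.exists_ne_zero_of_sum_ne_zero h
  unfold Nb
  rw [Finset.mem_image]
  refine ⟨p, Finset.mem_univ _, ?_⟩
  by_contra h1
  exact hp (if_neg fun h2 => h1 h2.symm)

theorem nb_ne {d : ℕ} (x : Lt d) : x ∉ Nb d x := by
  classical
  unfold Nb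
  rw [Finset.mem_image]
  rintro ⟨p, -, hp⟩
  have h1 : (sg p : Lt d) = 0 := by
    have : x + sg p = x + 0 := by rw [hp, add_zero]
    exact add_left_cancel this
  have h2 := congrFun h1 p.1
  unfold sg at h2
  by_cases h3 : p.2 = true
  · simp [h3] at h2
  · simp [h3] at h2

theorem nb_card {d : ℕ} (x : Lt d) : (Nb d x).card ≤ 2 * d := by
  classical
  unfold Nb
  refine Finset.card_image_le.trans ?_
  simp [Fintype.card_prod, mul_comm]

theorem grf {d : ℕ} (c : ℝ) (hc : |c| ≤ 1) : Grf (2 * d) (fun x y : Lt d => c * adj d x y) (Nb d) where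
  sy x y := by rw [adj_sy]
  le x y := by
    rw [abs_mul, abs_of_nonneg (adj_nn x y)]
    calc |c| * adj d x y ≤ 1 * 1 := mul_le_mul hc (adj_le_one x y) (adj_nn x y) zero_le_one
      _ = 1 := one_mul _
  nb x y h := adj_nb x y (right_ne_zero_of_mul h)
  nx := nb_ne
  cd := nb_card

/-- the `ℓ¹` distance to `a` -/
def ra {d : ℕ} (a x : Lt d) : ℕ := ∑ i, (x i - a i).natAbs

theorem ra_self {d : ℕ} (a : Lt d) : ra a a = 0 := by simp [ra]

theorem sg_norm {d : ℕ} (p : Fin d × Bool) : ∑ i, (sg p i : ℤ).natAbs = 1 := by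
  have h : ∀ i, (sg p i : ℤ).natAbs = if i = p.1 then 1 else 0 := by
    intro i
    unfold sg
    by_cases h1 : i = p.1
    · subst h1
      by_cases h3 : p.2 = true <;> simp [h3]
    · by_cases h3 : p.2 = true <;> simp [h3, h1]
  simp only [h]
  simp

theorem ra_step {d : ℕ} (a x w : Lt d) (h : w ∈ Nb d x) : ra a w ≤ ra a x + 1 := by
  classical
  unfold Nb at h
  rw [Finset.mem_image] at h
  obtain ⟨p, -, hp⟩ := h
  unfold ra
  rw [← hp, ← sg_norm p, ← Finset.sum_add_distrib]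
  refine Finset.sum_le_sum fun i _ => ?_
  have h1 : (x + sg p) i - a i = (x i - a i) + sg p i := by
    rw [Pi.add_apply]
    ring
  rw [h1]
  exact Int.natAbs_add_le _ _

/-- the action of the operator -/
theorem op_adj {d : ℕ} (c : ℝ) (hc : |c| ≤ 1) (u : LL (Lt d)) (x : Lt d) :
    Op (fun x y : Lt d => c * adj d x y) u x =
      (c : ℂ) * ∑ i : Fin d, (u (x + Pi.single i 1) + u (x - Pi.single i 1)) := by
  have h1 := ((Pool.Agent.H168.Y987.op _ _ _ (Pool.Agent.H339.SH.grf_ker (grf (d := d) c hc))).1 u x).2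
  rw [h1]
  have h2 := (adj_act (fun y => u y) x).mul_left (c : ℂ)
  rw [← h2.tsum_eq]
  refine tsum_congr fun y => ?_
  push_cast
  ring

/-- **the theorem on the lattice** -/
theorem lat (D ε : ℝ) (hD : 0 < D) (hε : 0 < ε) :
    ∃ (d0 : ℕ) (γ C : ℝ), 3 ≤ d0 ∧ 0 < γ ∧ 0 < C ∧
    ∀ d : ℕ, d0 ≤ d → ∀ lam : ℝ, (1 + ε) * (8 * D * (d * Real.log d)) ≤ lam →
    ∀ c : ℝ, |c| ≤ 1 → ∀ (μ : Measure ℝ) [IsProbabilityMeasure μ], Dn D μ →
      PpD (Op fun x y : Lt d => c * adj d x y) lam μ γ (ra 0) ∧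
      ∀ (a : Lt d) (M η : ℝ) (R : ℕ), 0 < M → 0 < η → C * M * Real.exp (-(γ * R)) ≤ η ^ 2 →
        RadB (Op fun x y : Lt d => c * adj d x y) lam μ (ra a) a (M * lam) η R := by
  obtain ⟨K0, γ, C, hK0, hγ, hC, hmain⟩ := main D (ε / 2) hD (by positivity)
  have h1 : Tendsto (fun d : ℕ => ε / 2 * Real.log d) atTop atTop :=
    (Real.tendsto_log_atTop.comp tendsto_natCast_atTop_atTop).const_mul_atTop (by positivity)
  obtain ⟨d1, hd1⟩ := eventually_atTop.1 (h1.eventually_ge_atTop ((1 + ε / 2) * Real.log 2))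
  refine ⟨max (max 3 K0) d1, γ, C, (le_max_left 3 K0).trans (le_max_left _ _), hγ, hC, ?_⟩
  intro d hd lam hlam c hc μ _ hμ
  have hd3 : 3 ≤ d := ((le_max_left 3 K0).trans (le_max_left _ _)).trans hd
  have hdK : K0 ≤ d := ((le_max_right 3 K0).trans (le_max_left _ _)).trans hd
  have hdd : d1 ≤ d := (le_max_right _ _).trans hd
  have hd0 : (0 : ℝ) < d := by
    have : (3 : ℝ) ≤ d := by exact_mod_cast hd3
    linarith
  have h2 := hd1 d hdd
  have h3 : (1 + ε / 2) * (4 * D * ((2 * d : ℕ) : ℝ) * Real.log ((2 * d : ℕ) : ℝ)) ≤ lam := by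
    refine le_trans ?_ hlam
    push_cast
    rw [Real.log_mul two_ne_zero hd0.ne']
    have h4 : (1 + ε / 2) * (4 * D * (2 * d) * (Real.log 2 + Real.log d)) =
        8 * D * d * ((1 + ε / 2) * Real.log 2 + (1 + ε / 2) * Real.log d) := by ring
    have h5 : (1 + ε) * (8 * D * (d * Real.log d)) =
        8 * D * d * (ε / 2 * Real.log d + (1 + ε / 2) * Real.log d) := by ring
    rw [h4, h5]
    have h6 : 0 ≤ 8 * D * (d : ℝ) := by positivity
    gcongr
  have hg := grf (d := d) c hc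
  have h4 := fun a : Lt d => hmain (2 * d) (by omega) lam h3 (Lt d) _ _ hg (ra a)
    (fun x w hw => ra_step a x w hw) μ hμ
  exact ⟨(h4 0).1, fun a M η R hM hη hR => (h4 a).2 a (ra_self a) M η R hM hη hR⟩

/-! ### deterministic properties -/

section det

variable {ι : Type}

/-- pure point spectrum, exponential decay, simple eigenvalues -/
def Loc (T : LL ι →L[ℂ] LL ι) (V : ι → ℝ) (γ : ℝ) (r : ι → ℕ) : Prop :=
  (∀ (φ : LL ι) (m : Measure ℝ), SpR (RU T V) φ m → ∃ A : Set ℝ, A.Countable ∧ m Aᶜ = 0) ∧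
    (∀ (e : ℝ) (u : LL ι), (∀ p, T u p + ((V p : ℝ) : ℂ) * u p = (e : ℂ) * u p) →
        Summable fun x => Real.exp (γ * r x) * ‖u x‖ ^ 2) ∧
    ∀ (e : ℝ) (u v : LL ι),
      (∀ p, T u p + ((V p : ℝ) : ℂ) * u p = (e : ℂ) * u p) →
      (∀ p, T v p + ((V p : ℝ) : ℂ) * v p = (e : ℂ) * v p) → u ≠ 0 → ∃ a : ℂ, v = a • u

/-- eigenfunctions seen at `a` live in the ball of radius `R` -/
def Rad (T : LL ι →L[ℂ] LL ι) (V : ι → ℝ) (r : ι → ℕ) (a : ι) (E0 η : ℝ) (R : ℕ) : Prop :=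
  ∀ (n : ℕ) (u : Fin n → LL ι) (e : Fin n → ℝ), Orthonormal ℂ u →
    (∀ j p, T (u j) p + ((V p : ℝ) : ℂ) * u j p = ((e j : ℝ) : ℂ) * u j p) →
    (∀ j, |e j| ≤ E0) → ∀ S : Finset ι, (∀ x ∈ S, R < r x) →
      ∑ j, ∑ x ∈ S, ‖u j a‖ ^ 2 * ‖u j x‖ ^ 2 ≤ η

variable [Countable ι]

theorem mp_map (ν : Measure ℝ) [IsProbabilityMeasure ν] (f : ℝ → ℝ) (hf : Measurable f) :
    MeasurePreserving (fun (ω : ι → ℝ) (x : ι) => f (ω x))
      (Measure.infinitePi fun _ : ι => ν) (Measure.infinitePi fun _ : ι => ν.map f) :=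
  ⟨measurable_pi_iff.2 fun x => hf.comp (measurable_pi_apply x),
    Measure.infinitePi_map_pi (μ := fun _ : ι => ν) (f := fun (_ : ι) => f) (fun _ => hf)⟩

theorem ppd_map (ν : Measure ℝ) [IsProbabilityMeasure ν] (f g : ℝ → ℝ) (hf : Measurable f)
    (T : LL ι →L[ℂ] LL ι) (lam γ : ℝ) (r : ι → ℕ) (hg : ∀ v, lam * f v = g v)
    (h : PpD T lam (ν.map f) γ r) :
    ∀ᵐ ω ∂(Measure.infinitePi fun _ : ι => ν), Loc T (fun x => g (ω x)) γ r := by
  have h1 : ∀ᵐ ω ∂(Measure.infinitePi fun _ : ι => ν.map f), Loc T (fun x => lam * ω x) γ r := h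
  have h2 := (mp_map (ι := ι) ν f hf).quasiMeasurePreserving.ae h1
  filter_upwards [h2] with ω hω
  simp only [hg] at hω
  exact hω

theorem radb_map (ν : Measure ℝ) [IsProbabilityMeasure ν] (f g : ℝ → ℝ) (hf : Measurable f)
    (T : LL ι →L[ℂ] LL ι) (lam : ℝ) (r : ι → ℕ) (a : ι) (E0 η : ℝ) (R : ℕ)
    (hg : ∀ v, lam * f v = g v) (h : RadB T lam (ν.map f) r a E0 η R) :
    ∃ G : Set (ι → ℝ), MeasurableSet G ∧
      1 - η ≤ (Measure.infinitePi fun _ : ι => ν).real G ∧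
      ∀ ω ∈ G, Rad T (fun x => g (ω x)) r a E0 η R := by
  obtain ⟨G, hG1, hG2, hG3⟩ := h
  have hm := mp_map (ι := ι) ν f hf
  refine ⟨(fun (ω : ι → ℝ) (x : ι) => f (ω x)) ⁻¹' G, hm.measurable hG1, ?_, fun ω hω => ?_⟩
  · rw [hm.measureReal_preimage hG1.nullMeasurableSet]
    exact hG2
  · have h1 := hG3 _ hω
    simp only [hg] at h1
    exact h1

end det

end Pool.Agent.H121.SH
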