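import Pool.Agent.H121.SH.Iface
import Pool.Agent.H139.GA.LocU

/-! Project SH: localization for unbounded potentials from bounds of the averaged second moments. -/

set_option autoImplicit false
set_option linter.unusedSectionVars false

open scoped BigOperators InnerProductSpace Topology ENNReal
open Filter MeasureTheory

namespace Pool.Agent.H121.SH

open Pool.Agent.Y662.TR hiding wt
open Pool.Agent.TH369.MU (SpM ep zk spm_exists)
open Pool.Agent.TH369.MU.PO2 (ep_pos ep_tendsto)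
open Pool.Agent.H987.Z
open Pool.Agent.H121.Z987 (wt enorm_rpow zk_im ep_le lint_resample)
open Pool.Agent.H121.ME (Qw Qw_fin Qw_isFinite Qw_ae)
open Pool.Agent.H121.GA
open Pool.Agent.H139.GA (GW SU SU_meas TU TU_eq TU_meas GW_meas closR)

variable {ι : Type} [Countable ι]

/-- the second moments are bounded by `b y x`, `x ≠ y` -/
def Bnd (T : LL ι →L[ℂ] LL ι) (lam : ℝ) (μ : Measure ℝ) (b : ι → ι → ℝ≥0∞) : Prop :=
  ∀ x y : ι, x ≠ y → ∀ z : ℂ, 0 < z.im →
    ∫⁻ ω, ENNReal.ofReal (z.im * ‖GU T (fun p => lam * ω p) z x y‖ ^ 2)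
      ∂(Measure.infinitePi fun _ : ι => μ) ≤ b y x

theorem SV_int (hmU : S_mU) (w : ℝ → ℝ) (hw1 : ∀ E, w E ≤ wt E) (T : LL ι →L[ℂ] LL ι) (hT : Rs T)
    (lam : ℝ) (μ : Measure ℝ) [IsProbabilityMeasure μ] (b : ι → ι → ℝ≥0∞) (hb : Bnd T lam μ b)
    (x y : ι) (hxy : x ≠ y) (k : ℕ) :
    ∫⁻ ω, SU w T lam ω x y k ∂(Measure.infinitePi fun _ : ι => μ) ≤ Qw w Set.univ * b y x := by
  unfold SU
  have := Qw_isFinite w hw1
  have h2 : Measurable (Function.uncurry fun (E : ℝ) (ω : ι → ℝ) =>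
      ENNReal.ofReal (ep k * ‖GW T lam ω (zk E k) x y‖ ^ 2)) :=
    (((GW_meas hmU T hT lam k x y).norm.pow_const 2).const_mul _).ennreal_ofReal
  rw [← lintegral_lintegral_swap (μ := Qw w) (ν := Measure.infinitePi fun _ : ι => μ)
    (f := fun (E : ℝ) (ω : ι → ℝ) => ENNReal.ofReal
      (ep k * ‖GW T lam ω (zk E k) x y‖ ^ 2)) h2.aemeasurable]
  calc ∫⁻ E, ∫⁻ ω, ENNReal.ofReal
          (ep k * ‖GW T lam ω (zk E k) x y‖ ^ 2) ∂(Measure.infinitePi fun _ : ι => μ) ∂(Qw w) ≤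
        ∫⁻ _, b y x ∂(Qw w) := by
        refine lintegral_mono fun E => ?_
        have h3 := hb x y hxy (zk E k) (by rw [zk_im]; exact ep_pos k)
        rw [zk_im] at h3
        exact h3
    _ = _ := by
        rw [lintegral_const]
        ring

theorem TV_int (hmU : S_mU) (w : ℝ → ℝ) (hw1 : ∀ E, w E ≤ wt E) (T : LL ι →L[ℂ] LL ι) (hT : Rs T)
    (lam : ℝ) (μ : Measure ℝ) [IsProbabilityMeasure μ] (b : ι → ι → ℝ≥0∞) (hb : Bnd T lam μ b)
    (y : ι) (F : Finset ι) (hy : y ∈ F) (k : ℕ) :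
    ∫⁻ ω, TU w T lam ω y F k ∂(Measure.infinitePi fun _ : ι => μ) ≤
      Qw w Set.univ * ∑' x : {x : ι // x ∉ F}, b y x := by
  simp only [TU_eq hmU w T hT lam _ y F k]
  rw [lintegral_tsum fun x : {x : ι // x ∉ F} => (SU_meas hmU w hw1 T hT lam x y k).aemeasurable,
    ← ENNReal.tsum_mul_left]
  refine ENNReal.tsum_le_tsum fun x => SV_int hmU w hw1 T hT lam μ b hb x y ?_ k
  intro h
  exact x.2 (h ▸ hy)

/-- the final step in the environment -/
theorem ae_tightV (hmU : S_mU) (w : ℝ → ℝ) (hw1 : ∀ E, w E ≤ wt E) (T : LL ι →L[ℂ] LL ι)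
    (hT : Rs T) (lam : ℝ) (μ : Measure ℝ) [IsProbabilityMeasure μ] (b : ι → ι → ℝ≥0∞)
    (hb : Bnd T lam μ b) (y : ι) (hfs : ∑' x, b y x ≠ ∞) :
    ∀ᵐ ω ∂(Measure.infinitePi fun _ : ι => μ), ∀ δ : ℝ≥0∞, 0 < δ → ∃ F : Finset ι,
      liminf (fun k => TR w (RU T fun x => lam * ω x) y F k) atTop ≤ δ := by
  classical
  obtain ⟨B, hB⟩ : ∃ B, B = Qw w Set.univ := ⟨_, rfl⟩
  have hBtop : B ≠ ∞ := by
    rw [hB]
    exact Qw_fin w hw1
  have h0 : Tendsto (fun F : Finset ι => B * ∑' x : {x : ι // x ∉ F}, b y x) atTop (𝓝 0) := by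
    have h1 := ENNReal.tendsto_tsum_compl_atTop_zero hfs
    have h2 := ENNReal.Tendsto.const_mul h1 (Or.inr hBtop)
    rw [mul_zero] at h2
    exact h2
  have h3 : ∀ n : ℕ, ∃ F : Finset ι,
      B * ∑' x : {x : ι // x ∉ F}, b y x ≤ ((n : ℝ≥0∞) + 1)⁻¹ ∧ y ∈ F := by
    intro n
    have hpos : (0 : ℝ≥0∞) < ((n : ℝ≥0∞) + 1)⁻¹ := by
      refine ENNReal.inv_pos.2 ?_
      exact ENNReal.add_ne_top.2 ⟨ENNReal.natCast_ne_top n, ENNReal.one_ne_top⟩
    obtain ⟨F, hF, hF2⟩ := ((h0.eventually (ge_mem_nhds hpos)).and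
      (eventually_ge_atTop ({y} : Finset ι))).exists
    exact ⟨F, hF, hF2 (Finset.mem_singleton_self y)⟩
  choose F hF hyF using h3
  have hm : ∀ n, Measurable fun ω : ι → ℝ => liminf (fun k => TU w T lam ω y (F n) k) atTop :=
    fun n => Measurable.liminf fun k => TU_meas hmU w hw1 T hT lam y (F n) k
  have h4 : ∀ n, ∫⁻ ω, liminf (fun k => TU w T lam ω y (F n) k) atTop
      ∂(Measure.infinitePi fun _ : ι => μ) ≤ ((n : ℝ≥0∞) + 1)⁻¹ := by
    intro n
    refine (lintegral_liminf_le (μ := Measure.infinitePi fun _ : ι => μ) (u := atTop)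
      (f := fun k ω => TU w T lam ω y (F n) k)
      fun k => TU_meas hmU w hw1 T hT lam y (F n) k).trans ?_
    refine liminf_le_of_frequently_le' (Filter.Eventually.frequently ?_)
    filter_upwards with k
    refine (TV_int hmU w hw1 T hT lam μ b hb y (F n) (hyF n) k).trans ?_
    rw [← hB]
    exact hF n
  have h5 : ∫⁻ ω, ⨅ n, liminf (fun k => TU w T lam ω y (F n) k) atTop
      ∂(Measure.infinitePi fun _ : ι => μ) = 0 := by
    refine le_antisymm ?_ bot_le
    have h6 : Tendsto (fun n : ℕ => ((n : ℝ≥0∞) + 1)⁻¹) atTop (𝓝 0) := by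
      have h7 := ENNReal.tendsto_inv_nat_nhds_zero
      have h8 := (tendsto_add_atTop_iff_nat 1).2 h7
      refine h8.congr fun n => ?_
      push_cast
      rfl
    refine ge_of_tendsto' h6 fun n => le_trans ?_ (h4 n)
    exact lintegral_mono fun ω => iInf_le _ n
  rw [lintegral_eq_zero_iff (Measurable.iInf hm)] at h5
  filter_upwards [h5] with ω hω δ hδ
  have h6 : ⨅ n, liminf (fun k => TU w T lam ω y (F n) k) atTop < δ := by
    have : (⨅ n, liminf (fun k => TU w T lam ω y (F n) k) atTop) = 0 := hω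
    rw [this]
    exact hδ
  obtain ⟨n, hn⟩ := iInf_lt_iff.1 h6
  exact ⟨F n, hn.le⟩

theorem wt_cont : Continuous wt := by
  unfold Pool.Agent.H121.Z987.wt
  refine continuous_const.div (by fun_prop) fun x => ?_
  positivity

theorem wt_pos (E : ℝ) : 0 < wt E := by
  unfold Pool.Agent.H121.Z987.wt
  positivity

/-- **pure point spectrum** -/
theorem ppV (hruB : S_ruB) (hmU : S_mU) (hwien : S_wienR) (hclos : S_closR) (T : LL ι →L[ℂ] LL ι)
    (hT : Rs T) (lam : ℝ) (μ : Measure ℝ) [IsProbabilityMeasure μ] (b : ι → ι → ℝ≥0∞)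
    (hb : Bnd T lam μ b) (hfs : ∀ y, ∑' x, b y x ≠ ∞) :
    ∀ᵐ ω ∂(Measure.infinitePi fun _ : ι => μ),
      ∀ (φ : LL ι) (m : Measure ℝ), SpR (RU T fun x => lam * ω x) φ m →
        ∃ A : Set ℝ, A.Countable ∧ m Aᶜ = 0 := by
  have hU : {E | 0 < wt E} = Set.univ := Set.eq_univ_of_forall wt_pos
  have h1 : ∀ᵐ ω ∂(Measure.infinitePi fun _ : ι => μ), ∀ y : ι, ∀ δ : ℝ≥0∞, 0 < δ →
      ∃ F : Finset ι, liminf (fun k => TR wt (RU T fun x => lam * ω x) y F k) atTop ≤ δ := by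
    rw [ae_all_iff]
    intro y
    exact ae_tightV hmU wt (fun _ => le_rfl) T hT lam μ b hb y (hfs y)
  filter_upwards [h1] with ω hω φ m hm
  have hR : Rf (RU T fun x => lam * ω x) := hruB ι T hT _
  have h2 := closR hclos _ hR Set.univ MeasurableSet.univ (fun y => ?_) φ m hm
  · obtain ⟨A, hA1, hA2⟩ := h2
    refine ⟨A, hA1, ?_⟩
    rw [Set.compl_eq_univ_sdiff]
    exact hA2
  · obtain ⟨m', hm', -⟩ := hR.sp (dv y)
    obtain ⟨A, hA1, hA2⟩ := hwien wt wt_cont (fun E => (wt_pos E).le) (fun _ => le_rfl) ι _ hR y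
      (hω y) m' hm'
    rw [hU] at hA2
    exact ⟨m', A, hm', hA1, hA2⟩

/-- **exponential decay** -/
theorem decV (hmU : S_mU) (hWi : S_wiM) (hSi : S_simU) (T : LL ι →L[ℂ] LL ι)
    (hT : Rs T) (lam : ℝ) (hlam : 0 < lam) (μ : Measure ℝ) [IsProbabilityMeasure μ]
    (hat : ∀ v : ℝ, μ {v} = 0) (b : ι → ι → ℝ≥0∞)
    (hb : Bnd T lam μ b) (γ : ℝ) (hγ : 0 ≤ γ) (r : ι → ℕ)
    (hfs : ∀ y, ∑' x, b y x * ENNReal.ofReal (Real.exp (γ * r x)) ≠ ∞) :
    ∀ᵐ ω ∂(Measure.infinitePi fun _ : ι => μ), ∀ (e : ℝ) (u : LL ι),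
      (∀ p, T u p + ((lam * ω p : ℝ) : ℂ) * u p = (e : ℂ) * u p) →
        Summable fun x => Real.exp (γ * r x) * ‖u x‖ ^ 2 := by
  classical
  have h1 : ∀ᵐ ω ∂(Measure.infinitePi fun _ : ι => μ), ∀ y : ι,
      ∑' x : {x : ι // x ≠ y}, ENNReal.ofReal (Real.exp (γ * r x)) *
        liminf (fun k => SU wt T lam ω x y k) atTop ≠ ∞ := by
    rw [ae_all_iff]
    intro y
    have hm : Measurable fun ω : ι → ℝ => ∑' x : {x : ι // x ≠ y},
        ENNReal.ofReal (Real.exp (γ * r x)) * liminf (fun k => SU wt T lam ω x y k) atTop :=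
      Measurable.tsum fun x => (Measurable.liminf fun k =>
        SU_meas hmU wt (fun _ => le_rfl) T hT lam x y k).const_mul _
    have h2 : ∫⁻ ω, ∑' x : {x : ι // x ≠ y}, ENNReal.ofReal (Real.exp (γ * r x)) *
        liminf (fun k => SU wt T lam ω x y k) atTop ∂(Measure.infinitePi fun _ : ι => μ) ≠ ∞ := by
      rw [lintegral_tsum fun x : {x : ι // x ≠ y} => ((Measurable.liminf fun k =>
        SU_meas hmU wt (fun _ => le_rfl) T hT lam x y k).const_mul _).aemeasurable]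
      have h3 : ∀ x : {x : ι // x ≠ y}, ∫⁻ ω, ENNReal.ofReal (Real.exp (γ * r x)) *
          liminf (fun k => SU wt T lam ω x y k) atTop ∂(Measure.infinitePi fun _ : ι => μ) ≤
          Qw wt Set.univ * (b y x * ENNReal.ofReal (Real.exp (γ * r x))) := by
        intro x
        rw [lintegral_const_mul' _ _ ENNReal.ofReal_ne_top]
        have h4 : ∫⁻ ω, liminf (fun k => SU wt T lam ω x y k) atTop
            ∂(Measure.infinitePi fun _ : ι => μ) ≤ Qw wt Set.univ * b y x := by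
          refine (lintegral_liminf_le (μ := Measure.infinitePi fun _ : ι => μ) (u := atTop)
            (f := fun k ω => SU wt T lam ω x y k)
            fun k => SU_meas hmU wt (fun _ => le_rfl) T hT lam x y k).trans ?_
          refine liminf_le_of_frequently_le' (Filter.Eventually.frequently ?_)
          filter_upwards with k
          exact SV_int hmU wt (fun _ => le_rfl) T hT lam μ b hb x y x.2 k
        calc ENNReal.ofReal (Real.exp (γ * r x)) * ∫⁻ ω, liminf (fun k => SU wt T lam ω x y k) atTop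
            ∂(Measure.infinitePi fun _ : ι => μ) ≤
            ENNReal.ofReal (Real.exp (γ * r x)) * (Qw wt Set.univ * b y x) := by gcongr
          _ = _ := by ring
      refine ne_top_of_le_ne_top ?_ (ENNReal.tsum_le_tsum h3)
      rw [ENNReal.tsum_mul_left]
      refine ENNReal.mul_ne_top (Qw_fin wt fun _ => le_rfl) ?_
      refine ne_top_of_le_ne_top (hfs y) ?_
      exact ENNReal.tsum_comp_le_tsum_of_injective Subtype.val_injective
        (fun x => b y x * ENNReal.ofReal (Real.exp (γ * r x)))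
    have h5 := ae_lt_top hm h2
    filter_upwards [h5] with ω hω
    exact hω.ne
  filter_upwards [h1, hSi ι T hT lam hlam μ hat] with ω hω1 hω2 e u hu
  by_cases hu0 : u = 0
  · rw [hu0]
    simp only [lp.coeFn_zero, Pi.zero_apply, norm_zero]
    simpa using summable_zero
  · obtain ⟨y, hy⟩ : ∃ y, u y ≠ 0 := by
      by_contra hcon
      push Not at hcon
      exact hu0 (ll_ext hcon)
    have hun : 0 < ‖u‖ := norm_pos_iff.2 hu0
    obtain ⟨u', hu'⟩ : ∃ u' : LL ι, u' = ((‖u‖⁻¹ : ℝ) : ℂ) • u := ⟨_, rfl⟩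
    have hu'n : ‖u'‖ = 1 := by
      rw [hu', norm_smul]
      simp [hun.ne']
    have hu'x : ∀ x, u' x = ((‖u‖⁻¹ : ℝ) : ℂ) * u x := by
      intro x
      rw [hu']
      rfl
    have hu'e : ∀ p, T u' p + ((lam * ω p : ℝ) : ℂ) * u' p = (e : ℂ) * u' p := by
      intro p
      have h2 : T u' p = ((‖u‖⁻¹ : ℝ) : ℂ) * T u p := by
        rw [hu', map_smul]
        rfl
      rw [h2, hu'x, mul_left_comm, mul_left_comm (e : ℂ), ← hu p]
      ring
    have hu'0 : u' ≠ 0 := by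
      intro h
      rw [h, norm_zero] at hu'n
      exact zero_ne_one hu'n
    obtain ⟨κ, hκ⟩ : ∃ κ : ℝ, κ = Real.pi * wt e * ‖u' y‖ ^ 2 := ⟨_, rfl⟩
    have hu'y : u' y ≠ 0 := by
      rw [hu'x]
      refine mul_ne_zero ?_ hy
      simp [hun.ne']
    have hκ0 : 0 < κ := by
      rw [hκ]
      have := norm_pos_iff.2 hu'y
      have := Real.pi_pos
      have := wt_pos e
      positivity
    have h4 : ∑' x : {x : ι // x ≠ y}, ENNReal.ofReal (κ * (Real.exp (γ * r x) * ‖u' x‖ ^ 2)) ≠ ∞ := by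
      refine ne_top_of_le_ne_top (hω1 y) (ENNReal.tsum_le_tsum fun x => ?_)
      have h5 := hWi wt wt_cont (fun E => (wt_pos E).le) (fun _ => le_rfl) ι T hT
        (fun p => lam * ω p) x y 1 (fun _ => e) (fun _ => u') (fun _ => hu'e) (fun _ => hu'n)
        (Function.injective_of_subsingleton _) (fun _ v hv => hω2 e u' v hu'e hv hu'0)
      have h6 : κ * (Real.exp (γ * r x) * ‖u' x‖ ^ 2) =
          Real.exp (γ * r x) * (Real.pi * wt e * (‖u' x‖ ^ 2 * ‖u' y‖ ^ 2)) := by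
        rw [hκ]
        ring
      rw [h6, ENNReal.ofReal_mul (Real.exp_pos _).le]
      refine mul_le_mul_right ?_ _
      simpa [SU, GW] using h5
    have h5 : Summable fun x : {x : ι // x ≠ y} => κ * (Real.exp (γ * r x) * ‖u' x‖ ^ 2) := by
      have h6 := ENNReal.summable_toReal h4
      refine h6.congr fun x => ?_
      rw [ENNReal.toReal_ofReal (by positivity)]
    have h6 := h5.mul_left κ⁻¹
    have h7 : Summable fun x : {x : ι // x ≠ y} => Real.exp (γ * r x) * ‖u' x‖ ^ 2 := by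
      refine h6.congr fun x => ?_
      rw [← mul_assoc, inv_mul_cancel₀ hκ0.ne', one_mul]
    have h8 : Summable fun x : {x : ι // x ≠ y} => Real.exp (γ * r x) * ‖u x‖ ^ 2 := by
      refine (h7.mul_left (‖u‖ ^ 2)).congr fun x => ?_
      rw [hu'x, norm_mul, Complex.norm_real, Real.norm_of_nonneg (inv_nonneg.2 hun.le)]
      field_simp
    have h9 : Summable ((fun x => Real.exp (γ * r x) * ‖u x‖ ^ 2) ∘
        ((↑) : ({y} : Set ι).compl → ι)) := h8
    have h10 : Summable ((fun x => Real.exp (γ * r x) * ‖u x‖ ^ 2) ∘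
        ((↑) : ({y} : Set ι) → ι)) := by
      have : Finite ({y} : Set ι) := Set.finite_singleton y
      exact Summable.of_finite
    exact (summable_subtype_and_compl (s := ({y} : Set ι))
      (f := fun x => Real.exp (γ * r x) * ‖u x‖ ^ 2)).1 ⟨h10, h9⟩

end Pool.Agent.H121.SH
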