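import Pool.Agent.H121.SH.Gen
import Pool.Agent.H337.SH.Sch
import Pool.Agent.H591.SH.Pair
import Pool.Agent.H333.SH.One
import Pool.Agent.H339.SH.Two
import Pool.Agent.H339.SH.Meas
import Pool.Agent.H721.SH.Resn
import Pool.Agent.H105.SH.MainX
import Pool.Agent.H115.SH.Eta
import Pool.Agent.H686.SH.ParG
import Pool.Agent.H740.SH.SimU
import Pool.Agent.H881.SH.WiM
import Pool.Agent.H800.GA.ClosR
import Pool.Agent.H100.GA.Opb

/-! Project SH: complete localization with the constant of the tree, without hypotheses. -/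

set_option autoImplicit false

open scoped BigOperators InnerProductSpace Topology ENNReal
open Filter MeasureTheory

namespace Pool.Agent.H121.SH

open Pool.Agent.H987.Z (Rs)
open Pool.Agent.H987.Y (Op)

theorem sch_ok : S_sch := Pool.Agent.H337.SH.sch

theorem ker_rs (ι : Type) (K : ℕ) (t : ι → ι → ℝ) (N : ι → Finset ι) (ht : Grf K t N) :
    Rs (Op t) := (Pool.Agent.H168.Y987.op _ _ _ (Pool.Agent.H339.SH.grf_ker ht)).2.2.1

/-- **the theorem** -/
theorem main (D ε : ℝ) (hD : 0 < D) (hε : 0 < ε) :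
    ∃ (K0 : ℕ) (γ C : ℝ), 2 ≤ K0 ∧ 0 < γ ∧ 0 < C ∧
    ∀ K : ℕ, K0 ≤ K → ∀ lam : ℝ, (1 + ε) * (4 * D * K * Real.log K) ≤ lam →
    ∀ (ι : Type) [Countable ι] (t : ι → ι → ℝ) (N : ι → Finset ι), Grf K t N →
    ∀ r : ι → ℕ, (∀ x, ∀ w ∈ N x, r w ≤ r x + 1) →
    ∀ (μ : Measure ℝ) [IsProbabilityMeasure μ], Dn D μ →
      PpD (Op t) lam μ γ r ∧
      ∀ (a : ι), r a = 0 → ∀ (M η : ℝ) (R : ℕ), 0 < M → 0 < η → C * M * Real.exp (-(γ * R)) ≤ η ^ 2 →
        RadB (Op t) lam μ r a (M * lam) η R := by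
  have hru := Pool.Agent.H155.GA.ruA
  have hrf := Pool.Agent.H870.GA.ruB hru
  have hmU := Pool.Agent.H738.GA.mU hru Pool.Agent.H100.GA.opb
  have hone := Pool.Agent.H333.SH.one
  have hmeas := Pool.Agent.H339.SH.measR
  exact gen sch_ok
    (Pool.Agent.H721.SH.resn sch_ok (Pool.Agent.H591.SH.pair sch_ok) hone
      (Pool.Agent.H339.SH.two hone) hmeas)
    (Pool.Agent.H105.SH.mainx sch_ok hone hmeas) (Pool.Agent.H115.SH.eta sch_ok hmeas)
    Pool.Agent.H686.SH.ParG.parG hrf hmU Pool.Agent.H253.GA.wienR Pool.Agent.H800.GA.closR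
    Pool.Agent.H881.SH.wiM Pool.Agent.H740.SH.simU ker_rs D ε hD hε

end Pool.Agent.H121.SH
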