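import Pool.Agent.H121.SH.GenA
import Pool.Agent.H121.SH.FinG
import Pool.Agent.H872.SH.OneA
import Pool.Agent.H643.SH.TwoA
import Pool.Agent.H550.SH.ResnA
import Pool.Agent.H383.SH.MainA
import Pool.Agent.H23.SH.BA
import Pool.Agent.H740.SH.ParH

/-! Project SH, part M: without hypotheses. -/

set_option autoImplicit false
set_option linter.unusedSectionVars false

open scoped BigOperators InnerProductSpace Topology ENNReal
open Filter MeasureTheory

namespace Pool.Agent.H121.SH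

open Pool.Agent.Y662.TR (LL dv lmk ll_ext ll_summable)
open Pool.Agent.H987.Z (Rs SqS IsSp)
open Pool.Agent.H987.Y (Op Lt Ker)
open Pool.Agent.H121.MY (adj)

/-- **the theorem** -/
theorem mainA (D D' ε δ b : ℝ) (hD : 0 < D) (hD' : 0 < D') (hε : 0 < ε) (hδ : 0 < δ) :
    ∃ (K0 : ℕ) (γ C : ℝ), 2 ≤ K0 ∧ 0 < γ ∧ 0 < C ∧
    ∀ K : ℕ, K0 ≤ K → ∀ lam : ℝ, (1 + ε) * (4 * D * K * Real.log K) ≤ lam →
    ∀ (ι : Type) [Countable ι] (t : ι → ι → ℝ) (N : ι → Finset ι), Grf K t N →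
    ∀ r : ι → ℕ, (∀ x, ∀ w ∈ N x, r w ≤ r x + 1) →
    ∀ (μ : Measure ℝ) [IsProbabilityMeasure μ], Dn D' μ →
      (∀ B : Set ℝ, MeasurableSet B → μ (B ∩ {v | b - 2 * δ ≤ |v|}) ≤ ENNReal.ofReal D * volume B) →
      PpDI (Op t) lam μ γ r ((b - δ) * lam) ∧
      ∀ (a : ι), r a = 0 → ∀ (M η : ℝ) (R : ℕ), 0 < M → 0 < η → C * M * Real.exp (-(γ * R)) ≤ η ^ 2 →
        RadBI (Op t) lam μ r a (b * lam) (M * lam) η R := by
  have hru := Pool.Agent.H155.GA.ruA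
  have hrf := Pool.Agent.H870.GA.ruB hru
  have hmU := Pool.Agent.H738.GA.mU hru Pool.Agent.H100.GA.opb
  have hone := Pool.Agent.H333.SH.one
  have htwo := Pool.Agent.H339.SH.two hone
  have hmeas := Pool.Agent.H339.SH.measR
  have honeA := Pool.Agent.H872.SH.oneA
  have htwoA := Pool.Agent.H643.SH.twoA htwo
  exact genA sch_ok hmeas
    (Pool.Agent.H550.SH.resnA sch_ok (Pool.Agent.H591.SH.pair sch_ok) honeA htwoA hmeas)
    (Pool.Agent.H383.SH.mainA sch_ok honeA hmeas)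
    (Pool.Agent.H23.SH.bA hmeas)
    (Pool.Agent.H115.SH.eta sch_ok hmeas)
    Pool.Agent.H740.SH.parH hrf hmU Pool.Agent.H253.GA.wienR Pool.Agent.H800.GA.closR
    Pool.Agent.H881.SH.wiM Pool.Agent.H740.SH.simU ker_rs D D' ε δ b hD hD' hε hδ

end Pool.Agent.H121.SH
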