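import Pool.Agent.H121.SH.Iface
import Pool.Agent.H328.UE.Itr

/-! Project SH: the fractional moments are summable. -/

set_option autoImplicit false

open scoped BigOperators InnerProductSpace Topology ENNReal
open Filter MeasureTheory

namespace Pool.Agent.H121.SH

open Pool.Agent.Y662.TR (LL Cf Mw dv hu)
open Pool.Agent.H987.Z (Rs Gr)
open Pool.Agent.H987.Y (Ker Op Lt)
open Pool.Agent.TH369.MU (SpM ep zk)
open Pool.Agent.H121.Z987 (HH wt)
open Pool.Agent.H121.ME (Qw)
open Pool.Agent.H121.UE (rk)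
open Pool.Agent.H121.GA (GU RU Rf SpR)

variable {ι : Type}

/-- the supremum of the moments, `Im z ≥ 1/(k+1)` -/
noncomputable def Fk (μ : Measure ℝ) (lam s L : ℝ) (t : ι → ι → ℝ) (k : ℕ) (x y : ι) : ℝ≥0∞ :=
  ⨆ (Ω : Set ι) (z : ℂ) (_ : 1 / ((k : ℝ) + 1) ≤ z.im),
    max (fa μ lam s t Ω z x y) (ENNReal.ofReal L * fb μ lam s t Ω z x y)

theorem Fk_mono (μ : Measure ℝ) (lam s L : ℝ) (t : ι → ι → ℝ) (x y : ι) :
    Monotone fun k => Fk μ lam s L t k x y := by
  intro k l hkl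
  unfold Fk
  refine iSup_mono fun Ω => iSup_mono fun z => ?_
  refine iSup_le fun hz => ?_
  have h1 : 1 / ((l : ℝ) + 1) ≤ 1 / ((k : ℝ) + 1) := by
    apply one_div_le_one_div_of_le (by positivity)
    have : (k : ℝ) ≤ l := by exact_mod_cast hkl
    linarith
  exact le_iSup_of_le (h1.trans hz) le_rfl

theorem fa_le_Fk (μ : Measure ℝ) (lam s L : ℝ) (t : ι → ι → ℝ) (k : ℕ) (Ω : Set ι) (z : ℂ)
    (hz : 1 / ((k : ℝ) + 1) ≤ z.im) (x y : ι) : fa μ lam s t Ω z x y ≤ Fk μ lam s L t k x y :=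
  le_iSup_of_le Ω (le_iSup_of_le z (le_iSup_of_le hz (le_max_left _ _)))

theorem fb_le_Fk (μ : Measure ℝ) (lam s L : ℝ) (t : ι → ι → ℝ) (k : ℕ) (Ω : Set ι) (z : ℂ)
    (hz : 1 / ((k : ℝ) + 1) ≤ z.im) (x y : ι) :
    ENNReal.ofReal L * fb μ lam s t Ω z x y ≤ Fk μ lam s L t k x y :=
  le_iSup_of_le Ω (le_iSup_of_le z (le_iSup_of_le hz (le_max_right _ _)))

theorem gr_out (t : ι → ι → ℝ) (V : ι → ℝ) (Ω : Set ι) (z : ℂ) (x y : ι) (h : x ∉ Ω ∨ y ∉ Ω) :
    GR t V Ω z x y = 0 := by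
  unfold GR
  rw [if_neg]
  rintro ⟨h1, h2⟩
  rcases h with h | h
  · exact h h1
  · exact h h2

theorem fa_out (μ : Measure ℝ) (lam s : ℝ) (hs : 0 < s) (t : ι → ι → ℝ) (Ω : Set ι) (z : ℂ)
    (x y : ι) (h : x ∉ Ω ∨ y ∉ Ω) : fa μ lam s t Ω z x y = 0 := by
  unfold fa
  have h1 : (fun ω : ι → ℝ => ‖GR t (fun p => lam * ω p) Ω z x y‖ₑ ^ s) = fun _ => 0 := by
    funext ω
    rw [gr_out t _ Ω z x y h, enorm_zero, ENNReal.zero_rpow_of_pos hs]
  rw [h1, lintegral_zero]

theorem fb_le_fa (μ : Measure ℝ) (lam s : ℝ) (t : ι → ι → ℝ) (Ω : Set ι) (z : ℂ)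
    (x y : ι) : fb μ lam s t Ω z x y ≤ fa μ lam s t Ω z x y := by
  unfold fb fa
  exact lintegral_mono fun ω => Set.indicator_le_self _ _ _

open Classical in
/-- the weights -/
noncomputable def Ws (N : ι → Finset ι) (cm a b : ℝ≥0∞) (x v : ι) : ℝ≥0∞ :=
  ∑ x' ∈ N x, (cm * (if v = x' then 1 else 0) + a * ∑ r ∈ N x', (if v = r then 1 else 0) +
    b * ∑ w ∈ N x, (if v = w then 1 else 0))

open Classical in
/-- the source -/
noncomputable def Ss (N : ι → Finset ι) (c a : ℝ≥0∞) (x y : ι) : ℝ≥0∞ :=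
  (if y = x then c else 0) + a * ∑ x' ∈ N x, (if y = x' then 1 else 0)

open Classical in
theorem tsum_ite_mul (x : ι) (f : ι → ℝ≥0∞) : ∑' v, (if v = x then (1 : ℝ≥0∞) else 0) * f v = f x := by
  rw [tsum_eq_single x]
  · simp
  · intro b hb
    simp [hb]

open Classical in
theorem tsum_fin_ite_mul (s : Finset ι) (f : ι → ℝ≥0∞) :
    ∑' v, (∑ r ∈ s, if v = r then (1 : ℝ≥0∞) else 0) * f v = ∑ r ∈ s, f r := by
  simp only [Finset.sum_mul]
  rw [Summable.tsum_finsetSum fun i _ => ENNReal.summable]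
  exact Finset.sum_congr rfl fun r _ => tsum_ite_mul r f

open Classical in
theorem Ws_sum (N : ι → Finset ι) (cm a b : ℝ≥0∞) (x : ι) (f : ι → ℝ≥0∞) :
    ∑' v, Ws N cm a b x v * f v =
      ∑ x' ∈ N x, (cm * f x' + a * ∑ r ∈ N x', f r + b * ∑ w ∈ N x, f w) := by
  unfold Ws
  simp only [Finset.sum_mul]
  rw [Summable.tsum_finsetSum fun i _ => ENNReal.summable]
  refine Finset.sum_congr rfl fun x' _ => ?_
  simp only [add_mul]
  rw [ENNReal.tsum_add, ENNReal.tsum_add]
  congr 1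
  · congr 1
    · simp only [mul_assoc]
      rw [ENNReal.tsum_mul_left, tsum_ite_mul]
    · simp only [mul_assoc]
      rw [ENNReal.tsum_mul_left, tsum_fin_ite_mul]
  · simp only [mul_assoc]
    rw [ENNReal.tsum_mul_left, tsum_fin_ite_mul]

open Classical in
theorem Ss_sum (N : ι → Finset ι) (c a : ℝ≥0∞) (x : ι) (f : ι → ℝ≥0∞) :
    ∑' y, Ss N c a x y * f y = c * f x + a * ∑ x' ∈ N x, f x' := by
  unfold Ss
  simp only [add_mul]
  rw [ENNReal.tsum_add]
  congr 1
  · rw [tsum_eq_single x]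
    · simp
    · intro b hb
      simp [hb]
  · simp only [mul_assoc]
    rw [ENNReal.tsum_mul_left, tsum_fin_ite_mul]

open Classical in
theorem fo_le (hresn : S_resn) (D lam h : ℝ) (hD : 0 < D) (hlam : 1 ≤ lam) (hh : 0 < h)
    (hh2 : h ≤ 1 / 2) (μ : Measure ℝ) [IsProbabilityMeasure μ] (hμ : Dn D μ) [Countable ι] (K : ℕ)
    (t : ι → ι → ℝ) (N : ι → Finset ι) (ht : Grf K t N) (L : ℝ) (k : ℕ) (Ω : Set ι) (z : ℂ)
    (hz : 1 / ((k : ℝ) + 1) ≤ z.im) (x x' y : ι) (hx : x ∈ Ω) (hx' : x' ∈ N x) (hy : y ≠ x) :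
    fo μ lam (1 - h) t Ω z x x' y ≤
      ENNReal.ofReal (k1 D lam h) * ((if y = x' then 1 else 0) +
          ∑ r ∈ N x', Fk μ lam (1 - h) L t k r y) +
        ENNReal.ofReal (k2 D lam h) * ∑ w ∈ N x, Fk μ lam (1 - h) L t k w y := by
  have hz0 : 0 < z.im := lt_of_lt_of_le (by positivity) hz
  refine (hresn D lam h hD hlam hh hh2 μ hμ ι K t N ht Ω z x x' y hz0 hx hx' hy).trans ?_
  refine add_le_add (mul_le_mul_right (add_le_add le_rfl (Finset.sum_le_sum fun r _ => ?_)) _)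
    (mul_le_mul_right (Finset.sum_le_sum fun w _ => ?_) _)
  · exact fa_le_Fk μ lam (1 - h) L t k _ z hz r y
  · exact fa_le_Fk μ lam (1 - h) L t k _ z hz w y

open Classical in
theorem Fk_rec (hresn : S_resn) (hmain : S_mainx) (D lam h : ℝ) (hD : 0 < D) (hlam : 1 ≤ lam)
    (hh : 0 < h) (hh2 : h ≤ 1 / 2) (μ : Measure ℝ) [IsProbabilityMeasure μ] (hμ : Dn D μ)
    [Countable ι] (K : ℕ) (t : ι → ι → ℝ) (N : ι → Finset ι) (ht : Grf K t N) (L : ℝ) (hL : 1 ≤ L)
    (hcM : 0 ≤ cM D lam h) (hLc : cC D lam h ≤ L * cM D lam h) (k : ℕ) (x y : ι) :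
    Fk μ lam (1 - h) L t k x y ≤
      Ss N (ENNReal.ofReal (L * cM D lam h)) (ENNReal.ofReal (L * k1 D lam h)) x y +
      ∑' v, Ws N (ENNReal.ofReal (cM D lam h)) (ENNReal.ofReal (L * k1 D lam h))
        (ENNReal.ofReal (L * k2 D lam h)) x v * Fk μ lam (1 - h) L t k v y := by
  have hs : 0 < 1 - h := by linarith
  have hL0 : 0 ≤ L := by linarith
  rw [Ws_sum]
  refine iSup_le fun Ω => iSup_le fun z => iSup_le fun hz => ?_
  have hz0 : 0 < z.im := lt_of_lt_of_le (by positivity) hz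
  by_cases hx : x ∈ Ω
  · obtain ⟨h1, h2, h3⟩ := hmain D lam h hD hlam hh hh2 μ hμ ι K t N ht Ω z x hz0 hx
    by_cases hy : y = x
    · subst hy
      refine le_add_right ?_
      unfold Ss
      refine le_add_right ?_
      rw [if_pos rfl]
      refine max_le (h1.trans (ENNReal.ofReal_le_ofReal hLc)) ?_
      rw [ENNReal.ofReal_mul hL0]
      gcongr
    · obtain ⟨h4, h5⟩ := h3 y hy
      have h6 : ∀ x' ∈ N x, fo μ lam (1 - h) t Ω z x x' y ≤
          ENNReal.ofReal (k1 D lam h) * ((if y = x' then 1 else 0) +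
          ∑ r ∈ N x', Fk μ lam (1 - h) L t k r y) +
        ENNReal.ofReal (k2 D lam h) * ∑ w ∈ N x, Fk μ lam (1 - h) L t k w y := fun x' hx' =>
        fo_le hresn D lam h hD hlam hh hh2 μ hμ K t N ht L k Ω z hz x x' y hx hx' hy
      have h7 : ENNReal.ofReal (cC D lam h) * ∑ x' ∈ N x, fb μ lam (1 - h) t (Ω \ {x}) z x' y ≤
          ENNReal.ofReal (cM D lam h) * ∑ x' ∈ N x, Fk μ lam (1 - h) L t k x' y := by
        calc ENNReal.ofReal (cC D lam h) * ∑ x' ∈ N x, fb μ lam (1 - h) t (Ω \ {x}) z x' y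
            ≤ ENNReal.ofReal (L * cM D lam h) * ∑ x' ∈ N x, fb μ lam (1 - h) t (Ω \ {x}) z x' y := by
              gcongr
          _ = ENNReal.ofReal (cM D lam h) *
              ∑ x' ∈ N x, ENNReal.ofReal L * fb μ lam (1 - h) t (Ω \ {x}) z x' y := by
              rw [mul_comm L, ENNReal.ofReal_mul hcM, mul_assoc, Finset.mul_sum]
          _ ≤ _ := by
              gcongr with x' _
              exact fb_le_Fk μ lam (1 - h) L t k _ z hz x' y
      have h8 : ENNReal.ofReal L * (ENNReal.ofReal (cM D lam h) *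
          ∑ x' ∈ N x, fb μ lam (1 - h) t (Ω \ {x}) z x' y) ≤
          ENNReal.ofReal (cM D lam h) * ∑ x' ∈ N x, Fk μ lam (1 - h) L t k x' y := by
        rw [mul_left_comm, Finset.mul_sum]
        gcongr with x' _
        exact fb_le_Fk μ lam (1 - h) L t k _ z hz x' y
      have hL1 : (1 : ℝ≥0∞) ≤ ENNReal.ofReal L := by
        rw [← ENNReal.ofReal_one]
        exact ENNReal.ofReal_le_ofReal hL
      have h9 : max (fa μ lam (1 - h) t Ω z x y) (ENNReal.ofReal L * fb μ lam (1 - h) t Ω z x y) ≤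
          ENNReal.ofReal (cM D lam h) * ∑ x' ∈ N x, Fk μ lam (1 - h) L t k x' y +
          ENNReal.ofReal L * ∑ x' ∈ N x, fo μ lam (1 - h) t Ω z x x' y := by
        refine max_le ?_ ?_
        · refine h4.trans (add_le_add h7 ?_)
          calc ∑ x' ∈ N x, fo μ lam (1 - h) t Ω z x x' y
              = 1 * ∑ x' ∈ N x, fo μ lam (1 - h) t Ω z x x' y := (one_mul _).symm
            _ ≤ _ := by gcongr
        · calc ENNReal.ofReal L * fb μ lam (1 - h) t Ω z x y
              ≤ ENNReal.ofReal L * (ENNReal.ofReal (cM D lam h) *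
                  ∑ x' ∈ N x, fb μ lam (1 - h) t (Ω \ {x}) z x' y +
                  ∑ x' ∈ N x, fo μ lam (1 - h) t Ω z x x' y) := by gcongr
            _ ≤ _ := by
              rw [mul_add]
              exact add_le_add h8 le_rfl
      refine h9.trans ?_
      have h10 : ENNReal.ofReal L * ∑ x' ∈ N x, fo μ lam (1 - h) t Ω z x x' y ≤
          ∑ x' ∈ N x, (ENNReal.ofReal (L * k1 D lam h) * (if y = x' then 1 else 0) +
            (ENNReal.ofReal (L * k1 D lam h) * ∑ r ∈ N x', Fk μ lam (1 - h) L t k r y +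
            ENNReal.ofReal (L * k2 D lam h) * ∑ w ∈ N x, Fk μ lam (1 - h) L t k w y)) := by
        rw [Finset.mul_sum]
        refine Finset.sum_le_sum fun x' hx' => ?_
        calc ENNReal.ofReal L * fo μ lam (1 - h) t Ω z x x' y
            ≤ ENNReal.ofReal L * (ENNReal.ofReal (k1 D lam h) * ((if y = x' then 1 else 0) +
              ∑ r ∈ N x', Fk μ lam (1 - h) L t k r y) +
              ENNReal.ofReal (k2 D lam h) * ∑ w ∈ N x, Fk μ lam (1 - h) L t k w y) := by
              gcongr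
              exact h6 x' hx'
          _ = _ := by
              rw [ENNReal.ofReal_mul hL0, ENNReal.ofReal_mul hL0]
              ring
      have h11 : Ss N (ENNReal.ofReal (L * cM D lam h)) (ENNReal.ofReal (L * k1 D lam h)) x y =
          ∑ x' ∈ N x, ENNReal.ofReal (L * k1 D lam h) * (if y = x' then 1 else 0) := by
        unfold Ss
        rw [if_neg hy, zero_add, Finset.mul_sum]
      calc ENNReal.ofReal (cM D lam h) * ∑ x' ∈ N x, Fk μ lam (1 - h) L t k x' y +
          ENNReal.ofReal L * ∑ x' ∈ N x, fo μ lam (1 - h) t Ω z x x' y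
          ≤ ∑ x' ∈ N x, ENNReal.ofReal (cM D lam h) * Fk μ lam (1 - h) L t k x' y +
            ∑ x' ∈ N x, (ENNReal.ofReal (L * k1 D lam h) * (if y = x' then 1 else 0) +
            (ENNReal.ofReal (L * k1 D lam h) * ∑ r ∈ N x', Fk μ lam (1 - h) L t k r y +
            ENNReal.ofReal (L * k2 D lam h) * ∑ w ∈ N x, Fk μ lam (1 - h) L t k w y)) := by
            rw [Finset.mul_sum]
            exact add_le_add le_rfl h10
        _ = _ := by
            rw [h11, ← Finset.sum_add_distrib, ← Finset.sum_add_distrib]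
            refine Finset.sum_congr rfl fun x' _ => ?_
            ring
  · have h1 : fa μ lam (1 - h) t Ω z x y = 0 := fa_out μ lam (1 - h) hs t Ω z x y (Or.inl hx)
    have h2 : fb μ lam (1 - h) t Ω z x y = 0 := by
      have := fb_le_fa μ lam (1 - h) t Ω z x y
      rw [h1] at this
      exact le_antisymm this bot_le
    rw [h1, h2, mul_zero, max_self]
    exact bot_le

theorem Fk_bd (hsch : S_sch) (lam s L : ℝ) (hs : 0 < s) (hL : 1 ≤ L) (μ : Measure ℝ)
    [IsProbabilityMeasure μ] (K : ℕ) (t : ι → ι → ℝ) (N : ι → Finset ι) (ht : Grf K t N) (k : ℕ)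
    (x y : ι) : Fk μ lam s L t k x y ≤ ENNReal.ofReal L * (ENNReal.ofReal ((k : ℝ) + 1)) ^ s := by
  refine iSup_le fun Ω => iSup_le fun z => iSup_le fun hz => ?_
  have hz0 : 0 < z.im := lt_of_lt_of_le (by positivity) hz
  have h1 : fa μ lam s t Ω z x y ≤ (ENNReal.ofReal ((k : ℝ) + 1)) ^ s := by
    unfold fa
    calc ∫⁻ ω, ‖GR t (fun p => lam * ω p) Ω z x y‖ₑ ^ s ∂(Measure.infinitePi fun _ : ι => μ)
        ≤ ∫⁻ ω, (ENNReal.ofReal ((k : ℝ) + 1)) ^ s ∂(Measure.infinitePi fun _ : ι => μ) := by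
          refine lintegral_mono fun ω => ?_
          refine ENNReal.rpow_le_rpow ?_ hs.le
          rw [← ofReal_norm_eq_enorm]
          refine ENNReal.ofReal_le_ofReal ?_
          refine ((hsch ι K t N ht (fun p => lam * ω p) Ω z hz0).2.2.1 x y).trans ?_
          rw [div_le_iff₀ hz0]
          rw [div_le_iff₀ (by positivity)] at hz
          linarith
      _ = _ := by simp
  have hL1 : (1 : ℝ≥0∞) ≤ ENNReal.ofReal L := by
    rw [← ENNReal.ofReal_one]
    exact ENNReal.ofReal_le_ofReal hL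
  refine max_le ?_ ?_
  · calc fa μ lam s t Ω z x y ≤ 1 * (ENNReal.ofReal ((k : ℝ) + 1)) ^ s := by rw [one_mul]; exact h1
      _ ≤ _ := by gcongr
  · gcongr
    exact (fb_le_fa μ lam s t Ω z x y).trans h1

theorem k1_nonneg (D lam h : ℝ) (hD : 0 < D) (hh : 0 < h) : 0 ≤ k1 D lam h := by
  unfold k1
  positivity

theorem cC_nonneg (D lam h : ℝ) (hD : 0 < D) (hlam : 1 ≤ lam) (hh : 0 < h) : 0 ≤ cC D lam h := by
  unfold cC
  have : 0 < lam := by linarith
  positivity

theorem k2_nonneg (D lam h : ℝ) (hD : 0 < D) (hlam : 1 ≤ lam) (hh : 0 < h) : 0 ≤ k2 D lam h := by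
  unfold k2
  have := cC_nonneg D lam h hD hlam hh
  positivity

theorem cM_nonneg (D lam h : ℝ) (hD : 0 < D) (hlam : 1 ≤ lam) (hh : 0 < h) : 0 ≤ cM D lam h := by
  unfold cM
  have h0 : 0 < lam := by linarith
  have h1 : lam ^ (-h) ≤ lam ^ h := Real.rpow_le_rpow_of_exponent_le hlam (by linarith)
  have h2 : 0 ≤ (lam ^ h - lam ^ (-h)) / h := div_nonneg (by linarith) hh.le
  have h3 : 0 < lam ^ (-h) := Real.rpow_pos_of_pos h0 _
  have h4 : 0 < lam ^ (h - 1) := Real.rpow_pos_of_pos h0 _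
  positivity

open Classical in
/-- **the moments are summable**, `Im z ≥ 1/(k+1)` -/
theorem Fk_sum (hsch : S_sch) (hresn : S_resn) (hmain : S_mainx) (D lam h : ℝ) (hD : 0 < D)
    (hlam : 1 ≤ lam) (hh : 0 < h) (hh2 : h ≤ 1 / 2) (μ : Measure ℝ) [IsProbabilityMeasure μ]
    (hμ : Dn D μ) [Countable ι] (K : ℕ) (t : ι → ι → ℝ) (N : ι → Finset ι) (ht : Grf K t N) (L : ℝ)
    (hL : 1 ≤ L) (hLc : cC D lam h ≤ L * cM D lam h) (γ q : ℝ) (hγ : 0 ≤ γ) (hq : q < 1)
    (hw : Real.exp (2 * γ) * (K * cM D lam h + L * K ^ 2 * (k1 D lam h + k2 D lam h)) ≤ q)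
    (r : ι → ℕ) (hr : ∀ x, ∀ w ∈ N x, r w ≤ r x + 1) (k : ℕ) (x : ι) :
    ∑' y, Fk μ lam (1 - h) L t k x y * ENNReal.ofReal (Real.exp (γ * r y)) ≤
      ENNReal.ofReal ((L * cM D lam h + L * k1 D lam h * (K * Real.exp γ)) / (1 - q)) *
        ENNReal.ofReal (Real.exp (γ * r x)) := by
  have hs : 0 < 1 - h := by linarith
  have hL0 : 0 ≤ L := by linarith
  have hcM := cM_nonneg D lam h hD hlam hh
  have hk1 := k1_nonneg D lam h hD hh
  have hk2 := k2_nonneg D lam h hD hlam hh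
  have hE1 : 1 ≤ Real.exp γ := Real.one_le_exp hγ
  have hE2 : Real.exp (2 * γ) = Real.exp γ * Real.exp γ := by rw [← Real.exp_add]; ring_nf
  have hq0 : 0 ≤ q := le_trans (by positivity) hw
  have hρ1 : ∀ x w, r w ≤ r x + 1 → ENNReal.ofReal (Real.exp (γ * r w)) ≤
      ENNReal.ofReal (Real.exp γ) * ENNReal.ofReal (Real.exp (γ * r x)) := by
    intro x w hxw
    rw [← ENNReal.ofReal_mul (Real.exp_pos _).le, ← Real.exp_add]
    apply ENNReal.ofReal_le_ofReal
    apply Real.exp_le_exp.2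
    have h1 : (r w : ℝ) ≤ r x + 1 := by exact_mod_cast hxw
    nlinarith
  have hcard : ∀ x, ((N x).card : ℝ≥0∞) ≤ (K : ℝ≥0∞) := by
    intro x
    exact_mod_cast ht.cd x
  have hsum1 : ∀ x, ∑ w ∈ N x, ENNReal.ofReal (Real.exp (γ * r w)) ≤
      (K : ℝ≥0∞) * (ENNReal.ofReal (Real.exp γ) * ENNReal.ofReal (Real.exp (γ * r x))) := by
    intro x
    calc ∑ w ∈ N x, ENNReal.ofReal (Real.exp (γ * r w))
        ≤ ∑ w ∈ N x, ENNReal.ofReal (Real.exp γ) * ENNReal.ofReal (Real.exp (γ * r x)) :=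
          Finset.sum_le_sum fun w hw => hρ1 x w (hr x w hw)
      _ = ((N x).card : ℝ≥0∞) * (ENNReal.ofReal (Real.exp γ) * ENNReal.ofReal (Real.exp (γ * r x))) := by
          rw [Finset.sum_const, nsmul_eq_mul]
      _ ≤ _ := by gcongr; exact ht.cd x
  have hKr : (K : ℝ≥0∞) = ENNReal.ofReal (K : ℝ) := by
    rw [ENNReal.ofReal_natCast]
  have key := Pool.Agent.H328.UE.itr ι (Fk μ lam (1 - h) L t k)
    (Ss N (ENNReal.ofReal (L * cM D lam h)) (ENNReal.ofReal (L * k1 D lam h)))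
    (Ws N (ENNReal.ofReal (cM D lam h)) (ENNReal.ofReal (L * k1 D lam h))
        (ENNReal.ofReal (L * k2 D lam h)))
    (fun y => ENNReal.ofReal (Real.exp (γ * r y)))
    (ENNReal.ofReal L * (ENNReal.ofReal ((k : ℝ) + 1)) ^ (1 - h))
    (ENNReal.ofReal (L * cM D lam h + L * k1 D lam h * (K * Real.exp γ)))
    (ENNReal.ofReal q)
    (ENNReal.mul_ne_top ENNReal.ofReal_ne_top
      (ENNReal.rpow_ne_top_of_nonneg hs.le ENNReal.ofReal_ne_top))
    ENNReal.ofReal_ne_top
    (by rw [← ENNReal.ofReal_one]; exact (ENNReal.ofReal_lt_ofReal_iff one_pos).2 hq)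
    (by
      intro x
      show 1 ≤ ENNReal.ofReal (Real.exp (γ * r x))
      rw [← ENNReal.ofReal_one]
      exact ENNReal.ofReal_le_ofReal (Real.one_le_exp (by positivity)))
    (fun x => ENNReal.ofReal_ne_top)
    (Fk_bd hsch lam (1 - h) L hs hL μ K t N ht k)
    (by
      intro x
      rw [Ss_sum]
      calc ENNReal.ofReal (L * cM D lam h) * ENNReal.ofReal (Real.exp (γ * r x)) +
          ENNReal.ofReal (L * k1 D lam h) * ∑ x' ∈ N x, ENNReal.ofReal (Real.exp (γ * r x'))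
          ≤ ENNReal.ofReal (L * cM D lam h) * ENNReal.ofReal (Real.exp (γ * r x)) +
          ENNReal.ofReal (L * k1 D lam h) * ((K : ℝ≥0∞) * (ENNReal.ofReal (Real.exp γ) *
            ENNReal.ofReal (Real.exp (γ * r x)))) := by
            gcongr
            exact hsum1 x
        _ = _ := by
            rw [ENNReal.ofReal_add (by positivity) (by positivity), ENNReal.ofReal_mul
              (p := L * k1 D lam h) (by positivity), ENNReal.ofReal_mul (p := (K : ℝ)) (by positivity),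
              hKr]
            ring)
    (by
      intro x
      rw [Ws_sum]
      have h2 : ∀ x' ∈ N x, ENNReal.ofReal (cM D lam h) * ENNReal.ofReal (Real.exp (γ * r x')) +
          ENNReal.ofReal (L * k1 D lam h) * ∑ v ∈ N x', ENNReal.ofReal (Real.exp (γ * r v)) +
          ENNReal.ofReal (L * k2 D lam h) * ∑ w ∈ N x, ENNReal.ofReal (Real.exp (γ * r w)) ≤
          ENNReal.ofReal (Real.exp (2 * γ) * (cM D lam h + L * K * (k1 D lam h + k2 D lam h))) *
            ENNReal.ofReal (Real.exp (γ * r x)) := by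
        intro x' hx'
        have h3 := hρ1 x x' (hr x x' hx')
        have h4 := hsum1 x'
        have h5 := hsum1 x
        have hE12 : ENNReal.ofReal (Real.exp γ) ≤ ENNReal.ofReal (Real.exp (2 * γ)) := by
          apply ENNReal.ofReal_le_ofReal
          rw [hE2]
          nlinarith
        have hE22 : ENNReal.ofReal (Real.exp γ) * ENNReal.ofReal (Real.exp γ) =
            ENNReal.ofReal (Real.exp (2 * γ)) := by
          rw [hE2, ENNReal.ofReal_mul (Real.exp_pos _).le]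
        calc ENNReal.ofReal (cM D lam h) * ENNReal.ofReal (Real.exp (γ * r x')) +
          ENNReal.ofReal (L * k1 D lam h) * ∑ v ∈ N x', ENNReal.ofReal (Real.exp (γ * r v)) +
          ENNReal.ofReal (L * k2 D lam h) * ∑ w ∈ N x, ENNReal.ofReal (Real.exp (γ * r w))
            ≤ ENNReal.ofReal (cM D lam h) * (ENNReal.ofReal (Real.exp (2 * γ)) *
                ENNReal.ofReal (Real.exp (γ * r x))) +
              ENNReal.ofReal (L * k1 D lam h) * ((K : ℝ≥0∞) * (ENNReal.ofReal (Real.exp γ) *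
                (ENNReal.ofReal (Real.exp γ) * ENNReal.ofReal (Real.exp (γ * r x))))) +
              ENNReal.ofReal (L * k2 D lam h) * ((K : ℝ≥0∞) * (ENNReal.ofReal (Real.exp (2 * γ)) *
                ENNReal.ofReal (Real.exp (γ * r x)))) := by
              refine add_le_add (add_le_add ?_ ?_) ?_
              · exact mul_le_mul_right (h3.trans (mul_le_mul_left hE12 _)) _
              · exact mul_le_mul_right (h4.trans (mul_le_mul_right (mul_le_mul_right h3 _) _)) _
              · exact mul_le_mul_right (h5.trans (mul_le_mul_right (mul_le_mul_left hE12 _) _)) _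
          _ = (ENNReal.ofReal (cM D lam h) + ENNReal.ofReal (L * k1 D lam h) * (K : ℝ≥0∞) +
              ENNReal.ofReal (L * k2 D lam h) * (K : ℝ≥0∞)) * (ENNReal.ofReal (Real.exp (2 * γ)) *
                ENNReal.ofReal (Real.exp (γ * r x))) := by
              rw [← hE22]
              ring
          _ = _ := by
              rw [hKr, ← ENNReal.ofReal_mul (by positivity), ← ENNReal.ofReal_mul (by positivity),
                ← ENNReal.ofReal_add (by positivity) (by positivity),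
                ← ENNReal.ofReal_add (by positivity) (by positivity), ← mul_assoc,
                ← ENNReal.ofReal_mul (by positivity)]
              congr 2
              ring
      refine (Finset.sum_le_sum h2).trans ?_
      rw [Finset.sum_const, nsmul_eq_mul, ← mul_assoc]
      refine mul_le_mul_left ?_ _
      calc ((N x).card : ℝ≥0∞) * ENNReal.ofReal (Real.exp (2 * γ) *
            (cM D lam h + L * K * (k1 D lam h + k2 D lam h)))
          ≤ (K : ℝ≥0∞) * ENNReal.ofReal (Real.exp (2 * γ) *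
            (cM D lam h + L * K * (k1 D lam h + k2 D lam h))) := by
            gcongr
            exact ht.cd x
        _ = ENNReal.ofReal (Real.exp (2 * γ) * (K * cM D lam h + L * K ^ 2 *
              (k1 D lam h + k2 D lam h))) := by
            rw [hKr, ← ENNReal.ofReal_mul (by positivity)]
            congr 1
            ring
        _ ≤ _ := ENNReal.ofReal_le_ofReal hw)
    (Fk_rec hresn hmain D lam h hD hlam hh hh2 μ hμ K t N ht L hL hcM hLc k) x
  refine key.trans (le_of_eq ?_)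
  rw [← ENNReal.ofReal_one, ← ENNReal.ofReal_sub 1 hq0, ← ENNReal.ofReal_inv_of_pos (by linarith),
    ← ENNReal.ofReal_mul (by positivity), div_eq_mul_inv]

/-- the supremum of the moments, `Im z > 0` -/
noncomputable def Fi (μ : Measure ℝ) (lam s L : ℝ) (t : ι → ι → ℝ) (x y : ι) : ℝ≥0∞ :=
  ⨆ k : ℕ, Fk μ lam s L t k x y

theorem fa_le_Fi (μ : Measure ℝ) (lam s L : ℝ) (t : ι → ι → ℝ) (Ω : Set ι) (z : ℂ)
    (hz : 0 < z.im) (x y : ι) : fa μ lam s t Ω z x y ≤ Fi μ lam s L t x y := by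
  obtain ⟨k, hk⟩ := exists_nat_one_div_lt hz
  exact (fa_le_Fk μ lam s L t k Ω z hk.le x y).trans (le_iSup (fun k => Fk μ lam s L t k x y) k)

/-- **the moments are summable** -/
theorem Fi_sum (hsch : S_sch) (hresn : S_resn) (hmain : S_mainx) (D lam h : ℝ) (hD : 0 < D)
    (hlam : 1 ≤ lam) (hh : 0 < h) (hh2 : h ≤ 1 / 2) (μ : Measure ℝ) [IsProbabilityMeasure μ]
    (hμ : Dn D μ) [Countable ι] (K : ℕ) (t : ι → ι → ℝ) (N : ι → Finset ι) (ht : Grf K t N) (L : ℝ)
    (hL : 1 ≤ L) (hLc : cC D lam h ≤ L * cM D lam h) (γ q : ℝ) (hγ : 0 ≤ γ) (hq : q < 1)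
    (hw : Real.exp (2 * γ) * (K * cM D lam h + L * K ^ 2 * (k1 D lam h + k2 D lam h)) ≤ q)
    (r : ι → ℕ) (hr : ∀ x, ∀ w ∈ N x, r w ≤ r x + 1) (x : ι) :
    ∑' y, Fi μ lam (1 - h) L t x y * ENNReal.ofReal (Real.exp (γ * r y)) ≤
      ENNReal.ofReal ((L * cM D lam h + L * k1 D lam h * (K * Real.exp γ)) / (1 - q)) *
        ENNReal.ofReal (Real.exp (γ * r x)) := by
  rw [ENNReal.tsum_eq_iSup_sum]
  refine iSup_le fun A => ?_
  unfold Fi
  simp only [ENNReal.iSup_mul]
  rw [ENNReal.finsetSum_iSup_of_monotone]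
  · refine iSup_le fun k => ?_
    refine (ENNReal.sum_le_tsum A).trans ?_
    exact Fk_sum hsch hresn hmain D lam h hD hlam hh hh2 μ hμ K t N ht L hL hLc γ q hγ hq hw r hr k x
  · intro y k l hkl
    exact mul_le_mul_left (Fk_mono μ lam (1 - h) L t x y hkl) _

end Pool.Agent.H121.SH
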