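import Pool.Agent.H121.SH.IfM
import Pool.Agent.H121.SH.Rec

/-! Project SH, part M: the fractional moments are summable. -/

set_option autoImplicit false

open scoped BigOperators InnerProductSpace Topology ENNReal
open Filter MeasureTheory

namespace Pool.Agent.H121.SH

open Pool.Agent.H987.Z (Rs Gr)
open Pool.Agent.H987.Y (Ker Op Lt)

variable {ι : Type}

/-- the supremum of the moments, `Im z ≥ 1/(k+1)`, `Re z ∈ I` -/
noncomputable def FkA (μ : Measure ℝ) (A I : Set ℝ) (lam s L M1 : ℝ) (t : ι → ι → ℝ) (k : ℕ)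
    (x y : ι) : ℝ≥0∞ :=
  ⨆ (Ω : Set ι) (z : ℂ) (_ : 1 / ((k : ℝ) + 1) ≤ z.im ∧ z.re ∈ I),
    max (max (faA μ A lam s t Ω z x y) (ENNReal.ofReal L * fbA μ A lam s t Ω z x y))
      (ENNReal.ofReal M1 * faA μ Aᶜ lam s t Ω z x y)

theorem FkA_mono (μ : Measure ℝ) (A I : Set ℝ) (lam s L M1 : ℝ) (t : ι → ι → ℝ) (x y : ι) :
    Monotone fun k => FkA μ A I lam s L M1 t k x y := by
  intro k l hkl
  unfold FkA
  refine iSup_mono fun Ω => iSup_mono fun z => ?_
  refine iSup_le fun hz => ?_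
  have h1 : 1 / ((l : ℝ) + 1) ≤ 1 / ((k : ℝ) + 1) := by
    apply one_div_le_one_div_of_le (by positivity)
    have : (k : ℝ) ≤ l := by exact_mod_cast hkl
    linarith
  exact le_iSup_of_le ⟨h1.trans hz.1, hz.2⟩ le_rfl

section bds

variable (μ : Measure ℝ) (A I : Set ℝ) (lam s L M1 : ℝ) (t : ι → ι → ℝ) (k : ℕ) (Ω : Set ι) (z : ℂ)
  (hz : 1 / ((k : ℝ) + 1) ≤ z.im) (hzI : z.re ∈ I) (x y : ι)

include hz hzI

theorem faA_le_FkA : faA μ A lam s t Ω z x y ≤ FkA μ A I lam s L M1 t k x y :=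
  le_iSup_of_le Ω (le_iSup_of_le z (le_iSup_of_le ⟨hz, hzI⟩
    ((le_max_left _ _).trans (le_max_left _ _))))

theorem fbA_le_FkA :
    ENNReal.ofReal L * fbA μ A lam s t Ω z x y ≤ FkA μ A I lam s L M1 t k x y :=
  le_iSup_of_le Ω (le_iSup_of_le z (le_iSup_of_le ⟨hz, hzI⟩
    ((le_max_right _ _).trans (le_max_left _ _))))

theorem fcA_le_FkA :
    ENNReal.ofReal M1 * faA μ Aᶜ lam s t Ω z x y ≤ FkA μ A I lam s L M1 t k x y :=
  le_iSup_of_le Ω (le_iSup_of_le z (le_iSup_of_le ⟨hz, hzI⟩ (le_max_right _ _)))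

end bds

theorem faA_le_fa (μ : Measure ℝ) (A : Set ℝ) (lam s : ℝ) (t : ι → ι → ℝ) (Ω : Set ι) (z : ℂ)
    (x y : ι) : faA μ A lam s t Ω z x y ≤ fa μ lam s t Ω z x y := by
  unfold faA fa
  exact lintegral_mono fun ω => Set.indicator_le_self _ _ _

theorem fbA_le_fa (μ : Measure ℝ) (A : Set ℝ) (lam s : ℝ) (t : ι → ι → ℝ) (Ω : Set ι) (z : ℂ)
    (x y : ι) : fbA μ A lam s t Ω z x y ≤ fa μ lam s t Ω z x y := by
  unfold fbA fa
  exact lintegral_mono fun ω => Set.indicator_le_self _ _ _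

theorem fa_split (hmeas : S_measR) [Countable ι] (μ : Measure ℝ) [IsProbabilityMeasure μ]
    (A : Set ℝ) (hA : MeasurableSet A) (lam s : ℝ) (K : ℕ) (t : ι → ι → ℝ) (N : ι → Finset ι)
    (ht : Grf K t N) (Ω : Set ι) (z : ℂ) (hz : z.im ≠ 0) (x y : ι) :
    fa μ lam s t Ω z x y = faA μ A lam s t Ω z x y + faA μ Aᶜ lam s t Ω z x y := by
  have hm : Measurable fun ω : ι → ℝ => ‖GR t (fun p => lam * ω p) Ω z x y‖ₑ ^ s :=
    (hmeas ι K t N ht lam Ω z x y hz).enorm.pow_const s
  have hS : MeasurableSet {ω : ι → ℝ | ω x ∈ A} := measurable_pi_apply x hA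
  unfold fa faA
  rw [← lintegral_add_left (hm.indicator hS)]
  refine lintegral_congr fun ω => ?_
  by_cases h : ω x ∈ A
  · rw [Set.indicator_of_mem (show ω ∈ {ω : ι → ℝ | ω x ∈ A} from h), Set.indicator_of_notMem
      (show ω ∉ {ω : ι → ℝ | ω x ∈ Aᶜ} from fun h2 => h2 h), add_zero]
  · rw [Set.indicator_of_notMem (show ω ∉ {ω : ι → ℝ | ω x ∈ A} from h), Set.indicator_of_mem
      (show ω ∈ {ω : ι → ℝ | ω x ∈ Aᶜ} from h), zero_add]

theorem fa_le_FkA (hmeas : S_measR) [Countable ι] (μ : Measure ℝ) [IsProbabilityMeasure μ]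
    (A I : Set ℝ) (hA : MeasurableSet A) (lam s L M1 : ℝ) (hM : 1 ≤ M1) (K : ℕ) (t : ι → ι → ℝ)
    (N : ι → Finset ι) (ht : Grf K t N) (k : ℕ) (Ω : Set ι) (z : ℂ)
    (hz : 1 / ((k : ℝ) + 1) ≤ z.im) (hzI : z.re ∈ I) (x y : ι) :
    fa μ lam s t Ω z x y ≤ 2 * FkA μ A I lam s L M1 t k x y := by
  have hz0 : 0 < z.im := lt_of_lt_of_le (by positivity) hz
  rw [fa_split hmeas μ A hA lam s K t N ht Ω z hz0.ne' x y, two_mul]
  refine add_le_add (faA_le_FkA μ A I lam s L M1 t k Ω z hz hzI x y) ?_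
  refine le_trans ?_ (fcA_le_FkA μ A I lam s L M1 t k Ω z hz hzI x y)
  have h1 : (1 : ℝ≥0∞) ≤ ENNReal.ofReal M1 := by
    rw [← ENNReal.ofReal_one]
    exact ENNReal.ofReal_le_ofReal hM
  calc faA μ Aᶜ lam s t Ω z x y = 1 * faA μ Aᶜ lam s t Ω z x y := (one_mul _).symm
    _ ≤ _ := by gcongr

open Classical in
theorem FkA_rec (hmeas : S_measR) (hresn : S_resnA) (hmain : S_mainA) (hbA : S_bA) (D lam h δ : ℝ)
    (hD : 0 < D) (hlam : 1 ≤ lam) (hh : 0 < h) (hh2 : h ≤ 1 / 2) (hδ : 0 < δ) (μ : Measure ℝ)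
    [IsProbabilityMeasure μ] (A I : Set ℝ) (hA : MeasurableSet A) (hμ : Sn D (μ.restrict A))
    (hI : ∀ E ∈ I, ∀ v : ℝ, v ∉ A → δ ≤ |lam * v - E|)
    [Countable ι] (K : ℕ) (t : ι → ι → ℝ) (N : ι → Finset ι) (ht : Grf K t N) (L M1 : ℝ)
    (hL : 1 ≤ L) (hM : 1 ≤ M1)
    (hcM : 0 ≤ cM D lam h) (hLc : cC D lam h ≤ L * cM D lam h) (k : ℕ) (x y : ι) :
    FkA μ A I lam (1 - h) L M1 t k x y ≤
      Ss N (ENNReal.ofReal (L * cM D lam h + M1 * δ ^ (-(1 - h))))
        (ENNReal.ofReal (L * k1 D lam h)) x y +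
      ∑' v, Ws N (ENNReal.ofReal (cM D lam h * (1 + L / M1) + 2 * M1 * δ ^ (-(1 - h))))
        (ENNReal.ofReal (2 * L * k1 D lam h))
        (ENNReal.ofReal (2 * L * k2 D lam h)) x v * FkA μ A I lam (1 - h) L M1 t k v y := by
  have hs : 0 < 1 - h := by linarith
  have hs1 : 1 - h ≤ 1 := by linarith
  have hL0 : 0 ≤ L := by linarith
  have hM0 : 0 < M1 := by linarith
  have hP0 : 0 ≤ δ ^ (-(1 - h)) := Real.rpow_nonneg hδ.le _
  have hk1 := k1_nonneg D lam h hD hh
  have hk2 := k2_nonneg D lam h hD hlam hh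
  have h2o : (2 : ℝ≥0∞) = ENNReal.ofReal 2 := by simp
  rw [Ws_sum]
  refine iSup_le fun Ω => iSup_le fun z => iSup_le fun hz => ?_
  obtain ⟨hz, hzI⟩ := hz
  have hz0 : 0 < z.im := lt_of_lt_of_le (by positivity) hz
  have hfa : ∀ (Ω : Set ι) (x y : ι), fa μ lam (1 - h) t Ω z x y ≤
      2 * FkA μ A I lam (1 - h) L M1 t k x y := fun Ω x y =>
    fa_le_FkA hmeas μ A I hA lam (1 - h) L M1 hM K t N ht k Ω z hz hzI x y
  by_cases hx : x ∈ Ω
  · obtain ⟨h1, h2, h3⟩ := hmain D lam h hD hlam hh hh2 μ A hA hμ ι K t N ht Ω z x hz0 hx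
    -- the off resonant part
    have hoff : ENNReal.ofReal M1 * faA μ Aᶜ lam (1 - h) t Ω z x y ≤
        ENNReal.ofReal (M1 * δ ^ (-(1 - h))) * (if y = x then 1 else 0) +
        ∑ x' ∈ N x, ENNReal.ofReal (2 * M1 * δ ^ (-(1 - h))) *
          FkA μ A I lam (1 - h) L M1 t k x' y := by
      have h4 := hbA lam (1 - h) δ hs hs1 hδ μ A hA ι K t N ht Ω z x y hz0 hx
        (fun v hv => hI z.re hzI v hv)
      calc ENNReal.ofReal M1 * faA μ Aᶜ lam (1 - h) t Ω z x y
          ≤ ENNReal.ofReal M1 * (ENNReal.ofReal (δ ^ (-(1 - h))) * ((if y = x then 1 else 0) +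
            ∑ u ∈ N x, 2 * FkA μ A I lam (1 - h) L M1 t k u y)) := by
            refine mul_le_mul_right (h4.trans (mul_le_mul_right (add_le_add le_rfl
              (Finset.sum_le_sum fun u _ => hfa Ω u y)) _)) _
        _ = _ := by
            rw [ENNReal.ofReal_mul hM0.le, show 2 * M1 * δ ^ (-(1 - h)) =
              2 * (M1 * δ ^ (-(1 - h))) by ring, ENNReal.ofReal_mul zero_le_two,
              ENNReal.ofReal_mul hM0.le, ← h2o, ← Finset.mul_sum, ← Finset.mul_sum]
            ring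
    by_cases hy : y = x
    · subst hy
      have h5 : max (faA μ A lam (1 - h) t Ω z y y)
          (ENNReal.ofReal L * fbA μ A lam (1 - h) t Ω z y y) ≤ ENNReal.ofReal (L * cM D lam h) := by
        refine max_le (h1.trans (ENNReal.ofReal_le_ofReal hLc)) ?_
        rw [ENNReal.ofReal_mul hL0]
        gcongr
      refine max_le ?_ ?_
      · refine le_add_right ?_
        unfold Ss
        refine le_add_right ?_
        rw [if_pos rfl]
        refine h5.trans (ENNReal.ofReal_le_ofReal ?_)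
        have : 0 ≤ M1 * δ ^ (-(1 - h)) := by positivity
        linarith
      · refine hoff.trans ?_
        refine add_le_add ?_ ?_
        · unfold Ss
          refine le_add_right ?_
          rw [if_pos rfl, mul_one, if_pos rfl]
          apply ENNReal.ofReal_le_ofReal
          have : 0 ≤ L * cM D lam h := by positivity
          linarith
        · refine Finset.sum_le_sum fun x' _ => ?_
          rw [add_assoc]
          refine le_add_right ?_
          refine mul_le_mul_left (ENNReal.ofReal_le_ofReal ?_) _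
          have : 0 ≤ cM D lam h * (1 + L / M1) := by positivity
          linarith
    · obtain ⟨h4, h5⟩ := h3 y hy
      rw [if_neg hy, mul_zero, zero_add] at hoff
      have h6 : ∀ x' ∈ N x, foA μ A lam (1 - h) t Ω z x x' y ≤
          ENNReal.ofReal (k1 D lam h) * ((if y = x' then 1 else 0) +
          ∑ r ∈ N x', 2 * FkA μ A I lam (1 - h) L M1 t k r y) +
        ENNReal.ofReal (k2 D lam h) * ∑ w ∈ N x, 2 * FkA μ A I lam (1 - h) L M1 t k w y := by
        intro x' hx'
        refine (hresn D lam h hD hlam hh hh2 μ A hA hμ ι K t N ht Ω z x x' y hz0 hx hx' hy).trans ?_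
        refine add_le_add (mul_le_mul_right (add_le_add le_rfl (Finset.sum_le_sum fun r _ => ?_)) _)
          (mul_le_mul_right (Finset.sum_le_sum fun w _ => ?_) _)
        · exact hfa _ r y
        · exact hfa _ w y
      have hcc : ∀ x', ENNReal.ofReal L * (fbA μ A lam (1 - h) t (Ω \ {x}) z x' y +
          faA μ Aᶜ lam (1 - h) t (Ω \ {x}) z x' y) ≤
          ENNReal.ofReal (1 + L / M1) * FkA μ A I lam (1 - h) L M1 t k x' y := by
        intro x'
        have e1 := fbA_le_FkA μ A I lam (1 - h) L M1 t k (Ω \ {x}) z hz hzI x' y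
        have e2 := fcA_le_FkA μ A I lam (1 - h) L M1 t k (Ω \ {x}) z hz hzI x' y
        calc ENNReal.ofReal L * (fbA μ A lam (1 - h) t (Ω \ {x}) z x' y +
            faA μ Aᶜ lam (1 - h) t (Ω \ {x}) z x' y)
            = ENNReal.ofReal L * fbA μ A lam (1 - h) t (Ω \ {x}) z x' y +
              ENNReal.ofReal (L / M1) *
                (ENNReal.ofReal M1 * faA μ Aᶜ lam (1 - h) t (Ω \ {x}) z x' y) := by
              rw [← mul_assoc (ENNReal.ofReal (L / M1)), ← ENNReal.ofReal_mul (by positivity),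
                div_mul_cancel₀ _ hM0.ne', mul_add]
          _ ≤ FkA μ A I lam (1 - h) L M1 t k x' y +
              ENNReal.ofReal (L / M1) * FkA μ A I lam (1 - h) L M1 t k x' y := by gcongr
          _ = _ := by
              rw [ENNReal.ofReal_add zero_le_one (by positivity), ENNReal.ofReal_one, add_mul,
                one_mul]
      have h8 : ENNReal.ofReal L * (ENNReal.ofReal (cM D lam h) *
          ∑ x' ∈ N x, (fbA μ A lam (1 - h) t (Ω \ {x}) z x' y +
            faA μ Aᶜ lam (1 - h) t (Ω \ {x}) z x' y)) ≤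
          ∑ x' ∈ N x, ENNReal.ofReal (cM D lam h * (1 + L / M1)) *
            FkA μ A I lam (1 - h) L M1 t k x' y := by
        rw [mul_left_comm, Finset.mul_sum, Finset.mul_sum]
        refine Finset.sum_le_sum fun x' _ => ?_
        rw [ENNReal.ofReal_mul hcM, mul_assoc]
        exact mul_le_mul_right (hcc x') _
      have h7 : ENNReal.ofReal (cC D lam h) * ∑ x' ∈ N x,
          (fbA μ A lam (1 - h) t (Ω \ {x}) z x' y + faA μ Aᶜ lam (1 - h) t (Ω \ {x}) z x' y) ≤
          ∑ x' ∈ N x, ENNReal.ofReal (cM D lam h * (1 + L / M1)) *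
            FkA μ A I lam (1 - h) L M1 t k x' y := by
        refine le_trans ?_ h8
        rw [← mul_assoc, ← ENNReal.ofReal_mul hL0]
        gcongr
      have hL1 : (1 : ℝ≥0∞) ≤ ENNReal.ofReal L := by
        rw [← ENNReal.ofReal_one]
        exact ENNReal.ofReal_le_ofReal hL
      have h9 : max (faA μ A lam (1 - h) t Ω z x y)
          (ENNReal.ofReal L * fbA μ A lam (1 - h) t Ω z x y) ≤
          ∑ x' ∈ N x, ENNReal.ofReal (cM D lam h * (1 + L / M1)) *
            FkA μ A I lam (1 - h) L M1 t k x' y +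
          ENNReal.ofReal L * ∑ x' ∈ N x, foA μ A lam (1 - h) t Ω z x x' y := by
        refine max_le ?_ ?_
        · refine h4.trans (add_le_add h7 ?_)
          calc ∑ x' ∈ N x, foA μ A lam (1 - h) t Ω z x x' y
              = 1 * ∑ x' ∈ N x, foA μ A lam (1 - h) t Ω z x x' y := (one_mul _).symm
            _ ≤ _ := by gcongr
        · refine (mul_le_mul_right h5 _).trans ?_
          rw [mul_add]
          exact add_le_add h8 le_rfl
      have h10 : ENNReal.ofReal L * ∑ x' ∈ N x, foA μ A lam (1 - h) t Ω z x x' y ≤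
          ∑ x' ∈ N x, (ENNReal.ofReal (L * k1 D lam h) * (if y = x' then 1 else 0) +
            (ENNReal.ofReal (2 * L * k1 D lam h) *
              ∑ r ∈ N x', FkA μ A I lam (1 - h) L M1 t k r y +
            ENNReal.ofReal (2 * L * k2 D lam h) *
              ∑ w ∈ N x, FkA μ A I lam (1 - h) L M1 t k w y)) := by
        rw [Finset.mul_sum]
        refine Finset.sum_le_sum fun x' hx' => ?_
        refine (mul_le_mul_right (h6 x' hx') _).trans (le_of_eq ?_)
        rw [show 2 * L * k1 D lam h = 2 * (L * k1 D lam h) by ring,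
          show 2 * L * k2 D lam h = 2 * (L * k2 D lam h) by ring,
          ENNReal.ofReal_mul zero_le_two, ENNReal.ofReal_mul zero_le_two, ← h2o,
          ENNReal.ofReal_mul hL0, ENNReal.ofReal_mul hL0, ← Finset.mul_sum, ← Finset.mul_sum]
        ring
      have h11 : Ss N (ENNReal.ofReal (L * cM D lam h + M1 * δ ^ (-(1 - h))))
          (ENNReal.ofReal (L * k1 D lam h)) x y =
          ∑ x' ∈ N x, ENNReal.ofReal (L * k1 D lam h) * (if y = x' then 1 else 0) := by
        unfold Ss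
        rw [if_neg hy, zero_add, Finset.mul_sum]
      have h12 : max (max (faA μ A lam (1 - h) t Ω z x y)
          (ENNReal.ofReal L * fbA μ A lam (1 - h) t Ω z x y))
          (ENNReal.ofReal M1 * faA μ Aᶜ lam (1 - h) t Ω z x y) ≤
          (∑ x' ∈ N x, ENNReal.ofReal (cM D lam h * (1 + L / M1)) *
            FkA μ A I lam (1 - h) L M1 t k x' y +
          ENNReal.ofReal L * ∑ x' ∈ N x, foA μ A lam (1 - h) t Ω z x x' y) +
          ∑ x' ∈ N x, ENNReal.ofReal (2 * M1 * δ ^ (-(1 - h))) *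
            FkA μ A I lam (1 - h) L M1 t k x' y :=
        max_le (le_add_right h9) (le_add_left hoff)
      refine h12.trans ?_
      refine (add_le_add (add_le_add le_rfl h10) le_rfl).trans (le_of_eq ?_)
      rw [h11, ← Finset.sum_add_distrib, ← Finset.sum_add_distrib, ← Finset.sum_add_distrib]
      refine Finset.sum_congr rfl fun x' _ => ?_
      rw [ENNReal.ofReal_add (p := cM D lam h * (1 + L / M1)) (by positivity) (by positivity)]
      ring
  · have h0 : fa μ lam (1 - h) t Ω z x y = 0 := fa_out μ lam (1 - h) hs t Ω z x y (Or.inl hx)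
    have h1 : faA μ A lam (1 - h) t Ω z x y = 0 :=
      le_antisymm (h0 ▸ faA_le_fa μ A lam (1 - h) t Ω z x y) bot_le
    have h2 : fbA μ A lam (1 - h) t Ω z x y = 0 :=
      le_antisymm (h0 ▸ fbA_le_fa μ A lam (1 - h) t Ω z x y) bot_le
    have h3 : faA μ Aᶜ lam (1 - h) t Ω z x y = 0 :=
      le_antisymm (h0 ▸ faA_le_fa μ Aᶜ lam (1 - h) t Ω z x y) bot_le
    rw [h1, h2, h3, mul_zero, mul_zero, max_self, max_self]
    exact bot_le

theorem FkA_bd (hsch : S_sch) (lam s L M1 : ℝ) (hs : 0 < s) (hL : 1 ≤ L) (hM : 1 ≤ M1)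
    (μ : Measure ℝ) [IsProbabilityMeasure μ] (A I : Set ℝ) (K : ℕ) (t : ι → ι → ℝ)
    (N : ι → Finset ι) (ht : Grf K t N) (k : ℕ) (x y : ι) :
    FkA μ A I lam s L M1 t k x y ≤
      ENNReal.ofReal (L * M1) * (ENNReal.ofReal ((k : ℝ) + 1)) ^ s := by
  refine iSup_le fun Ω => iSup_le fun z => iSup_le fun hz => ?_
  have hz := hz.1
  have hz0 : 0 < z.im := lt_of_lt_of_le (by positivity) hz
  have h1 : fa μ lam s t Ω z x y ≤ (ENNReal.ofReal ((k : ℝ) + 1)) ^ s := by
    unfold fa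
    calc ∫⁻ ω, ‖GR t (fun p => lam * ω p) Ω z x y‖ₑ ^ s ∂(Measure.infinitePi fun _ : ι => μ)
        ≤ ∫⁻ ω, (ENNReal.ofReal ((k : ℝ) + 1)) ^ s ∂(Measure.infinitePi fun _ : ι => μ) := by
          refine lintegral_mono fun ω => ?_
          refine ENNReal.rpow_le_rpow ?_ hs.le
          rw [← ofReal_norm_eq_enorm]
          refine ENNReal.ofReal_le_ofReal ?_
          refine ((hsch ι K t N ht (fun p => lam * ω p) Ω z hz0).2.2.1 x y).trans ?_
          rw [div_le_iff₀ hz0]
          rw [div_le_iff₀ (by positivity)] at hz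
          linarith
      _ = _ := by simp
  have hLM : L ≤ L * M1 := by nlinarith
  have hML : M1 ≤ L * M1 := by nlinarith
  have h1LM : 1 ≤ L * M1 := hL.trans hLM
  have h1' : (1 : ℝ≥0∞) ≤ ENNReal.ofReal (L * M1) := by
    rw [← ENNReal.ofReal_one]
    exact ENNReal.ofReal_le_ofReal h1LM
  refine max_le (max_le ?_ ?_) ?_
  · calc faA μ A lam s t Ω z x y ≤ 1 * (ENNReal.ofReal ((k : ℝ) + 1)) ^ s := by
          rw [one_mul]
          exact (faA_le_fa μ A lam s t Ω z x y).trans h1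
      _ ≤ _ := by gcongr
  · exact mul_le_mul' (ENNReal.ofReal_le_ofReal hLM) ((fbA_le_fa μ A lam s t Ω z x y).trans h1)
  · exact mul_le_mul' (ENNReal.ofReal_le_ofReal hML) ((faA_le_fa μ Aᶜ lam s t Ω z x y).trans h1)

open Classical in
/-- the iteration for the weights `Ws` -/
theorem sum_gen (F : ι → ι → ℝ≥0∞) (C : ℝ≥0∞) (hC : C ≠ ∞) (hF : ∀ x y, F x y ≤ C) (K : ℕ)
    (N : ι → Finset ι) (hN : ∀ x, (N x).card ≤ K) (c a0 cm a b : ℝ) (hc : 0 ≤ c) (ha0 : 0 ≤ a0)
    (hcm : 0 ≤ cm) (ha : 0 ≤ a) (hb : 0 ≤ b) (γ q : ℝ) (hγ : 0 ≤ γ) (hq : q < 1)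
    (hrec : ∀ x y, F x y ≤ Ss N (ENNReal.ofReal c) (ENNReal.ofReal a0) x y +
      ∑' v, Ws N (ENNReal.ofReal cm) (ENNReal.ofReal a) (ENNReal.ofReal b) x v * F v y)
    (hw : Real.exp (2 * γ) * (K * cm + K ^ 2 * (a + b)) ≤ q)
    (r : ι → ℕ) (hr : ∀ x, ∀ w ∈ N x, r w ≤ r x + 1) (x : ι) :
    ∑' y, F x y * ENNReal.ofReal (Real.exp (γ * r y)) ≤
      ENNReal.ofReal ((c + a0 * (K * Real.exp γ)) / (1 - q)) *
        ENNReal.ofReal (Real.exp (γ * r x)) := by
  have hE1 : 1 ≤ Real.exp γ := Real.one_le_exp hγ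
  have hE2 : Real.exp (2 * γ) = Real.exp γ * Real.exp γ := by rw [← Real.exp_add]; ring_nf
  have hq0 : 0 ≤ q := le_trans (by positivity) hw
  have hρ1 : ∀ x w, r w ≤ r x + 1 → ENNReal.ofReal (Real.exp (γ * r w)) ≤
      ENNReal.ofReal (Real.exp γ) * ENNReal.ofReal (Real.exp (γ * r x)) := by
    intro x w hxw
    rw [← ENNReal.ofReal_mul (Real.exp_pos _).le, ← Real.exp_add]
    apply ENNReal.ofReal_le_ofReal
    apply Real.exp_le_exp.2
    have h1 : (r w : ℝ) ≤ r x + 1 := by exact_mod_cast hxw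
    nlinarith
  have hsum1 : ∀ x, ∑ w ∈ N x, ENNReal.ofReal (Real.exp (γ * r w)) ≤
      (K : ℝ≥0∞) * (ENNReal.ofReal (Real.exp γ) * ENNReal.ofReal (Real.exp (γ * r x))) := by
    intro x
    calc ∑ w ∈ N x, ENNReal.ofReal (Real.exp (γ * r w))
        ≤ ∑ w ∈ N x, ENNReal.ofReal (Real.exp γ) * ENNReal.ofReal (Real.exp (γ * r x)) :=
          Finset.sum_le_sum fun w hw => hρ1 x w (hr x w hw)
      _ = ((N x).card : ℝ≥0∞) * (ENNReal.ofReal (Real.exp γ) * ENNReal.ofReal (Real.exp (γ * r x))) := by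
          rw [Finset.sum_const, nsmul_eq_mul]
      _ ≤ _ := by gcongr; exact hN x
  have hKr : (K : ℝ≥0∞) = ENNReal.ofReal (K : ℝ) := by
    rw [ENNReal.ofReal_natCast]
  have key := Pool.Agent.H328.UE.itr ι F
    (Ss N (ENNReal.ofReal c) (ENNReal.ofReal a0))
    (Ws N (ENNReal.ofReal cm) (ENNReal.ofReal a) (ENNReal.ofReal b))
    (fun y => ENNReal.ofReal (Real.exp (γ * r y)))
    C
    (ENNReal.ofReal (c + a0 * (K * Real.exp γ)))
    (ENNReal.ofReal q)
    hC
    ENNReal.ofReal_ne_top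
    (by rw [← ENNReal.ofReal_one]; exact (ENNReal.ofReal_lt_ofReal_iff one_pos).2 hq)
    (by
      intro x
      show 1 ≤ ENNReal.ofReal (Real.exp (γ * r x))
      rw [← ENNReal.ofReal_one]
      exact ENNReal.ofReal_le_ofReal (Real.one_le_exp (by positivity)))
    (fun x => ENNReal.ofReal_ne_top)
    hF
    (by
      intro x
      rw [Ss_sum]
      calc ENNReal.ofReal c * ENNReal.ofReal (Real.exp (γ * r x)) +
          ENNReal.ofReal a0 * ∑ x' ∈ N x, ENNReal.ofReal (Real.exp (γ * r x'))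
          ≤ ENNReal.ofReal c * ENNReal.ofReal (Real.exp (γ * r x)) +
          ENNReal.ofReal a0 * ((K : ℝ≥0∞) * (ENNReal.ofReal (Real.exp γ) *
            ENNReal.ofReal (Real.exp (γ * r x)))) := by
            gcongr
            exact hsum1 x
        _ = _ := by
            rw [ENNReal.ofReal_add (by positivity) (by positivity), ENNReal.ofReal_mul
              (p := a0) (by positivity), ENNReal.ofReal_mul (p := (K : ℝ)) (by positivity),
              hKr]
            ring)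
    (by
      intro x
      rw [Ws_sum]
      have h2 : ∀ x' ∈ N x, ENNReal.ofReal cm * ENNReal.ofReal (Real.exp (γ * r x')) +
          ENNReal.ofReal a * ∑ v ∈ N x', ENNReal.ofReal (Real.exp (γ * r v)) +
          ENNReal.ofReal b * ∑ w ∈ N x, ENNReal.ofReal (Real.exp (γ * r w)) ≤
          ENNReal.ofReal (Real.exp (2 * γ) * (cm + K * (a + b))) *
            ENNReal.ofReal (Real.exp (γ * r x)) := by
        intro x' hx'
        have h3 := hρ1 x x' (hr x x' hx')
        have h4 := hsum1 x'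
        have h5 := hsum1 x
        have hE12 : ENNReal.ofReal (Real.exp γ) ≤ ENNReal.ofReal (Real.exp (2 * γ)) := by
          apply ENNReal.ofReal_le_ofReal
          rw [hE2]
          nlinarith
        have hE22 : ENNReal.ofReal (Real.exp γ) * ENNReal.ofReal (Real.exp γ) =
            ENNReal.ofReal (Real.exp (2 * γ)) := by
          rw [hE2, ENNReal.ofReal_mul (Real.exp_pos _).le]
        calc ENNReal.ofReal cm * ENNReal.ofReal (Real.exp (γ * r x')) +
          ENNReal.ofReal a * ∑ v ∈ N x', ENNReal.ofReal (Real.exp (γ * r v)) +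
          ENNReal.ofReal b * ∑ w ∈ N x, ENNReal.ofReal (Real.exp (γ * r w))
            ≤ ENNReal.ofReal cm * (ENNReal.ofReal (Real.exp (2 * γ)) *
                ENNReal.ofReal (Real.exp (γ * r x))) +
              ENNReal.ofReal a * ((K : ℝ≥0∞) * (ENNReal.ofReal (Real.exp γ) *
                (ENNReal.ofReal (Real.exp γ) * ENNReal.ofReal (Real.exp (γ * r x))))) +
              ENNReal.ofReal b * ((K : ℝ≥0∞) * (ENNReal.ofReal (Real.exp (2 * γ)) *
                ENNReal.ofReal (Real.exp (γ * r x)))) := by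
              refine add_le_add (add_le_add ?_ ?_) ?_
              · exact mul_le_mul_right (h3.trans (mul_le_mul_left hE12 _)) _
              · exact mul_le_mul_right (h4.trans (mul_le_mul_right (mul_le_mul_right h3 _) _)) _
              · exact mul_le_mul_right (h5.trans (mul_le_mul_right (mul_le_mul_left hE12 _) _)) _
          _ = (ENNReal.ofReal cm + ENNReal.ofReal a * (K : ℝ≥0∞) +
              ENNReal.ofReal b * (K : ℝ≥0∞)) * (ENNReal.ofReal (Real.exp (2 * γ)) *
                ENNReal.ofReal (Real.exp (γ * r x))) := by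
              rw [← hE22]
              ring
          _ = _ := by
              rw [hKr, ← ENNReal.ofReal_mul (by positivity), ← ENNReal.ofReal_mul (by positivity),
                ← ENNReal.ofReal_add (by positivity) (by positivity),
                ← ENNReal.ofReal_add (by positivity) (by positivity), ← mul_assoc,
                ← ENNReal.ofReal_mul (by positivity)]
              congr 2
              ring
      refine (Finset.sum_le_sum h2).trans ?_
      rw [Finset.sum_const, nsmul_eq_mul, ← mul_assoc]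
      refine mul_le_mul_left ?_ _
      calc ((N x).card : ℝ≥0∞) * ENNReal.ofReal (Real.exp (2 * γ) * (cm + K * (a + b)))
          ≤ (K : ℝ≥0∞) * ENNReal.ofReal (Real.exp (2 * γ) * (cm + K * (a + b))) := by
            gcongr
            exact hN x
        _ = ENNReal.ofReal (Real.exp (2 * γ) * (K * cm + K ^ 2 * (a + b))) := by
            rw [hKr, ← ENNReal.ofReal_mul (by positivity)]
            congr 1
            ring
        _ ≤ _ := ENNReal.ofReal_le_ofReal hw)
    hrec x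
  refine key.trans (le_of_eq ?_)
  rw [← ENNReal.ofReal_one, ← ENNReal.ofReal_sub 1 hq0, ← ENNReal.ofReal_inv_of_pos (by linarith),
    ← ENNReal.ofReal_mul (by positivity), div_eq_mul_inv]

/-- the supremum of the moments, `Im z > 0`, `Re z ∈ I` -/
noncomputable def FiA (μ : Measure ℝ) (A I : Set ℝ) (lam s L M1 : ℝ) (t : ι → ι → ℝ) (x y : ι) :
    ℝ≥0∞ :=
  ⨆ k : ℕ, FkA μ A I lam s L M1 t k x y

theorem fa_le_FiA (hmeas : S_measR) [Countable ι] (μ : Measure ℝ) [IsProbabilityMeasure μ]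
    (A I : Set ℝ) (hA : MeasurableSet A) (lam s L M1 : ℝ) (hM : 1 ≤ M1) (K : ℕ) (t : ι → ι → ℝ)
    (N : ι → Finset ι) (ht : Grf K t N) (Ω : Set ι) (z : ℂ)
    (hz : 0 < z.im) (hzI : z.re ∈ I) (x y : ι) :
    fa μ lam s t Ω z x y ≤ 2 * FiA μ A I lam s L M1 t x y := by
  obtain ⟨k, hk⟩ := exists_nat_one_div_lt hz
  refine (fa_le_FkA hmeas μ A I hA lam s L M1 hM K t N ht k Ω z hk.le hzI x y).trans ?_
  exact mul_le_mul_right (le_iSup (fun k => FkA μ A I lam s L M1 t k x y) k) _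

/-- **the moments are summable** -/
theorem FiA_sum (hsch : S_sch) (hmeas : S_measR) (hresn : S_resnA) (hmain : S_mainA) (hbA : S_bA)
    (D lam h δ : ℝ) (hD : 0 < D)
    (hlam : 1 ≤ lam) (hh : 0 < h) (hh2 : h ≤ 1 / 2) (hδ : 0 < δ) (μ : Measure ℝ)
    [IsProbabilityMeasure μ] (A I : Set ℝ) (hA : MeasurableSet A) (hμ : Sn D (μ.restrict A))
    (hI : ∀ E ∈ I, ∀ v : ℝ, v ∉ A → δ ≤ |lam * v - E|)
    [Countable ι] (K : ℕ) (t : ι → ι → ℝ) (N : ι → Finset ι) (ht : Grf K t N) (L M1 : ℝ)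
    (hL : 1 ≤ L) (hM : 1 ≤ M1) (hLc : cC D lam h ≤ L * cM D lam h) (γ q : ℝ) (hγ : 0 ≤ γ)
    (hq : q < 1)
    (hw : Real.exp (2 * γ) * (K * (cM D lam h * (1 + L / M1) + 2 * M1 * δ ^ (-(1 - h))) +
      2 * L * K ^ 2 * (k1 D lam h + k2 D lam h)) ≤ q)
    (r : ι → ℕ) (hr : ∀ x, ∀ w ∈ N x, r w ≤ r x + 1) (x : ι) :
    ∑' y, FiA μ A I lam (1 - h) L M1 t x y * ENNReal.ofReal (Real.exp (γ * r y)) ≤
      ENNReal.ofReal ((L * cM D lam h + M1 * δ ^ (-(1 - h)) +
        L * k1 D lam h * (K * Real.exp γ)) / (1 - q)) * ENNReal.ofReal (Real.exp (γ * r x)) := by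
  have hs : 0 < 1 - h := by linarith
  have hcM := cM_nonneg D lam h hD hlam hh
  have hk1 := k1_nonneg D lam h hD hh
  have hk2 := k2_nonneg D lam h hD hlam hh
  have hP0 : 0 ≤ δ ^ (-(1 - h)) := Real.rpow_nonneg hδ.le _
  have hL0 : 0 ≤ L := by linarith
  have hM0 : 0 < M1 := by linarith
  rw [ENNReal.tsum_eq_iSup_sum]
  refine iSup_le fun B => ?_
  unfold FiA
  simp only [ENNReal.iSup_mul]
  rw [ENNReal.finsetSum_iSup_of_monotone]
  · refine iSup_le fun k => ?_
    refine (ENNReal.sum_le_tsum B).trans ?_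
    refine sum_gen (FkA μ A I lam (1 - h) L M1 t k)
      (ENNReal.ofReal (L * M1) * (ENNReal.ofReal ((k : ℝ) + 1)) ^ (1 - h))
      (ENNReal.mul_ne_top ENNReal.ofReal_ne_top
        (ENNReal.rpow_ne_top_of_nonneg hs.le ENNReal.ofReal_ne_top))
      (FkA_bd hsch lam (1 - h) L M1 hs hL hM μ A I K t N ht k) K N ht.cd
      (L * cM D lam h + M1 * δ ^ (-(1 - h))) (L * k1 D lam h)
      (cM D lam h * (1 + L / M1) + 2 * M1 * δ ^ (-(1 - h))) (2 * L * k1 D lam h)
      (2 * L * k2 D lam h) (by positivity) (by positivity) (by positivity) (by positivity)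
      (by positivity) γ q hγ hq
      (FkA_rec hmeas hresn hmain hbA D lam h δ hD hlam hh hh2 hδ μ A I hA hμ hI K t N ht L M1 hL hM
        hcM hLc k) ?_ r hr x
    refine le_trans (le_of_eq ?_) hw
    ring
  · intro y k l hkl
    exact mul_le_mul_left (FkA_mono μ A I lam (1 - h) L M1 t x y hkl) _

end Pool.Agent.H121.SH
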